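import Pool.Agent.Lib.MP_1a3fd7_lc.Defs

/-!
Plane Laman graphs on sets of integer points.
-/

namespace Pool.Agent.Lib.MP_1a3fd7_lc

open Classical in
/-- `E` is a plane Laman graph on `S`. -/
structure PlaneLaman (S : Finset Pt) (E : Finset (Sym2 Pt)) : Prop where
  edges : ∀ e ∈ E, ¬ e.IsDiag ∧ ∀ p ∈ e, p ∈ S
  plane : ∀ e ∈ E, ∀ f ∈ E, e ≠ f → ∀ z ∈ seg e, z ∈ seg f → ∃ p ∈ e, p ∈ f ∧ z = toR p
  count : E.card + 3 = 2 * S.card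
  sparse : ∀ X ⊆ S, 2 ≤ X.card → (E.filter fun e => ∀ p ∈ e, p ∈ X).card + 3 ≤ 2 * X.card

end Pool.Agent.Lib.MP_1a3fd7_lc
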