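import Pool.Agent.Lib.MP_1a3fd7_lc.Pl.Nom

namespace Pool.Agent.Lib.MP_1a3fd7_lc.Pl

theorem gl_len (H a b c d : ℤ) : len (Sym2.map (nomi H) s((a, b), (c, d))) =
    √(((81 * (a - c) ^ 2 + (hgt d - hgt b) ^ 2 : ℤ) : ℝ)) := by
  simp only [Sym2.map_mk, len, Sym2.lift_mk, nomi]
  congr 1
  push_cast
  ring

theorem gl_path {a b c d : ℤ} : IsPath s((a, b), (c, d)) ↔ b = d ∧ (a - c = 2 ∨ c - a = 2) := by
  constructor
  · rintro ⟨x, y, h⟩
    simp only [Sym2.eq_iff, Prod.mk.injEq] at h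
    omega
  · rintro ⟨rfl, h | h⟩
    · exact ⟨c, b, by rw [show a = c + 2 by omega, Sym2.eq_swap]⟩
    · exact ⟨a, b, by rw [show c = a + 2 by omega]⟩

theorem gl_sk0 {a b c d x y : ℤ} : s((a, b), (c, d)) = sk x y ↔
    b = y ∧ d = y ∧ ((a = x - 2 ∧ c = x + 2) ∨ (a = x + 2 ∧ c = x - 2)) := by
  simp only [sk, Sym2.eq_iff, Prod.mk.injEq]
  omega

theorem gl_sk {a b c d : ℤ} : IsSk s((a, b), (c, d)) ↔ b = d ∧ (a - c = 4 ∨ c - a = 4) := by
  constructor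
  · rintro ⟨x, y, h⟩
    rw [gl_sk0] at h
    omega
  · rintro ⟨rfl, h | h⟩
    · exact ⟨c + 2, b, gl_sk0.2 (by omega)⟩
    · exact ⟨a + 2, b, gl_sk0.2 (by omega)⟩

theorem gl_csk {a b c d : ℤ} :
    IsCSk s((a, b), (c, d)) ↔ b % 4 = 3 ∧ b = d ∧ (a - c = 4 ∨ c - a = 4) := by
  constructor
  · rintro ⟨x, y, h0, h⟩
    rw [gl_sk0] at h
    omega
  · rintro ⟨h0, rfl, h | h⟩
    · exact ⟨c + 2, b, h0, gl_sk0.2 (by omega)⟩
    · exact ⟨a + 2, b, h0, gl_sk0.2 (by omega)⟩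

theorem gl_two {a b c d x y k : ℤ} :
    (s((a, b), (c, d)) = s((x, y), (x - k, y - 1)) ∨ s((a, b), (c, d)) = s((x, y), (x + k, y - 1))) ↔
    (a - c = k ∨ c - a = k) ∧ ((a = x ∧ b = y ∧ d = y - 1) ∨ (c = x ∧ d = y ∧ b = y - 1)) := by
  simp only [Sym2.eq_iff, Prod.mk.injEq]
  omega

theorem gl_leg {a b c d : ℤ} :
    IsLeg s((a, b), (c, d)) ↔ (b - d = 1 ∨ d - b = 1) ∧ (a - c = 1 ∨ c - a = 1) := by
  constructor
  · rintro ⟨x, y, h⟩
    rw [gl_two] at h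
    omega
  · rintro ⟨h | h, h'⟩
    · exact ⟨a, b, gl_two.2 (by omega)⟩
    · exact ⟨c, d, gl_two.2 (by omega)⟩

theorem gl_sleg {a b c d : ℤ} : IsSLeg s((a, b), (c, d)) ↔
    ((b - d = 1 ∧ b % 4 = 2) ∨ (d - b = 1 ∧ d % 4 = 2)) ∧ (a - c = 1 ∨ c - a = 1) := by
  constructor
  · rintro ⟨x, y, h0, h⟩
    rw [gl_two] at h
    omega
  · rintro ⟨h | h, h'⟩
    · exact ⟨a, b, h.2, gl_two.2 (by omega)⟩
    · exact ⟨c, d, h.2, gl_two.2 (by omega)⟩

theorem gl_long {a b c d : ℤ} : IsLong s((a, b), (c, d)) ↔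
    ((b - d = 1 ∧ b % 4 = 2) ∨ (d - b = 1 ∧ d % 4 = 2)) ∧ (a - c = 3 ∨ c - a = 3) := by
  constructor
  · rintro ⟨x, y, h0, h⟩
    rw [gl_two] at h
    omega
  · rintro ⟨h | h, h'⟩
    · exact ⟨a, b, h.2, gl_two.2 (by omega)⟩
    · exact ⟨c, d, h.2, gl_two.2 (by omega)⟩

theorem gl_h1 {b d : ℤ} (h : d - b = 1) (h2 : d % 4 = 2) : hgt d - hgt b = 12 := by
  unfold hgt
  split_ifs <;> omega

theorem gl_h2 {b d : ℤ} (h : d - b = 1) (h2 : d % 4 ≠ 2) : hgt d - hgt b = 40 := by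
  unfold hgt
  split_ifs <;> omega

theorem gl_h3 {b d : ℤ} (h : 2 ≤ d - b) : 52 ≤ hgt d - hgt b := by
  unfold hgt
  split_ifs <;> omega

theorem gl_sq {u k : ℤ} (hk : 0 ≤ k) (h : k ≤ u ∨ u ≤ -k) : k ^ 2 ≤ u ^ 2 := by
  rcases h with h | h <;> nlinarith

theorem gl_sqe {u k : ℤ} (h : u = k ∨ -u = k) : u ^ 2 = k ^ 2 := by
  rcases h with h | h <;> rw [← h]
  ring

theorem gl_le {k : ℕ} {n : ℤ} (h : (k : ℤ) ^ 2 ≤ n) : (k : ℝ) ≤ √(n : ℝ) :=
  Real.le_sqrt_of_sq_le (by exact_mod_cast h)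

theorem gl_eq {k : ℕ} {n : ℤ} (h : n = (k : ℤ) ^ 2) : √(n : ℝ) = k := by
  rw [h]
  push_cast
  exact Real.sqrt_sq (Nat.cast_nonneg k)

theorem gl_main {a b c d : ℤ} (hbd : b ≤ d) (hd : ¬ (a = c ∧ b = d)) (h1 : (a + b) % 2 = 1)
    (h2 : (c + d) % 2 = 1) :
    ((nlen s((a, b), (c, d)) : ℕ) : ℤ) ^ 2 ≤ 81 * (a - c) ^ 2 + (hgt d - hgt b) ^ 2 := by
  have q0 := sq_nonneg (hgt d - hgt b)
  have q1 := sq_nonneg (a - c)
  unfold nlen
  rw [gl_path, gl_sk, gl_sleg, gl_leg, gl_long]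
  split_ifs with p1 p2 p3 p4 p5
  · have := gl_sq (u := a - c) (k := 2) (by norm_num) (by omega)
    push_cast; linarith
  · have := gl_sq (u := a - c) (k := 4) (by norm_num) (by omega)
    push_cast; linarith
  · have := gl_sq (u := a - c) (k := 1) (by norm_num) (by omega)
    rw [gl_h1 (by omega) (by omega)]
    push_cast; linarith
  · have := gl_sq (u := a - c) (k := 1) (by norm_num) (by omega)
    rw [gl_h2 (by omega) (by omega)]
    push_cast; linarith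
  · have := gl_sq (u := a - c) (k := 3) (by norm_num) (by omega)
    rw [gl_h1 (by omega) (by omega)]
    push_cast; linarith
  · by_cases e0 : b = d
    · have r1 : ¬ (a - c = 2 ∨ c - a = 2) := fun h => p1 ⟨e0, h⟩
      have r2 : ¬ (a - c = 4 ∨ c - a = 4) := fun h => p2 ⟨e0, h⟩
      have r3 : a ≠ c := fun h => hd ⟨h, e0⟩
      clear p1 p2 p3 p4 p5 hd
      have := gl_sq (u := a - c) (k := 6) (by norm_num) (by omega)
      push_cast; linarith
    · by_cases e1 : d - b = 1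
      · have r1 : ¬ (a - c = 1 ∨ c - a = 1) := fun h => p4 ⟨Or.inr e1, h⟩
        by_cases e2 : d % 4 = 2
        · have r2 : ¬ (a - c = 3 ∨ c - a = 3) := fun h => p5 ⟨Or.inr ⟨e1, e2⟩, h⟩
          clear p1 p2 p3 p4 p5 hd
          have := gl_sq (u := a - c) (k := 5) (by norm_num) (by omega)
          rw [gl_h1 e1 e2]
          push_cast; linarith
        · clear p1 p2 p3 p4 p5 hd
          have := gl_sq (u := a - c) (k := 3) (by norm_num) (by omega)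
          rw [gl_h2 e1 e2]
          push_cast; linarith
      · clear p1 p2 p3 p4 p5 hd
        have := gl_sq (u := hgt d - hgt b) (k := 52) (by norm_num) (Or.inl (gl_h3 (by omega)))
        push_cast; linarith

theorem gl_main2 {a b c d : ℤ} (hbd : b ≤ d)
    (h : IsPath s((a, b), (c, d)) ∨ IsCSk s((a, b), (c, d)) ∨ IsLeg s((a, b), (c, d))) :
    81 * (a - c) ^ 2 + (hgt d - hgt b) ^ 2 = ((nlen s((a, b), (c, d)) : ℕ) : ℤ) ^ 2 := by
  unfold nlen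
  rw [gl_path, gl_csk, gl_leg] at h
  rw [gl_path, gl_sk, gl_sleg, gl_leg, gl_long]
  split_ifs with p1 p2 p3 p4 p5
  · rw [gl_sqe (u := a - c) (k := 2) (by omega), p1.1]
    norm_num
  · rw [gl_sqe (u := a - c) (k := 4) (by omega), p2.1]
    norm_num
  · rw [gl_sqe (u := a - c) (k := 1) (by omega), gl_h1 (by omega) (by omega)]
    norm_num
  · rw [gl_sqe (u := a - c) (k := 1) (by omega), gl_h2 (by omega) (by omega)]
    norm_num
  · exact (h.elim p1 fun h => h.elim (fun h => p2 h.2) p4).elim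
  · exact (h.elim p1 fun h => h.elim (fun h => p2 h.2) p4).elim

theorem nlen_le (H : ℤ) {e : Sym2 Pt} (hd : ¬ e.IsDiag) (hp : ∀ p ∈ e, (p.1 + p.2) % 2 = 1) :
    (nlen e : ℝ) ≤ len (e.map (nomi H)) := by
  induction e using Sym2.ind with
  | h u w =>
    obtain ⟨a, b⟩ := u
    obtain ⟨c, d⟩ := w
    have h1 : (a + b) % 2 = 1 := hp _ (Sym2.mem_mk_left _ _)
    have h2 : (c + d) % 2 = 1 := hp _ (Sym2.mem_mk_right _ _)
    simp only [Sym2.mk_isDiag_iff, Prod.mk.injEq] at hd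
    rcases le_total b d with h | h
    · rw [gl_len]
      exact gl_le (gl_main h hd h1 h2)
    · rw [Sym2.eq_swap, gl_len]
      exact gl_le (gl_main h (by omega) h2 h1)

theorem nlen_eq (H : ℤ) {e : Sym2 Pt} (h : IsPath e ∨ IsCSk e ∨ IsLeg e) :
    len (e.map (nomi H)) = nlen e := by
  induction e using Sym2.ind with
  | h u w =>
    obtain ⟨a, b⟩ := u
    obtain ⟨c, d⟩ := w
    rcases le_total b d with h' | h'
    · rw [gl_len]
      exact gl_eq (gl_main2 h' h)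
    · rw [Sym2.eq_swap] at h ⊢
      rw [gl_len]
      exact gl_eq (gl_main2 h' h)

end Pool.Agent.Lib.MP_1a3fd7_lc.Pl
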