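import Pool.Agent.Lib.MP_1a3fd7_lc.Pl.Nom

namespace Pool.Agent.Lib.MP_1a3fd7_lc.Pl

/-- The orientation determinant. -/
def gpD (p q r : Pt) : ℤ := (q.1 - p.1) * (r.2 - p.2) - (q.2 - p.2) * (r.1 - p.1)

theorem gp_end (α β γ : ℤ) {p q r s : Pt} {z : ℝ × ℝ} (h1 : z ∈ segment ℝ (toR p) (toR q))
    (h2 : z ∈ segment ℝ (toR r) (toR s)) (hp : 0 ≤ α * p.1 + β * p.2 + γ)
    (hq : 0 < α * q.1 + β * q.2 + γ) (hr : α * r.1 + β * r.2 + γ ≤ 0)
    (hs : α * s.1 + β * s.2 + γ ≤ 0) : z = toR p ∧ α * p.1 + β * p.2 + γ = 0 := by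
  obtain ⟨a, b, a0, b0, ab, rfl⟩ := h1
  obtain ⟨c, d, c0, d0, cd, e⟩ := h2
  have e1 := congrArg Prod.fst e
  have e2 := congrArg Prod.snd e
  simp only [CP_fst, CP_snd, Prod.fst_add, Prod.snd_add, Prod.smul_fst, Prod.smul_snd,
    smul_eq_mul] at e1 e2
  have hp' : (0 : ℝ) ≤ α * p.1 + β * p.2 + γ := by exact_mod_cast hp
  have hq' : (0 : ℝ) < α * q.1 + β * q.2 + γ := by exact_mod_cast hq
  have hr' : (α * r.1 + β * r.2 + γ : ℝ) ≤ 0 := by exact_mod_cast hr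
  have hs' : (α * s.1 + β * s.2 + γ : ℝ) ≤ 0 := by exact_mod_cast hs
  have k : a * (α * p.1 + β * p.2 + γ) + b * (α * q.1 + β * q.2 + γ) =
      c * (α * r.1 + β * r.2 + γ) + d * (α * s.1 + β * s.2 + γ) := by
    linear_combination -α * e1 - β * e2 + γ * ab - γ * cd
  have k1 := mul_nonneg a0 hp'
  have k2 := mul_nonpos_of_nonneg_of_nonpos c0 hr'
  have k3 := mul_nonpos_of_nonneg_of_nonpos d0 hs'
  obtain rfl : b = 0 := b0.antisymm' (nonpos_of_mul_nonpos_left (by linarith) hq')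
  obtain rfl : a = 1 := by linarith
  refine ⟨by simp, ?_⟩
  have : (α * p.1 + β * p.2 + γ : ℝ) = 0 := by linarith
  exact_mod_cast this

theorem gp_det {p q r s : Pt} (u v : Pt) {z : ℝ × ℝ} (h1 : z ∈ segment ℝ (toR p) (toR q))
    (h2 : z ∈ segment ℝ (toR r) (toR s)) (hp : 0 ≤ gpD u v p) (hq : 0 < gpD u v q)
    (hr : gpD u v r ≤ 0) (hs : gpD u v s ≤ 0) : z = toR p ∧ gpD u v p = 0 := by
  have e : ∀ w, gpD u v w = (u.2 - v.2) * w.1 + (v.1 - u.1) * w.2 + (u.1 * v.2 - u.2 * v.1) :=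
    fun w => by unfold gpD; ring
  simp only [e] at *
  exact gp_end _ _ _ h1 h2 hp hq hr hs

theorem gp_l (u v : Pt) : gpD u v u = 0 := by simp [gpD]

theorem gp_r (u v : Pt) : gpD u v v = 0 := by unfold gpD; ring

theorem gp_sw (u v w : Pt) : gpD v u w = -gpD u v w := by unfold gpD; ring

theorem gp_sw' (u v w : Pt) : gpD u w v = -gpD u v w := by unfold gpD; ring

theorem gp_side {p q r s : Pt} {z : ℝ × ℝ} (h1 : z ∈ segment ℝ (toR p) (toR q))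
    (h2 : z ∈ segment ℝ (toR r) (toR s))
    (h : (0 < gpD r s p ∧ 0 < gpD r s q) ∨ (gpD r s p < 0 ∧ gpD r s q < 0)) : False := by
  rcases h with ⟨a, b⟩ | ⟨a, b⟩
  · exact a.ne' (gp_det r s h1 h2 a.le b (gp_l _ _).le (gp_r _ _).le).2
  · rw [gp_sw, neg_lt_zero] at a b
    exact a.ne' (gp_det s r h1 h2 a.le b (gp_r _ _).le (gp_l _ _).le).2

theorem gp_seg {g : Pt → Pt} {p q : Pt} {z : ℝ × ℝ} (h : z ∈ seg (Sym2.map g s(p, q))) :
    z ∈ segment ℝ (toR (g p)) (toR (g q)) := by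
  obtain ⟨u, w, e, h⟩ := h
  rcases Sym2.eq_iff.1 ((Sym2.map_mk _ _ _).symm.trans e) with ⟨rfl, rfl⟩ | ⟨rfl, rfl⟩
  · exact h
  · rwa [segment_symm]

/-- The orientation of three perturbed points, two of them at the same height. -/
theorem gp_pert {B N : ℕ} (hN : 20 * B ^ 4 ≤ N) {p q r : Pt} (hp : Bx B p) (hq : Bx B q)
    (hr : Bx B r) (h1 : p.2 = q.2) (h2 : p.1 < q.1) :
    (p.2 < r.2 ∨ (r.2 = p.2 ∧ (r.1 < p.1 ∨ q.1 < r.1)) →
      0 < gpD (pert N p) (pert N q) (pert N r)) ∧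
    (r.2 < p.2 ∨ (r.2 = p.2 ∧ p.1 < r.1 ∧ r.1 < q.1) →
      gpD (pert N p) (pert N q) (pert N r) < 0) := by
  obtain ⟨x, y⟩ := p
  obtain ⟨a, rfl⟩ : ∃ a, q = (x + a, y) := ⟨q.1 - x, Prod.ext (by simp) h1.symm⟩
  obtain ⟨c, d, rfl⟩ : ∃ c d, r = (x + c, y + d) := ⟨r.1 - x, r.2 - y, by simp⟩
  simp only [Bx] at *
  have hN' : 20 * (B : ℤ) ^ 4 ≤ N := by exact_mod_cast hN
  have B1 : (1 : ℤ) ≤ B := by omega
  have k : ∀ t : ℤ, -B ≤ t → t ≤ B → |t| ≤ B := fun t u v => abs_le.2 ⟨u, v⟩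
  have k' : ∀ t : ℤ, 0 ≤ t → t ≤ 2 * B → |t| ≤ 2 * B := fun t u v => abs_le.2 ⟨by omega, v⟩
  have d1 := abs_le.1 (gb_abs (k c (by omega) (by omega)) (k (c - a) (by omega) (by omega)))
  have d2 := abs_le.1 (gb_abs (gb_abs (k' (2 * x + a) (by omega) (by omega))
    (k d (by omega) (by omega))) (k' (2 * y + d) (by omega) (by omega)))
  have b2 : (B : ℤ) * B ≤ B ^ 4 :=
    le_of_eq_of_le (by ring) (pow_le_pow_right₀ B1 (show 2 ≤ 4 by norm_num))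
  have b3 : 2 * (B : ℤ) * B * (2 * B) ≤ 4 * B ^ 4 :=
    le_of_eq_of_le (by ring) (mul_le_mul_of_nonneg_left
      (pow_le_pow_right₀ B1 (show 3 ≤ 4 by norm_num)) (by norm_num))
  have b4 : (1 : ℤ) ≤ B ^ 4 := one_le_pow₀ B1
  have e : gpD (pert N (x, y)) (pert N (x + a, y)) (pert N (x + c, y + d)) =
      a * (N * (N * d + 2 * (c * (c - a))) - 2 * ((2 * x + a) * d * (2 * y + d))) := by
    simp only [gpD, pert]
    ring
  have a0 : 0 < a := by omega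
  have N0 : (0 : ℤ) ≤ N := by omega
  rw [e]
  refine ⟨fun h => mul_pos a0 ?_, fun h => mul_neg_of_pos_of_neg a0 ?_⟩
  · have : 1 ≤ N * d + 2 * (c * (c - a)) := by
      rcases h with h | ⟨h, h' | h'⟩
      · have := mul_le_mul_of_nonneg_left (show 1 ≤ d by omega) N0
        omega
      · have := mul_pos_of_neg_of_neg (show c < 0 by omega) (show c - a < 0 by omega)
        rw [show d = 0 by omega]
        omega
      · have := mul_pos (show 0 < c by omega) (show 0 < c - a by omega)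
        rw [show d = 0 by omega]
        omega
    have := mul_le_mul_of_nonneg_left this N0
    omega
  · have : N * d + 2 * (c * (c - a)) ≤ -1 := by
      rcases h with h | ⟨h, h', h''⟩
      · have := mul_le_mul_of_nonneg_left (show d ≤ -1 by omega) N0
        omega
      · have := mul_neg_of_pos_of_neg (show 0 < c by omega) (show c - a < 0 by omega)
        rw [show d = 0 by omega]
        omega
    have := mul_le_mul_of_nonneg_left this N0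
    omega

section

variable {B N : ℕ} {H : ℤ} {S : Finset Pt} (hB : InBox B (S.image (nomi H)))
  (hN : 20 * B ^ 4 ≤ N) {p q r s : Pt} {z : ℝ × ℝ}

include hB hN

theorem gp_row (hp : p ∈ S) (hq : q ∈ S) (hr : r ∈ S) (h1 : p.2 = q.2) (h2 : p.1 < q.1) :
    (r.2 < p.2 ∨ (r.2 = p.2 ∧ (r.1 < p.1 ∨ q.1 < r.1)) →
      0 < gpD (emb N H p) (emb N H q) (emb N H r)) ∧
    (p.2 < r.2 ∨ (r.2 = p.2 ∧ p.1 < r.1 ∧ r.1 < q.1) →
      gpD (emb N H p) (emb N H q) (emb N H r) < 0) := by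
  have k := gp_pert hN (hB _ (Finset.mem_image_of_mem _ hp)) (hB _ (Finset.mem_image_of_mem _ hq))
    (hB _ (Finset.mem_image_of_mem _ hr)) (by simp [nomi, h1]) (by simp only [nomi]; omega)
  refine ⟨fun h => k.1 ?_, fun h => k.2 ?_⟩ <;> simp only [nomi] <;> rcases h with h | ⟨h, h'⟩
  · have := hgt_lt h
    omega
  · rw [h]
    omega
  · have := hgt_lt h
    omega
  · rw [h]
    omega

theorem gp_leg (hp : p ∈ S) (hq : q ∈ S) (hr : r ∈ S) (h1 : q.2 < p.2) :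
    ((r.2 = p.2 ∧ r.1 < p.1) ∨ (r.2 = q.2 ∧ r.1 < q.1) →
      0 < gpD (emb N H p) (emb N H q) (emb N H r)) ∧
    ((r.2 = p.2 ∧ p.1 < r.1) ∨ (r.2 = q.2 ∧ q.1 < r.1) →
      gpD (emb N H p) (emb N H q) (emb N H r) < 0) := by
  refine ⟨?_, ?_⟩ <;> rintro (⟨h, h'⟩ | ⟨h, h'⟩)
  · rw [gp_sw', gp_sw, neg_neg]
    exact (gp_row hB hN hr hp hq h h').1 (by omega)
  · rw [gp_sw, gp_sw', gp_sw, neg_neg, neg_pos]
    exact (gp_row hB hN hr hq hp h h').2 (by omega)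
  · rw [gp_sw', neg_lt_zero]
    exact (gp_row hB hN hp hr hq h.symm h').1 (by omega)
  · rw [gp_sw, gp_sw', neg_neg]
    exact (gp_row hB hN hq hr hp h.symm h').2 (by omega)

theorem gp_high (hp : p ∈ S) (hq : q ∈ S) (h : p.2 < q.2) : (emb N H q).2 < (emb N H p).2 := by
  obtain ⟨a1, a2, -⟩ := hB _ (Finset.mem_image_of_mem _ hq)
  have hN' : 20 * (B : ℤ) ^ 4 ≤ N := by exact_mod_cast hN
  have B1 : (1 : ℤ) ≤ B := by omega
  have b1 := pow_le_pow_right₀ B1 (show 2 ≤ 4 by norm_num)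
  have b2 := pow_le_pow_left₀ a1 a2.le 2
  have b3 := sq_nonneg (nomi H p).1
  have b4 : (1 : ℤ) ≤ B ^ 4 := one_le_pow₀ B1
  have b5 := mul_le_mul_of_nonneg_left (show (nomi H q).2 + 1 ≤ (nomi H p).2 by
    have := hgt_lt h
    simp only [nomi]
    omega) (show (0 : ℤ) ≤ N by omega)
  simp only [emb, pert]
  linarith

theorem gp_far (hp : p ∈ S) (hq : q ∈ S) (hr : r ∈ S) (hs : s ∈ S)
    (h1 : z ∈ segment ℝ (toR (emb N H p)) (toR (emb N H q)))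
    (h2 : z ∈ segment ℝ (toR (emb N H r)) (toR (emb N H s))) (a : q.2 < p.2) (b : s.2 < r.2)
    (c : p.2 ≤ s.2) (d : p ≠ s) : False := by
  rcases c.lt_or_eq with c | c
  · have k1 := gp_high hB hN hq hp a
    have k2 := gp_high hB hN hp hs c
    have k3 := gp_high hB hN hs hr b
    have := (gp_end 0 1 (-(emb N H s).2) h1 h2 (by omega) (by omega) (by omega) (by omega)).2
    omega
  · refine d (emb_injOn hB hN hp hs (gc_toR ?_))
    rw [segment_symm] at h2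
    rcases lt_trichotomy p.1 s.1 with e | e | e
    · have k1 := (gp_row hB hN hp hs hq c e).1 (by omega)
      have k2 := (gp_row hB hN hp hs hr c e).2 (by omega)
      refine (gp_det _ _ h1 h2 (gp_l _ _).ge k1 (gp_r _ _).le k2.le).1.symm.trans ?_
      rw [gp_sw, neg_pos] at k1
      rw [gp_sw, neg_lt_zero] at k2
      exact (gp_det _ _ h2 h1 (gp_l _ _).ge k2 (gp_r _ _).le k1.le).1
    · exact (d (Prod.ext e c)).elim
    · have k1 := (gp_row hB hN hs hp hq c.symm e).1 (by omega)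
      have k2 := (gp_row hB hN hs hp hr c.symm e).2 (by omega)
      refine (gp_det _ _ h1 h2 (gp_r _ _).ge k1 (gp_l _ _).le k2.le).1.symm.trans ?_
      rw [gp_sw, neg_pos] at k1
      rw [gp_sw, neg_lt_zero] at k2
      exact (gp_det _ _ h2 h1 (gp_r _ _).ge k2 (gp_l _ _).le k1.le).1

theorem gp_common (hp : p ∈ S) (hq : q ∈ S) (hr : r ∈ S) (a : p ≠ r) (b : p ≠ q) (c : r ≠ q)
    (h1 : z ∈ segment ℝ (toR (emb N H p)) (toR (emb N H q)))
    (h2 : z ∈ segment ℝ (toR (emb N H p)) (toR (emb N H r))) : z = toR (emb N H p) := by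
  have k : gpD (emb N H p) (emb N H r) (emb N H q) ≠ 0 := sub_ne_zero.2 (gb_det hN
    (hB _ (Finset.mem_image_of_mem _ hp)) (hB _ (Finset.mem_image_of_mem _ hr))
    (hB _ (Finset.mem_image_of_mem _ hq)) ((nomi_inj H).ne a) ((nomi_inj H).ne b)
    ((nomi_inj H).ne c))
  rcases k.lt_or_gt with k | k
  · rw [gp_sw, neg_lt_zero] at k
    exact (gp_det _ _ h1 h2 (gp_r _ _).ge k (gp_r _ _).le (gp_l _ _).le).1
  · exact (gp_det _ _ h1 h2 (gp_l _ _).ge k (gp_l _ _).le (gp_r _ _).le).1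

theorem gp_dis {E : Finset (Sym2 Pt)} (hP : Par S) (h : Pre S E) (he : s(p, q) ∈ E)
    (hf : s(r, s) ∈ E) (h1 : z ∈ segment ℝ (toR (emb N H p)) (toR (emb N H q)))
    (h2 : z ∈ segment ℝ (toR (emb N H r)) (toR (emb N H s))) (n1 : p ≠ r) (n2 : p ≠ s)
    (n3 : q ≠ r) (n4 : q ≠ s) (a : q.2 = p.2 ∧ (q.1 = p.1 + 2 ∨ q.1 = p.1 + 4))
    (b : (s.2 = r.2 ∧ (s.1 = r.1 + 2 ∨ s.1 = r.1 + 4) ∧ p.1 ≤ r.1) ∨
      (s.2 = r.2 - 1 ∧ (s.1 = r.1 - 1 ∨ s.1 = r.1 + 1))) : False := by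
  have hp := (h.edges _ he).2 p (by simp)
  have hq := (h.edges _ he).2 q (by simp)
  have hr := (h.edges _ hf).2 r (by simp)
  have hs := (h.edges _ hf).2 s (by simp)
  have p1 := hP p hp
  have p2 := hP r hr
  have c : q.1 = p.1 + 4 → r.1 = p.1 + 2 → r.2 = p.2 → s.1 = r.1 + 2 := fun e1 e2 e3 => by
    have e : s(p, q) = sk r.1 r.2 := by
      rw [sk, show p = (r.1 - 2, r.2) from Prod.ext (by simp; omega) e3.symm,
        show q = (r.1 + 2, r.2) from Prod.ext (by simp; omega) (by simp; omega)]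
    rw [e] at he
    rcases b with ⟨b1, b2 | b2, -⟩ | ⟨b1, b2 | b2⟩
    · exact b2
    · refine (h.cross1 _ _ he ?_).elim
      rwa [sk, show (r.1 + 2 - 2, r.2) = r from Prod.ext (by simp) rfl,
        show (r.1 + 2 + 2, r.2) = s from Prod.ext (by simp; omega) b1.symm]
    · refine ((h.cross2 _ _ he).1 ?_).elim
      rwa [show (r.1 - 1, r.2 - 1) = s from Prod.ext b2.symm b1.symm]
    · refine ((h.cross2 _ _ he).2 ?_).elim
      rwa [show (r.1 + 1, r.2 - 1) = s from Prod.ext b2.symm b1.symm]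
  simp only [ne_eq, Prod.ext_iff] at n1 n2 n3 n4
  have lt : p.1 < q.1 := by omega
  have key : (s.2 < r.2 ∧ p.2 = s.2 ∧ q.2 = s.2 ∧
      ((s.1 < p.1 ∧ s.1 < q.1) ∨ (p.1 < s.1 ∧ q.1 < s.1))) ∨
      ((r.2 < p.2 ∨ (r.2 = p.2 ∧ (r.1 < p.1 ∨ q.1 < r.1))) ∧
        (s.2 < p.2 ∨ (s.2 = p.2 ∧ (s.1 < p.1 ∨ q.1 < s.1)))) ∨
      ((p.2 < r.2 ∨ (r.2 = p.2 ∧ p.1 < r.1 ∧ r.1 < q.1)) ∧
        (p.2 < s.2 ∨ (s.2 = p.2 ∧ p.1 < s.1 ∧ s.1 < q.1))) := by
    rcases lt_trichotomy r.2 p.2 with d | d | d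
    · exact .inr (.inl ⟨.inl d, .inl (by omega)⟩)
    · have e : r.1 < p.1 ∨ q.1 < r.1 := by omega
      exact .inr (.inl ⟨.inr ⟨d, e⟩, by omega⟩)
    by_cases d' : p.2 < s.2
    · exact .inr (.inr ⟨.inl d, .inl d'⟩)
    by_cases e : p.1 < s.1 ∧ s.1 < q.1
    · exact .inr (.inr ⟨.inl d, .inr ⟨by omega, e⟩⟩)
    · exact .inl ⟨by omega, by omega, by omega, by omega⟩
  have k1 := gp_row hB hN hp hq hr a.1.symm lt
  have k2 := gp_row hB hN hp hq hs a.1.symm lt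
  rcases key with ⟨d, d1, d2, d3⟩ | d | d
  · have k3 := gp_leg hB hN hr hs hp d
    have k4 := gp_leg hB hN hr hs hq d
    exact gp_side h1 h2 (d3.symm.imp (fun e => ⟨k3.1 (.inr ⟨d1, e.1⟩), k4.1 (.inr ⟨d2, e.2⟩)⟩)
      fun e => ⟨k3.2 (.inr ⟨d1, e.1⟩), k4.2 (.inr ⟨d2, e.2⟩)⟩)
  · exact gp_side h2 h1 (.inl ⟨k1.1 d.1, k2.1 d.2⟩)
  · exact gp_side h2 h1 (.inr ⟨k1.2 d.1, k2.2 d.2⟩)

end

theorem gp_form {E : Finset (Sym2 Pt)} (hs : Short E) {e : Sym2 Pt} (he : e ∈ E) :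
    ∃ p q : Pt, e = s(p, q) ∧ ((q.2 = p.2 ∧ (q.1 = p.1 + 2 ∨ q.1 = p.1 + 4)) ∨
      (q.2 = p.2 - 1 ∧ (q.1 = p.1 - 1 ∨ q.1 = p.1 + 1))) := by
  rcases hs e he with ⟨x, y, h⟩ | ⟨x, y, -, h⟩ | ⟨x, y, h | h⟩
  · exact ⟨_, _, h, .inl ⟨rfl, .inl rfl⟩⟩
  · exact ⟨_, _, h, .inl ⟨rfl, .inr (by simp only; omega)⟩⟩
  · exact ⟨_, _, h, .inr ⟨rfl, .inl rfl⟩⟩
  · exact ⟨_, _, h, .inr ⟨rfl, .inr rfl⟩⟩

theorem push_plane {B N : ℕ} {H : ℤ} {S : Finset Pt} {E : Finset (Sym2 Pt)}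
    (hB : InBox B (S.image (nomi H))) (hN : 20 * B ^ 4 ≤ N) (hp : Par S) (h : Pre S E)
    (hs : Short E) : ∀ e ∈ E, ∀ f ∈ E, e ≠ f → ∀ z ∈ seg (e.map (emb N H)),
      z ∈ seg (f.map (emb N H)) → ∃ p ∈ e, p ∈ f ∧ z = toR (emb N H p) := by
  intro e he f hf ne z h1 h2
  obtain ⟨p, q, rfl, a⟩ := gp_form hs he
  obtain ⟨r, s, rfl, b⟩ := gp_form hs hf
  have mp := (h.edges _ he).2 p (by simp)
  have mq := (h.edges _ he).2 q (by simp)
  have mr := (h.edges _ hf).2 r (by simp)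
  have ms := (h.edges _ hf).2 s (by simp)
  have pq : p ≠ q := fun e => by rw [e] at a; omega
  have rs : r ≠ s := fun e => by rw [e] at b; omega
  have g1 := gp_seg h1
  have g2 := gp_seg h2
  have g3 := (segment_symm ℝ _ _).le g1
  have g4 := (segment_symm ℝ _ _).le g2
  by_cases n1 : p = r
  · subst n1
    exact ⟨p, by simp, by simp, gp_common hB hN mp mq ms rs pq (fun e => ne (by rw [e])) g1 g2⟩
  by_cases n2 : p = s
  · subst n2
    exact ⟨p, by simp, by simp, gp_common hB hN mp mq mr n1 pq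
      (fun e => ne (by rw [e, Sym2.eq_swap])) g1 g4⟩
  by_cases n3 : q = r
  · subst n3
    exact ⟨q, by simp, by simp, gp_common hB hN mq mp ms rs pq.symm (Ne.symm n2) g3 g2⟩
  by_cases n4 : q = s
  · subst n4
    exact ⟨q, by simp, by simp, gp_common hB hN mq mp mr n3 pq.symm (Ne.symm n1) g3 g4⟩
  exfalso
  rcases a with a | a <;> rcases b with b | b
  · rcases le_total p.1 r.1 with c | c
    · exact gp_dis hB hN hp h he hf g1 g2 n1 n2 n3 n4 a (.inl ⟨b.1, b.2, c⟩)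
    · exact gp_dis hB hN hp h hf he g2 g1 (Ne.symm n1) (Ne.symm n3) (Ne.symm n2) (Ne.symm n4) b
        (.inl ⟨a.1, a.2, c⟩)
  · exact gp_dis hB hN hp h he hf g1 g2 n1 n2 n3 n4 a (.inr b)
  · exact gp_dis hB hN hp h hf he g2 g1 (Ne.symm n1) (Ne.symm n3) (Ne.symm n2) (Ne.symm n4) b
      (.inr a)
  rcases lt_trichotomy p.2 r.2 with c | c | c
  · exact gp_far hB hN mp mq mr ms g1 g2 (by omega) (by omega) (by omega) n2
  · have p1 := hp p mp
    have p2 := hp r mr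
    simp only [Prod.ext_iff] at n1 n4
    have e : q.2 < p.2 ∧ s.2 = q.2 ∧ ((r.1 < p.1 ∧ s.1 < q.1) ∨ (p.1 < r.1 ∧ q.1 < s.1)) := by
      omega
    have k1 := gp_leg hB hN mp mq mr e.1
    have k2 := gp_leg hB hN mp mq ms e.1
    exact gp_side g2 g1 (e.2.2.imp
      (fun d => ⟨k1.1 (.inl ⟨c.symm, d.1⟩), k2.1 (.inr ⟨e.2.1, d.2⟩)⟩)
      fun d => ⟨k1.2 (.inl ⟨c.symm, d.1⟩), k2.2 (.inr ⟨e.2.1, d.2⟩)⟩)
  · exact gp_far hB hN mr ms mp mq g2 g1 (by omega) (by omega) (by omega) (Ne.symm n3)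

end Pool.Agent.Lib.MP_1a3fd7_lc.Pl
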