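import Pool.Agent.Lib.MP_1a3fd7_lc.Pl.Nom

/-! Two kinds of crossings in the drawing. -/

namespace Pool.Agent.Lib.MP_1a3fd7_lc.Pl

/-- Twice the oriented area of a triangle. -/
def gxDet (p q r : Pt) : ℤ := (q.1 - p.1) * (r.2 - p.2) - (q.2 - p.2) * (r.1 - p.1)

theorem gx_cross {A B C D : Pt} (ha : 0 < gxDet C D A) (hb : gxDet C D B < 0)
    (hc : gxDet A B C < 0) (hd : 0 < gxDet A B D) : ∃ z ∈ seg s(A, B), z ∈ seg s(C, D) := by
  rw [gp_seg, gp_seg]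
  have e0 : gxDet A B D - gxDet A B C = gxDet C D A - gxDet C D B := by
    unfold gxDet
    ring
  have e1 : gxDet A B D * C.1 - gxDet A B C * D.1 = gxDet C D A * B.1 - gxDet C D B * A.1 := by
    unfold gxDet
    ring
  have e2 : gxDet A B D * C.2 - gxDet A B C * D.2 = gxDet C D A * B.2 - gxDet C D B * A.2 := by
    unfold gxDet
    ring
  generalize gxDet C D A = a at *
  generalize gxDet C D B = b at *
  generalize gxDet A B C = c at *
  generalize gxDet A B D = d at *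
  have ha' : (0 : ℝ) < a := by exact_mod_cast ha
  have hb' : (b : ℝ) < 0 := by exact_mod_cast hb
  have hc' : (c : ℝ) < 0 := by exact_mod_cast hc
  have hd' : (0 : ℝ) < d := by exact_mod_cast hd
  have f0 : (d : ℝ) - c = a - b := by exact_mod_cast e0
  have f1 : (d : ℝ) * C.1 - c * D.1 = a * B.1 - b * A.1 := by exact_mod_cast e1
  have f2 : (d : ℝ) * C.2 - c * D.2 = a * B.2 - b * A.2 := by exact_mod_cast e2
  obtain ⟨k, k0, k1⟩ : ∃ k : ℝ, 0 < k ∧ k * (a - b) = 1 :=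
    ⟨(a - b)⁻¹, inv_pos.2 (by linarith), inv_mul_cancel₀ (by linarith)⟩
  refine ⟨_, ⟨k * -b, k * a, (mul_pos k0 (by linarith)).le, (mul_pos k0 ha').le,
    by linear_combination k1, rfl⟩, k * d, k * -c, (mul_pos k0 hd').le,
    (mul_pos k0 (by linarith)).le, by linear_combination k1 + k * f0, Prod.ext ?_ ?_⟩
  · simp only [toR, Prod.fst_add, Prod.smul_fst, smul_eq_mul]
    linear_combination k * f1
  · simp only [toR, Prod.snd_add, Prod.smul_snd, smul_eq_mul]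
    linear_combination k * f2

theorem cross_sk {B N : ℕ} {H : ℤ} (hN : 20 * B ^ 4 ≤ N) {x y : ℤ}
    (h1 : Bx B (nomi H (x - 2, y))) (h2 : Bx B (nomi H (x + 4, y))) :
    ∃ z ∈ seg ((sk x y).map (emb N H)), z ∈ seg ((sk (x + 2) y).map (emb N H)) := by
  have hB := pow_pos (gc_pos h1) 4
  have _ := h2
  have N0 : (0 : ℤ) < N := by exact_mod_cast (show 0 < N by omega)
  simp only [sk, Sym2.map_mk]
  refine gx_cross ?_ ?_ ?_ ?_ <;> simp only [gxDet, emb, pert, nomi] <;> linarith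

theorem cross_leg {B N : ℕ} {H : ℤ} (hN : 20 * B ^ 4 ≤ N) {x y d : ℤ} (hd : d = 1 ∨ d = -1)
    (h1 : Bx B (nomi H (x - 2, y))) (h2 : Bx B (nomi H (x + 2, y)))
    (h3 : Bx B (nomi H (x + d, y - 1))) :
    ∃ z ∈ seg ((sk x y).map (emb N H)),
      z ∈ seg (s((x, y), (x + d, y - 1)).map (emb N H)) := by
  have hg := hgt_lt (show y - 1 < y by omega)
  have hN' : 20 * (B : ℤ) ^ 4 ≤ N := by exact_mod_cast hN
  simp only [Bx, nomi] at h1 h2 h3
  simp only [sk, Sym2.map_mk, emb, nomi]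
  generalize (B : ℤ) = b at *
  generalize (N : ℤ) = n at *
  obtain ⟨Y, hY⟩ : ∃ Y, Y = H - hgt y := ⟨_, rfl⟩
  obtain ⟨Z, hZ⟩ : ∃ Z, Z = H - hgt (y - 1) := ⟨_, rfl⟩
  rw [← hY] at h1 h2 ⊢
  rw [← hZ] at h3 ⊢
  have g : 12 ≤ Z - Y := by linarith
  obtain ⟨x0, -, Y0, -⟩ := h1
  obtain ⟨-, x1, -, -⟩ := h2
  obtain ⟨-, -, -, Z1⟩ := h3
  have b1 : 10 ≤ b := by linarith
  have b2 : b ^ 2 ≤ b ^ 3 := pow_le_pow_right₀ (by linarith) (by norm_num)
  have b3 : b ^ 3 ≤ b ^ 4 := pow_le_pow_right₀ (by linarith) (by norm_num)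
  have b4 : 10 ^ 2 ≤ b ^ 2 := pow_le_pow_left₀ (by norm_num) b1 2
  have E0 : Y ^ 2 ≤ Z ^ 2 := pow_le_pow_left₀ Y0 (by linarith) 2
  have E1 : Z ^ 2 ≤ b ^ 2 := pow_le_pow_left₀ (by linarith) Z1.le 2
  have E2 : 0 ≤ (Z ^ 2 - Y ^ 2) * x := mul_nonneg (by linarith) (by linarith)
  have E3 : (Z ^ 2 - Y ^ 2) * x ≤ b ^ 2 * b :=
    mul_le_mul (by linarith [sq_nonneg Y]) (by linarith) (by linarith) (sq_nonneg b)
  have E4 := sq_nonneg Y
  have n1 : 100 * 12 ≤ n * (Z - Y) := mul_le_mul (by linarith) g (by norm_num) (by linarith)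
  have n2 := mul_le_mul_of_nonneg_left n1 (show 0 ≤ n by linarith)
  rcases hd with rfl | rfl <;> refine gx_cross ?_ ?_ ?_ ?_ <;> simp only [gxDet, pert] <;>
    linarith

end Pool.Agent.Lib.MP_1a3fd7_lc.Pl
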