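import Pool.Agent.Lib.MP_1a3fd7_lc.Pl.GL
import Pool.Agent.Lib.MP_1a3fd7_lc.Pl.GX
import Pool.Agent.Lib.MP_1a3fd7_lc.Pl.GP

namespace Pool.Agent.Lib.MP_1a3fd7_lc.Pl

theorem gt_card {P : Pt → Pt} {S Y : Finset Pt} {G A C : Finset (Sym2 Pt)} (i1 : Set.InjOn P S)
    (g1 : ∀ e ∈ G, ∀ p ∈ e, p ∈ S) (hY : Y ⊆ S)
    (hA : ∀ e, e ∈ A ↔ e ∈ G.image (Sym2.map P) ∧ ∀ p ∈ e, p ∈ Y.image P)
    (hC : ∀ e, e ∈ C ↔ e ∈ G ∧ ∀ p ∈ e, p ∈ Y) : A.card = C.card := by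
  have e : A = C.image (Sym2.map P) := by
    ext e
    rw [hA, Finset.mem_image, Finset.mem_image]
    constructor
    · rintro ⟨⟨f, hf, rfl⟩, a2⟩
      refine ⟨f, (hC f).2 ⟨hf, fun p hp => ?_⟩, rfl⟩
      obtain ⟨q, hq, k⟩ := Finset.mem_image.1 (a2 _ (Sym2.mem_map.2 ⟨p, hp, rfl⟩))
      rwa [← i1 (hY hq) (g1 f hf p hp) k]
    · rintro ⟨f, hf, rfl⟩
      obtain ⟨a1, a2⟩ := (hC f).1 hf
      refine ⟨⟨f, a1, rfl⟩, fun p hp => ?_⟩
      obtain ⟨q, hq, rfl⟩ := Sym2.mem_map.1 hp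
      exact Finset.mem_image_of_mem _ (a2 q hq)
  rw [e, Finset.card_image_of_injOn fun e he f hf =>
    gc_map i1 (g1 e ((hC e).1 he).1) (g1 f ((hC f).1 hf).1)]

theorem gt_cross {P : Pt → Pt} {S : Finset Pt} {G : Finset (Sym2 Pt)} (i1 : Set.InjOn P S)
    (g1 : ∀ e ∈ G, ∀ p ∈ e, p ∈ S) (h : PlaneLaman (S.image P) (G.image (Sym2.map P)))
    {e f : Sym2 Pt} (he : e ∈ G) (hf : f ∈ G) (hd : ∀ p ∈ e, p ∉ f) :
    ¬ ∃ z ∈ seg (e.map P), z ∈ seg (f.map P) := by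
  rintro ⟨z, z1, z2⟩
  obtain ⟨p, p1, p2, -⟩ := h.plane _ (Finset.mem_image_of_mem _ he) _
    (Finset.mem_image_of_mem _ hf) (fun k => hd _ e.out_fst_mem
      (gc_map i1 (g1 e he) (g1 f hf) k ▸ e.out_fst_mem)) z z1 z2
  obtain ⟨q, hq, rfl⟩ := Sym2.mem_map.1 p1
  obtain ⟨r, hr, k⟩ := Sym2.mem_map.1 p2
  exact hd q hq (i1 (g1 f hf r hr) (g1 e he q hq) k ▸ hr)

theorem gt_len {B N : ℕ} {H : ℤ} {S : Finset Pt} (hB : InBox B (S.image (nomi H)))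
    (hN : 20 * B ^ 4 ≤ N) {e : Sym2 Pt} (he : ∀ p ∈ e, p ∈ S) : (0 : ℝ) ≤ (N : ℝ) - 4 * B ∧
    ((N : ℝ) - 4 * B) * len (e.map (nomi H)) ≤ len (e.map (emb N H)) ∧
      len (e.map (emb N H)) ≤ (N + 4 * B) * len (e.map (nomi H)) := by
  have n2 := (gc_num (gc_pos (hB _ (Finset.mem_image_of_mem _ (he _ e.out_fst_mem)))) hN).2
  have k := gp_len n2 (e.map (nomi H)) fun p hp => by
    obtain ⟨q, hq, rfl⟩ := Sym2.mem_map.1 hp
    exact hB _ (Finset.mem_image_of_mem _ (he q hq))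
  rw [Sym2.map_map] at k
  have : (4 * B : ℝ) ≤ N := by exact_mod_cast (show 4 * B ≤ N by omega)
  exact ⟨sub_nonneg.2 this, k⟩

theorem pull {B N : ℕ} {H : ℤ} {S : Finset Pt} {E' : Finset (Sym2 Pt)}
    (hB : InBox B (S.image (nomi H))) (hN : 20 * B ^ 4 ≤ N) (hp : Par S)
    (h : PlaneLaman (S.image (emb N H)) E') :
    ∃ E, Pre S E ∧ ((N : ℝ) - 4 * B) * (∑ e ∈ E, nlen e : ℕ) ≤ weight E' := by
  classical
  have i1 := emb_injOn hB hN
  obtain ⟨G, g1, rfl⟩ : ∃ G : Finset (Sym2 Pt), (∀ e ∈ G, ∀ p ∈ e, p ∈ S) ∧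
      E' = G.image (Sym2.map (emb N H)) := by
    refine ⟨S.sym2.filter fun e => e.map (emb N H) ∈ E', fun e he =>
      Finset.mem_sym2_iff.1 (Finset.mem_filter.1 he).1, Finset.ext fun e => ⟨fun he => ?_, ?_⟩⟩
    · induction e using Sym2.ind with
      | h u w =>
        obtain ⟨u, hu, rfl⟩ := Finset.mem_image.1 ((h.edges _ he).2 u (Sym2.mem_mk_left _ _))
        obtain ⟨w, hw, rfl⟩ := Finset.mem_image.1 ((h.edges _ he).2 w (Sym2.mem_mk_right _ _))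
        exact Finset.mem_image.2 ⟨s(u, w), Finset.mem_filter.2
          ⟨Finset.mk_mem_sym2_iff.2 ⟨hu, hw⟩, he⟩, rfl⟩
    · intro he
      obtain ⟨f, hf, rfl⟩ := Finset.mem_image.1 he
      exact (Finset.mem_filter.1 hf).2
  have i2 : Set.InjOn (Sym2.map (emb N H)) G := fun e he f hf => gc_map i1 (g1 e he) (g1 f hf)
  have hd : ∀ e ∈ G, ¬ e.IsDiag := fun e he k =>
    (h.edges _ (Finset.mem_image_of_mem _ he)).1 k.map
  have bx : ∀ e ∈ G, ∀ p ∈ e, Bx B (nomi H p) := fun e he p hp =>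
    hB _ (Finset.mem_image_of_mem _ (g1 e he p hp))
  refine ⟨G, ⟨fun e he => ⟨hd e he, g1 e he⟩, ?_, fun X hX h2 => ?_, fun x y h1 h2 => ?_,
    fun x y h1 => ?_⟩, ?_⟩
  · rw [← Finset.card_image_of_injOn i2, h.count, Finset.card_image_of_injOn i1]
  · have k := h.sparse (X.image (emb N H)) (Finset.image_subset_image hX)
    rw [Finset.card_image_of_injOn (i1.mono hX)] at k
    refine le_of_eq_of_le (congrArg (· + 3) ?_) (k h2)
    exact (gt_card i1 g1 hX (fun _ => Finset.mem_filter) fun _ => Finset.mem_filter).symm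
  · refine gt_cross i1 g1 h h1 h2 (fun p a b => ?_) (cross_sk hN (bx _ h1 _ (by simp [sk]))
      (bx _ h2 _ (Sym2.mem_iff.2 (Or.inr (Prod.ext (by simp only; ring) rfl)))))
    simp only [sk, Sym2.mem_iff, Prod.ext_iff] at a b
    omega
  · have key : ∀ d : ℤ, d = 1 ∨ d = -1 → s((x, y), (x + d, y - 1)) ∉ G := fun d hd h2 => by
      refine gt_cross i1 g1 h h1 h2 (fun p a b => ?_) (cross_leg hN hd (bx _ h1 _ (by simp [sk]))
        (bx _ h1 _ (by simp [sk])) (bx _ h2 _ (Sym2.mem_mk_right _ _)))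
      simp only [sk, Sym2.mem_iff, Prod.ext_iff] at a b
      omega
    exact ⟨key (-1) (Or.inr rfl), key 1 (Or.inl rfl)⟩
  · rw [weight, Nat.cast_sum, Finset.mul_sum, Finset.sum_image i2]
    refine Finset.sum_le_sum fun e he => ?_
    obtain ⟨k0, k1, -⟩ := gt_len hB hN (g1 e he)
    exact (mul_le_mul_of_nonneg_left (nlen_le H (hd e he) fun p a => hp p (g1 e he p a)) k0).trans k1

theorem push {B N : ℕ} {H : ℤ} {S : Finset Pt} {E : Finset (Sym2 Pt)}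
    (hB : InBox B (S.image (nomi H))) (hN : 20 * B ^ 4 ≤ N) (hp : Par S) (h : Pre S E)
    (hs : Short E) : ∃ E', PlaneLaman (S.image (emb N H)) E' ∧
      weight E' ≤ ((N : ℝ) + 4 * B) * (∑ e ∈ E, nlen e : ℕ) := by
  classical
  have i1 := emb_injOn hB hN
  have g1 : ∀ e ∈ E, ∀ p ∈ e, p ∈ S := fun e he => (h.edges e he).2
  have i2 : Set.InjOn (Sym2.map (emb N H)) E := fun e he f hf => gc_map i1 (g1 e he) (g1 f hf)
  refine ⟨E.image (Sym2.map (emb N H)), ⟨?_, ?_, ?_, fun X hX h2 => ?_⟩, ?_⟩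
  · simp only [Finset.forall_mem_image]
    intro e he
    refine ⟨fun k => (h.edges e he).1 ?_, fun p hp => ?_⟩
    · induction e using Sym2.ind with
      | h u w =>
        rw [Sym2.map_mk, Sym2.mk_isDiag_iff] at k
        exact Sym2.mk_isDiag_iff.2 (i1 (g1 _ he u (Sym2.mem_mk_left _ _))
          (g1 _ he w (Sym2.mem_mk_right _ _)) k)
    · obtain ⟨q, hq, rfl⟩ := Sym2.mem_map.1 hp
      exact Finset.mem_image_of_mem _ (g1 e he q hq)
  · simp only [Finset.forall_mem_image]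
    intro e he f hf hne z h1 h2
    obtain ⟨p, p1, p2, rfl⟩ := push_plane hB hN hp h hs e he f hf (fun k => hne (by rw [k])) z h1 h2
    exact ⟨_, Sym2.mem_map.2 ⟨p, p1, rfl⟩, Sym2.mem_map.2 ⟨p, p2, rfl⟩, rfl⟩
  · rw [Finset.card_image_of_injOn i1, Finset.card_image_of_injOn i2, h.count]
  · obtain ⟨Y, hY, rfl⟩ := Finset.subset_image_iff.1 hX
    rw [Finset.card_image_of_injOn (i1.mono hY)] at h2 ⊢
    refine le_of_eq_of_le (congrArg (· + 3) ?_) (h.sparse Y hY h2)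
    exact gt_card i1 g1 hY (fun _ => Finset.mem_filter) fun _ => Finset.mem_filter
  · rw [weight, Nat.cast_sum, Finset.mul_sum, Finset.sum_image i2]
    refine Finset.sum_le_sum fun e he => ?_
    rw [← nlen_eq H (hs e he)]
    exact (gt_len hB hN (g1 e he)).2.2

end Pool.Agent.Lib.MP_1a3fd7_lc.Pl
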