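import Pool.Agent.Lib.MP_1a3fd7_lc.Pl.Nom

namespace Pool.Agent.Lib.MP_1a3fd7_lc.Pl

/-- The point lies in a strip row. -/
abbrev la_st (p : Pt) : Prop := p.2 % 4 = 1 ∨ p.2 % 4 = 2

/-- The piece of a strip point. -/
def la_ix (p : Pt) : ℤ × ℤ := (p.2 / 4, (p.1 - 1) / 16)

theorem la_zx (c j : ℕ) : zx c j = 16 * j + 16 ∨ zx c j = 16 * j + 14 := by
  unfold zx
  split_ifs
  · exact Or.inl rfl
  · exact Or.inr rfl

section

variable {T c W : ℕ} {val : ℕ → ℕ → Bool}

theorem la_zone {p : Pt} (hp : InS T c W val p) (hs : la_st p) {j : ℕ} (hj : j < W) :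
    p.1 < zx c j ∨ zx c j + 3 < p.1 := by
  obtain ⟨-, -, -, -, h5, -, h7, h8⟩ := hp
  have hz := la_zx c j
  rcases hs with hs | hs
  · have := h7 hs j hj
    omega
  · have := h8 hs j hj
    omega

theorem la_same {p q : Pt} (hp : InS T c W val p) (hq : InS T c W val q) (sp : la_st p)
    (sq : la_st q) (hy : p.2 / 4 = q.2 / 4) (h1 : p.1 ≤ q.1) (h2 : q.1 ≤ p.1 + 4) :
    la_ix p = la_ix q := by
  refine Prod.ext hy ?_
  show (p.1 - 1) / 16 = (q.1 - 1) / 16
  by_contra hn
  have a1 := hp.2.2.1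
  have a2 := hq.2.2.2.1
  obtain ⟨n, hn'⟩ := Int.eq_ofNat_of_zero_le (show 0 ≤ (p.1 - 1) / 16 by omega)
  have hW : n < W := by omega
  have b1 := la_zone hp sp hW
  have b2 := la_zone hq sq hW
  have b3 := la_zx c n
  omega

theorem la_hi (T c W : ℕ) (val : ℕ → ℕ → Bool) (i : ℤ × ℤ) : ∃ hi : ℤ, ∀ p : Pt,
    InS T c W val p → la_st p → la_ix p = i → p.1 ≤ hi ∧ ∀ q : Pt, p.1 < q.1 → q.1 ≤ hi →
      q.2 / 4 = p.2 / 4 → la_st q → (q.1 + q.2) % 2 = 1 → InS T c W val q := by
  refine ⟨if i.2.toNat < W then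
    (if val i.1.toNat i.2.toNat = true then zx c i.2.toNat - 1 else zx c i.2.toNat - 2)
    else 16 * W + 13, ?_⟩
  rintro p hp sp rfl
  have a0 := hp.1
  have a0' := hp.2.1
  have a1 := hp.2.2.1
  have a2 := hp.2.2.2.1
  have a3 := hp.2.2.2.2.1
  obtain ⟨n, hn⟩ := Int.eq_ofNat_of_zero_le (show 0 ≤ (p.1 - 1) / 16 by omega)
  have e1 : (la_ix p).2.toNat = n := by
    show ((p.1 - 1) / 16).toNat = n
    omega
  have e2 : (la_ix p).1.toNat = (p.2 / 4).toNat := rfl
  rw [e1, e2]
  have b3 := la_zx c n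
  constructor
  · split_ifs with h1 h2
    · have := la_zone hp sp h1
      omega
    · have b1 := la_zone hp sp h1
      by_contra hc
      exact h2 ((hp.2.2.2.2.2.2.2 (by omega) n h1).2.2 (by omega))
    · exact a2
  · intro q h1 h2 h3 sq h4
    have key : ∀ j < W, (q.1 < zx c j ∨ zx c j + 3 < q.1) ∧
        (q.1 = zx c j - 1 → val (q.2 / 4).toNat j = true) := by
      intro j hj
      have b1 := la_zone hp sp hj
      have b2 := la_zx c j
      rcases lt_trichotomy j n with hlt | rfl | hlt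
      · exact ⟨by omega, fun hh => by omega⟩
      · rw [if_pos hj] at h2
        rw [h3]
        split_ifs at h2 with h5
        · exact ⟨by omega, fun _ => h5⟩
        · exact ⟨by omega, fun hh => by omega⟩
      · rw [if_pos (by omega)] at h2
        split_ifs at h2 with h5
        · exact ⟨by omega, fun hh => by omega⟩
        · exact ⟨by omega, fun hh => by omega⟩
    refine ⟨by omega, by omega, by omega, ?_, h4, fun hh => by omega, fun _ j hj => ?_,
      fun _ j hj => ?_⟩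
    · split_ifs at h2 <;> omega
    · have := (key j hj).1
      omega
    · have := (key j hj).1
      exact ⟨by omega, by omega, (key j hj).2⟩

open Classical in
theorem la_piece {S : Finset Pt} {E : Finset (Sym2 Pt)}
    (hS : ∀ p, p ∈ S ↔ InS T c W val p) (h : Pre S E) (i : ℤ × ℤ) :
    (E.filter fun e => ∀ p ∈ e, p ∈ S.filter fun p => la_st p ∧ la_ix p = i).card ≤
      (((S.filter fun p => (p.1 + 2, p.2) ∈ S).filter la_st).filter fun p => la_ix p = i).card +
      ((S.filter fun p => (p.2 % 4 = 1 ∧ (p.1 + 1, p.2 + 1) ∈ S) ∨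
        (p.2 % 4 = 2 ∧ (p.1 + 1, p.2 - 1) ∈ S)).filter fun p => la_ix p = i).card := by
  obtain ⟨hi, hhi⟩ := la_hi T c W val i
  generalize hP : (S.filter fun p => la_st p ∧ la_ix p = i) = P
  have mP : ∀ p, p ∈ P ↔ p ∈ S ∧ la_st p ∧ la_ix p = i := fun p => by
    rw [← hP, Finset.mem_filter]
  have inj : ∀ p ∈ P, ∀ q ∈ P, p.1 = q.1 → p = q := by
    intro p hp q hq e
    obtain ⟨p1, p2, p3⟩ := (mP p).1 hp
    obtain ⟨q1, q2, q3⟩ := (mP q).1 hq
    have a := ((hS p).1 p1).2.2.2.2.1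
    have b := ((hS q).1 q1).2.2.2.2.1
    have d : p.2 / 4 = q.2 / 4 := congrArg Prod.fst (p3.trans q3.symm)
    exact Prod.ext e (by omega)
  by_cases h2 : 2 ≤ P.card
  · have hs := h.sparse P (fun p hp => ((mP p).1 hp).1) h2
    have c1 := Finset.card_filter_add_card_filter_not (s := P) (fun p => (p.1 + 2, p.2) ∈ S)
    have c2 := Finset.card_filter_add_card_filter_not (s := P)
      (fun p => (p.2 % 4 = 1 ∧ (p.1 + 1, p.2 + 1) ∈ S) ∨ (p.2 % 4 = 2 ∧ (p.1 + 1, p.2 - 1) ∈ S))
    have d1 : (P.filter fun p => ¬ (p.1 + 2, p.2) ∈ S).card ≤ ({hi - 1, hi} : Finset ℤ).card := by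
      apply Finset.card_le_card_of_injOn Prod.fst
      · intro p hp
        obtain ⟨p0, hn⟩ := Finset.mem_filter.1 (Finset.mem_coe.1 hp)
        obtain ⟨p1, p2, p3⟩ := (mP p).1 p0
        have a := ((hS p).1 p1).2.2.2.2.1
        obtain ⟨b1, b2⟩ := hhi p ((hS p).1 p1) p2 p3
        have : ¬ p.1 + 2 ≤ hi := fun hh => hn ((hS _).2
          (b2 (p.1 + 2, p.2) (by simp) hh rfl p2 (by show (p.1 + 2 + p.2) % 2 = 1; omega)))
        simp only [Finset.coe_insert, Finset.coe_singleton, Set.mem_insert_iff,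
          Set.mem_singleton_iff]
        omega
      · intro p hp q hq e
        exact inj p (Finset.mem_filter.1 (Finset.mem_coe.1 hp)).1 q
          (Finset.mem_filter.1 (Finset.mem_coe.1 hq)).1 e
    have d2 : (P.filter fun p => ¬ ((p.2 % 4 = 1 ∧ (p.1 + 1, p.2 + 1) ∈ S) ∨
        (p.2 % 4 = 2 ∧ (p.1 + 1, p.2 - 1) ∈ S))).card ≤ ({hi} : Finset ℤ).card := by
      apply Finset.card_le_card_of_injOn Prod.fst
      · intro p hp
        obtain ⟨p0, hn⟩ := Finset.mem_filter.1 (Finset.mem_coe.1 hp)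
        obtain ⟨p1, p2, p3⟩ := (mP p).1 p0
        have a := ((hS p).1 p1).2.2.2.2.1
        obtain ⟨b1, b2⟩ := hhi p ((hS p).1 p1) p2 p3
        have : ¬ p.1 + 1 ≤ hi := fun hh => hn (by
          rcases p2 with p2 | p2
          · refine Or.inl ⟨p2, (hS _).2 (b2 (p.1 + 1, p.2 + 1) (by simp) hh ?_ (Or.inr ?_) ?_)⟩
            · show (p.2 + 1) / 4 = p.2 / 4
              omega
            · show (p.2 + 1) % 4 = 2
              omega
            · show (p.1 + 1 + (p.2 + 1)) % 2 = 1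
              omega
          · refine Or.inr ⟨p2, (hS _).2 (b2 (p.1 + 1, p.2 - 1) (by simp) hh ?_ (Or.inl ?_) ?_)⟩
            · show (p.2 - 1) / 4 = p.2 / 4
              omega
            · show (p.2 - 1) % 4 = 1
              omega
            · show (p.1 + 1 + (p.2 - 1)) % 2 = 1
              omega)
        simp only [Finset.coe_singleton, Set.mem_singleton_iff]
        omega
      · intro p hp q hq e
        exact inj p (Finset.mem_filter.1 (Finset.mem_coe.1 hp)).1 q
          (Finset.mem_filter.1 (Finset.mem_coe.1 hq)).1 e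
    have d3 : ({hi - 1, hi} : Finset ℤ).card ≤ 2 := Finset.card_le_two
    rw [Finset.card_singleton] at d2
    have f1 : (P.filter fun p => (p.1 + 2, p.2) ∈ S).card ≤
        (((S.filter fun p => (p.1 + 2, p.2) ∈ S).filter la_st).filter
          fun p => la_ix p = i).card := by
      apply Finset.card_le_card
      intro p hp
      obtain ⟨p0, hn⟩ := Finset.mem_filter.1 hp
      obtain ⟨p1, p2, p3⟩ := (mP p).1 p0
      exact Finset.mem_filter.2 ⟨Finset.mem_filter.2 ⟨Finset.mem_filter.2 ⟨p1, hn⟩, p2⟩, p3⟩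
    have f2 : (P.filter fun p => (p.2 % 4 = 1 ∧ (p.1 + 1, p.2 + 1) ∈ S) ∨
        (p.2 % 4 = 2 ∧ (p.1 + 1, p.2 - 1) ∈ S)).card ≤
        ((S.filter fun p => (p.2 % 4 = 1 ∧ (p.1 + 1, p.2 + 1) ∈ S) ∨
          (p.2 % 4 = 2 ∧ (p.1 + 1, p.2 - 1) ∈ S)).filter fun p => la_ix p = i).card := by
      apply Finset.card_le_card
      intro p hp
      obtain ⟨p0, hn⟩ := Finset.mem_filter.1 hp
      obtain ⟨p1, p2, p3⟩ := (mP p).1 p0
      exact Finset.mem_filter.2 ⟨Finset.mem_filter.2 ⟨p1, hn⟩, p3⟩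
    omega
  · have : (E.filter fun e => ∀ p ∈ e, p ∈ P) = ∅ := by
      apply Finset.filter_eq_empty_iff.2
      intro e he hin
      induction e using Sym2.ind with
      | _ a b =>
        apply h2
        have hab : a ≠ b := fun hh => (h.edges _ he).1 (Sym2.mk_isDiag_iff.2 hh)
        exact Finset.one_lt_card.2 ⟨a, hin a (Sym2.mem_mk_left a b), b,
          hin b (Sym2.mem_mk_right a b), hab⟩
    rw [this]
    exact Nat.zero_le _

open Classical in
theorem la_mem {S : Finset Pt} {E : Finset (Sym2 Pt)}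
    (hS : ∀ p, p ∈ S ↔ InS T c W val p) (h : Pre S E) {p q : Pt} (he : s(p, q) ∈ E)
    (sp : la_st p) (sq : la_st q) (hy : p.2 / 4 = q.2 / 4) (h1 : p.1 ≤ q.1 + 4)
    (h2 : q.1 ≤ p.1 + 4) : s(p, q) ∈ (S.image la_ix).biUnion fun i =>
      E.filter fun e => ∀ p ∈ e, p ∈ S.filter fun p => la_st p ∧ la_ix p = i := by
  have hp := (h.edges _ he).2 p (Sym2.mem_mk_left p q)
  have hq := (h.edges _ he).2 q (Sym2.mem_mk_right p q)
  have e : la_ix p = la_ix q := by
    rcases le_total p.1 q.1 with hh | hh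
    · exact la_same ((hS p).1 hp) ((hS q).1 hq) sp sq hy hh h2
    · exact (la_same ((hS q).1 hq) ((hS p).1 hp) sq sp hy.symm hh h1).symm
  refine Finset.mem_biUnion.2 ⟨la_ix p, Finset.mem_image_of_mem _ hp,
    Finset.mem_filter.2 ⟨he, fun r hr => ?_⟩⟩
  rcases Sym2.mem_iff.1 hr with rfl | rfl
  · exact Finset.mem_filter.2 ⟨hp, sp, rfl⟩
  · exact Finset.mem_filter.2 ⟨hq, sq, e.symm⟩

end

theorem la_d1 {e : Sym2 Pt} (h1 : IsLong e ∨ (IsSk e ∧ ¬ IsCSk e)) (h2 : IsPath e) : False := by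
  obtain ⟨x, y, rfl⟩ := h2
  rcases h1 with ⟨u, v, -, h | h⟩ | ⟨⟨u, v, h⟩, -⟩ <;>
    simp only [sk, Sym2.eq_iff, Prod.mk.injEq] at h <;> omega

theorem la_d2 {e : Sym2 Pt} (h1 : (IsLong e ∨ (IsSk e ∧ ¬ IsCSk e)) ∨ IsPath e)
    (h2 : IsSLeg e) : False := by
  obtain ⟨x, y, -, rfl | rfl⟩ := h2 <;>
    rcases h1 with (⟨u, v, -, h | h⟩ | ⟨⟨u, v, h⟩, -⟩) | ⟨u, v, h⟩ <;>
    simp only [sk, Sym2.eq_iff, Prod.mk.injEq] at h <;> omega

open Classical in
theorem strip_le {T c W : ℕ} {val : ℕ → ℕ → Bool} {S : Finset Pt} {E : Finset (Sym2 Pt)}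
    (hS : ∀ p, p ∈ S ↔ InS T c W val p) (h : Pre S E) :
    (E.filter fun e => IsLong e ∨ (IsSk e ∧ ¬ IsCSk e)).card + (E.filter IsPath).card +
      (E.filter IsSLeg).card ≤ pathN S + legN S := by
  rw [← Finset.card_union_of_disjoint (Finset.disjoint_filter.2 fun e _ h1 h2 => la_d1 h1 h2),
    ← Finset.filter_or,
    ← Finset.card_union_of_disjoint (Finset.disjoint_filter.2 fun e _ h1 h2 => la_d2 h1 h2),
    ← Finset.filter_or]
  have sub : (E.filter fun e => ((IsLong e ∨ (IsSk e ∧ ¬ IsCSk e)) ∨ IsPath e) ∨ IsSLeg e) ⊆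
      ((S.image la_ix).biUnion fun i =>
        E.filter fun e => ∀ p ∈ e, p ∈ S.filter fun p => la_st p ∧ la_ix p = i) ∪
      ((S.filter fun p => (p.1 + 2, p.2) ∈ S).filter fun p => ¬ la_st p).image
        fun p => s(p, (p.1 + 2, p.2)) := by
    intro e he
    obtain ⟨he, hc⟩ := Finset.mem_filter.1 he
    rcases hc with ((⟨x, y, hy, rfl | rfl⟩ | ⟨⟨x, y, rfl⟩, hn⟩) | ⟨x, y, rfl⟩) |
      ⟨x, y, hy, rfl | rfl⟩
    · exact Finset.mem_union_left _ (la_mem hS h he (Or.inr hy) (Or.inl (by simp only; omega))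
        (by simp only; omega) (by simp only; omega) (by simp only; omega))
    · exact Finset.mem_union_left _ (la_mem hS h he (Or.inr hy) (Or.inl (by simp only; omega))
        (by simp only; omega) (by simp only; omega) (by simp only; omega))
    · have h3 : y % 4 ≠ 3 := fun hh => hn ⟨x, y, hh, rfl⟩
      have h0 : y % 4 ≠ 0 := fun hh => by
        have a := ((hS _).1 ((h.edges _ he).2 (x - 2, y) (Sym2.mem_mk_left _ _))).2.2.2.2.2.1 hh
        have b := ((hS _).1 ((h.edges _ he).2 (x + 2, y) (Sym2.mem_mk_right _ _))).2.2.2.2.2.1 hh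
        simp only at a b
        omega
      have hs : y % 4 = 1 ∨ y % 4 = 2 := by omega
      exact Finset.mem_union_left _ (la_mem hS h he hs hs rfl (by simp only; omega)
        (by simp only; omega))
    · by_cases hs : y % 4 = 1 ∨ y % 4 = 2
      · exact Finset.mem_union_left _ (la_mem hS h he hs hs rfl (by simp only; omega)
          (by simp only; omega))
      · exact Finset.mem_union_right _ (Finset.mem_image.2 ⟨(x, y), Finset.mem_filter.2
          ⟨Finset.mem_filter.2 ⟨(h.edges _ he).2 _ (Sym2.mem_mk_left _ _),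
            (h.edges _ he).2 _ (Sym2.mem_mk_right _ _)⟩, hs⟩, rfl⟩)
    · exact Finset.mem_union_left _ (la_mem hS h he (Or.inr hy) (Or.inl (by simp only; omega))
        (by simp only; omega) (by simp only; omega) (by simp only; omega))
    · exact Finset.mem_union_left _ (la_mem hS h he (Or.inr hy) (Or.inl (by simp only; omega))
        (by simp only; omega) (by simp only; omega) (by simp only; omega))
  have c0 := (Finset.card_le_card sub).trans ((Finset.card_union_le _ _).trans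
    (Nat.add_le_add (Finset.card_biUnion_le.trans
      (Finset.sum_le_sum fun i _ => la_piece hS h i)) Finset.card_image_le))
  rw [Finset.sum_add_distrib,
    ← Finset.card_eq_sum_card_fiberwise (f := la_ix) (fun p hp => Finset.mem_coe.2
      (Finset.mem_image_of_mem _
        (Finset.mem_filter.1 (Finset.mem_filter.1 (Finset.mem_coe.1 hp)).1).1)),
    ← Finset.card_eq_sum_card_fiberwise (f := la_ix) (fun p hp => Finset.mem_coe.2
      (Finset.mem_image_of_mem _ (Finset.mem_filter.1 (Finset.mem_coe.1 hp)).1))] at c0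
  have c1 := Finset.card_filter_add_card_filter_not
    (s := S.filter fun p => (p.1 + 2, p.2) ∈ S) la_st
  unfold pathN legN
  omega

end Pool.Agent.Lib.MP_1a3fd7_lc.Pl
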