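import Pool.Agent.Lib.MP_1a3fd7_lc.Pl.LA

/-! The lower bound for the nominal weight and its case of equality. -/

namespace Pool.Agent.Lib.MP_1a3fd7_lc.Pl

open Classical in
theorem ears_le {T c W : ℕ} {val : ℕ → ℕ → Bool} {S : Finset Pt} {E : Finset (Sym2 Pt)}
    (hS : ∀ p, p ∈ S ↔ InS T c W val p) (h : Pre S E) :
    (E.filter IsCSk).card ≤ T * (4 * W + 2) ∧
      (T * (4 * W + 2) ≤ (E.filter IsCSk).card → Full T W E) := by
  let P := (Finset.range T ×ˢ Finset.range (4 * W + 2)).filter fun z : ℕ × ℕ =>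
    sk (4 * (z.2 : ℤ) + 4) (4 * (z.1 : ℤ) + 3) ∈ E ∨ sk (4 * (z.2 : ℤ) + 6) (4 * (z.1 : ℤ) + 3) ∈ E
  let f : ℕ × ℕ → Sym2 Pt := fun z =>
    if sk (4 * (z.2 : ℤ) + 4) (4 * (z.1 : ℤ) + 3) ∈ E then
      sk (4 * (z.2 : ℤ) + 4) (4 * (z.1 : ℤ) + 3) else sk (4 * (z.2 : ℤ) + 6) (4 * (z.1 : ℤ) + 3)
  have hsub : E.filter IsCSk ⊆ P.image f := by
    intro e he
    obtain ⟨he, x, y, hy, rfl⟩ := Finset.mem_filter.1 he
    obtain ⟨a1, a2, a3, -, a5, -⟩ := (hS _).1 ((h.edges _ he).2 (x - 2, y) (Sym2.mem_mk_left _ _))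
    obtain ⟨-, -, -, a4, -⟩ := (hS _).1 ((h.edges _ he).2 (x + 2, y) (Sym2.mem_mk_right _ _))
    dsimp only at a1 a2 a3 a4 a5
    obtain ⟨t, rfl⟩ : ∃ t : ℕ, y = 4 * (t : ℤ) + 3 := ⟨(y / 4).toNat, by omega⟩
    obtain ⟨m, hm⟩ : ∃ m : ℕ, x = 4 * (m : ℤ) + 4 ∨ x = 4 * (m : ℤ) + 6 :=
      ⟨((x - 4) / 4).toNat, by omega⟩
    have hr : (t, m) ∈ Finset.range T ×ˢ Finset.range (4 * W + 2) :=
      Finset.mem_product.2 ⟨Finset.mem_range.2 (by dsimp only; omega),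
        Finset.mem_range.2 (by dsimp only; omega)⟩
    rcases hm with rfl | rfl
    · exact Finset.mem_image.2 ⟨(t, m), Finset.mem_filter.2 ⟨hr, Or.inl he⟩, if_pos he⟩
    · refine Finset.mem_image.2 ⟨(t, m), Finset.mem_filter.2 ⟨hr, Or.inr he⟩, if_neg fun h1 => ?_⟩
      refine h.cross1 _ _ h1 ?_
      rw [show 4 * (m : ℤ) + 4 + 2 = 4 * (m : ℤ) + 6 by ring]
      exact he
  have h1 : (E.filter IsCSk).card ≤ P.card := (Finset.card_le_card hsub).trans Finset.card_image_le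
  have h2 : (Finset.range T ×ˢ Finset.range (4 * W + 2)).card = T * (4 * W + 2) := by
    rw [Finset.card_product, Finset.card_range, Finset.card_range]
  refine ⟨h1.trans ((Finset.card_filter_le _ _).trans h2.le), fun h3 t ht m hm => ?_⟩
  have h4 : P = Finset.range T ×ˢ Finset.range (4 * W + 2) :=
    Finset.eq_of_subset_of_card_le (Finset.filter_subset _ _) (h2.le.trans (h3.trans h1))
  have h5 : (t, m) ∈ P := by
    rw [h4]
    exact Finset.mem_product.2 ⟨Finset.mem_range.2 ht, Finset.mem_range.2 hm⟩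
  exact (Finset.mem_filter.1 h5).2

open Classical in
theorem lb_path {S : Finset Pt} {E : Finset (Sym2 Pt)} (h : Pre S E) :
    (E.filter IsPath).card ≤ pathN S := by
  refine (Finset.card_le_card ?_).trans
    (Finset.card_image_le (f := fun p : Pt => s(p, (p.1 + 2, p.2))))
  intro e he
  obtain ⟨he, x, y, rfl⟩ := Finset.mem_filter.1 he
  exact Finset.mem_image.2 ⟨(x, y), Finset.mem_filter.2
    ⟨(h.edges _ he).2 _ (Sym2.mem_mk_left _ _), (h.edges _ he).2 _ (Sym2.mem_mk_right _ _)⟩, rfl⟩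

open Classical in
theorem lb_leg {S : Finset Pt} {E : Finset (Sym2 Pt)} (h : Pre S E) :
    (E.filter IsSLeg).card ≤ legN S := by
  refine (Finset.card_le_card ?_).trans (Finset.card_image_le (f := fun p : Pt =>
    if p.2 % 4 = 1 then s((p.1 + 1, p.2 + 1), p) else s(p, (p.1 + 1, p.2 - 1))))
  intro e he
  obtain ⟨he, x, y, hy, rfl | rfl⟩ := Finset.mem_filter.1 he
  · have a1 := (h.edges _ he).2 _ (Sym2.mem_mk_left _ _)
    have a2 := (h.edges _ he).2 _ (Sym2.mem_mk_right _ _)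
    have a3 : (y - 1) % 4 = 1 := by omega
    refine Finset.mem_image.2 ⟨(x - 1, y - 1), Finset.mem_filter.2 ⟨a2, Or.inl ⟨a3, ?_⟩⟩, ?_⟩
    · simpa using a1
    · rw [if_pos a3]; simp
  · have a1 := (h.edges _ he).2 _ (Sym2.mem_mk_left _ _)
    have a2 := (h.edges _ he).2 _ (Sym2.mem_mk_right _ _)
    have a3 : ¬ y % 4 = 1 := by omega
    exact Finset.mem_image.2 ⟨(x, y), Finset.mem_filter.2 ⟨a1, Or.inr ⟨hy, a2⟩⟩, if_neg a3⟩

open Classical in
theorem lb_point (e : Sym2 Pt) :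
    41 + 5 * (if ¬ (IsPath e ∨ IsCSk e ∨ IsLeg e) ∧ ¬ (IsLong e ∨ (IsSk e ∧ ¬ IsCSk e))
      then 1 else 0) ≤ nlen e + 23 * (if IsPath e then 1 else 0) + 5 * (if IsCSk e then 1 else 0) +
      26 * (if IsSLeg e then 1 else 0) +
      12 * (if IsLong e ∨ (IsSk e ∧ ¬ IsCSk e) then 1 else 0) := by
  have h1 : IsSLeg e → IsLeg e := fun ⟨x, y, _, h⟩ => ⟨x, y, h⟩
  unfold nlen
  by_cases a1 : IsPath e <;> by_cases a2 : IsSk e <;> by_cases a3 : IsCSk e <;>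
    by_cases a4 : IsSLeg e <;> by_cases a5 : IsLeg e <;> by_cases a6 : IsLong e <;>
    first
      | exact absurd (h1 a4) a5
      | simp [a1, a2, a3, a4, a5, a6]

open Classical in
theorem lb_sum (E : Finset (Sym2 Pt)) :
    E.card * 41 + 5 * (E.filter fun e => ¬ (IsPath e ∨ IsCSk e ∨ IsLeg e) ∧
      ¬ (IsLong e ∨ (IsSk e ∧ ¬ IsCSk e))).card ≤ ∑ e ∈ E, nlen e + 23 * (E.filter IsPath).card +
      5 * (E.filter IsCSk).card + 26 * (E.filter IsSLeg).card +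
      12 * (E.filter fun e => IsLong e ∨ (IsSk e ∧ ¬ IsCSk e)).card := by
  have h1 := Finset.sum_le_sum fun e (_ : e ∈ E) => lb_point e
  simp only [Finset.sum_add_distrib, ← Finset.mul_sum, ← Finset.card_filter, Finset.sum_const,
    smul_eq_mul] at h1
  exact h1

theorem lower {T c W : ℕ} {val : ℕ → ℕ → Bool} {S : Finset Pt} {E : Finset (Sym2 Pt)}
    (hS : ∀ p, p ∈ S ↔ InS T c W val p) (h : Pre S E) (hw : Light T W S E) :
    Short E ∧ Full T W E := by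
  classical
  have h1 := lb_sum E
  have h2 := strip_le hS h
  obtain ⟨h3, h4⟩ := ears_le hS h
  have h5 := lb_path h
  have h6 := lb_leg h
  unfold Light at hw
  refine ⟨fun e he => ?_, h4 (by omega)⟩
  by_contra hn
  by_cases hb : IsLong e ∨ (IsSk e ∧ ¬ IsCSk e)
  · have := Finset.card_pos.2 ⟨e, (Finset.mem_filter (p := fun e =>
      IsLong e ∨ (IsSk e ∧ ¬ IsCSk e))).2 ⟨he, hb⟩⟩
    omega
  · have := Finset.card_pos.2 ⟨e, (Finset.mem_filter (p := fun e =>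
      ¬ (IsPath e ∨ IsCSk e ∨ IsLeg e) ∧ ¬ (IsLong e ∨ (IsSk e ∧ ¬ IsCSk e)))).2 ⟨he, hn, hb⟩⟩
    omega

end Pool.Agent.Lib.MP_1a3fd7_lc.Pl
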