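import Pool.Agent.Lib.MP_1a3fd7_lc.Pl.Nom

namespace Pool.Agent.Lib.MP_1a3fd7_lc.Pl

theorem lg_val {T c W t j : ℕ} {val : ℕ → ℕ → Bool} {S : Finset Pt} {E : Finset (Sym2 Pt)}
    (hS : ∀ p, p ∈ S ↔ InS T c W val p) (h : Pre S E) (hj : j < W) (he : vleg c t j ∈ E) :
    val t j = true := by
  have hp := (hS _).1 ((h.edges _ he).2 (zx c j - 1, 4 * (t : ℤ) + 2) (Sym2.mem_mk_right _ _))
  have h2 := (hp.2.2.2.2.2.2.2 (by show (4 * (t : ℤ) + 2) % 4 = 2; omega) j hj).2.2 rfl
  have h3 : ((4 * (t : ℤ) + 2) / 4).toNat = t := by omega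
  simpa only [h3] using h2

theorem lg_nsk {c t j : ℕ} {S : Finset Pt} {E : Finset (Sym2 Pt)} (h : Pre S E)
    (he : vleg c t j ∈ E) : sk (zx c j) (4 * (t : ℤ) + 3) ∉ E := fun hs => by
  have h1 := (h.cross2 _ _ hs).1
  have h2 : 4 * (t : ℤ) + 3 - 1 = 4 * (t : ℤ) + 2 := by ring
  rw [h2] at h1
  exact h1 he

theorem lg_prop {T W t m : ℕ} {S : Finset Pt} {E : Finset (Sym2 Pt)} (h : Pre S E)
    (hf : Full T W E) (ht : t < T) (hm : sk (4 * (m : ℤ) + 6) (4 * (t : ℤ) + 3) ∈ E) (k : ℕ)
    (hk : m + k < 4 * W + 2) : sk (4 * ((m + k : ℕ) : ℤ) + 6) (4 * (t : ℤ) + 3) ∈ E := by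
  induction k with
  | zero => exact hm
  | succ k ih =>
    have h1 := h.cross1 _ _ (ih (by omega))
    rcases hf t ht (m + (k + 1)) hk with h2 | h2
    · have h3 : 4 * ((m + (k + 1) : ℕ) : ℤ) + 4 = 4 * ((m + k : ℕ) : ℤ) + 6 + 2 := by
        push_cast
        ring
      rw [h3] at h2
      exact absurd h2 h1
    · exact h2

theorem lg_both {T c W t j j' : ℕ} {S : Finset Pt} {E : Finset (Sym2 Pt)} (h : Pre S E)
    (hf : Full T W E) (ht : t < T) (hj : j < c) (hj' : c ≤ j') (hW : j' < W)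
    (he : vleg c t j ∈ E) (he' : vleg c t j' ∈ E) : False := by
  have h1 := lg_nsk h he
  have h2 := lg_nsk h he'
  have z1 : zx c j = 4 * ((4 * j + 3 : ℕ) : ℤ) + 4 := by
    unfold zx
    rw [if_pos hj]
    push_cast
    ring
  have z2 : zx c j' = 4 * ((4 * j + 3 + (4 * j' + 2 - (4 * j + 3)) : ℕ) : ℤ) + 6 := by
    unfold zx
    rw [if_neg (by omega)]
    omega
  rw [z1] at h1
  rw [z2] at h2
  rcases hf t ht (4 * j + 3) (by omega) with h3 | h3
  · exact h1 h3
  · exact h2 (lg_prop h hf ht h3 _ (by omega))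

theorem lg_two {A : Finset ℕ} {a b : ℕ} (h : 3 ≤ A.card) : ∃ t ∈ A, t ≠ a ∧ t ≠ b := by
  by_contra hn
  have h1 : A ⊆ {a, b} := fun t ht => by
    by_contra h2
    simp only [Finset.mem_insert, Finset.mem_singleton, not_or] at h2
    exact hn ⟨t, ht, h2⟩
  have h2 := (Finset.card_le_card h1).trans (Finset.card_le_two (a := a) (b := b))
  omega

theorem logic_sound {v c : ℕ} {o : ℕ → ℕ → Bool} {S : Finset Pt} {E : Finset (Sym2 Pt)}
    (hS : ∀ p, p ∈ S ↔ InS (2 * v + 4) c (c + v) (pval c o) p) (h : Pre S E)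
    (hf : Full (2 * v + 4) (c + v) E)
    (hw : ∀ j < c + v, 3 ≤ ((Finset.range (2 * v + 4)).filter fun t => vleg c t j ∈ E).card) :
    ∃ ρ : ℕ → Bool, ∀ j < c, ∃ r < 2 * v, o j r = true ∧ ρ (r / 2) = decide (r % 2 = 0) := by
  refine ⟨fun i => decide (vleg c (2 * i + 5) (c + i) ∈ E), fun j hj => ?_⟩
  obtain ⟨t, ht, h0, h1⟩ := lg_two (a := 0) (b := 1) (hw j (by omega))
  rw [Finset.mem_filter, Finset.mem_range] at ht
  have hv := lg_val hS h (by omega) ht.2
  have h4 : 4 ≤ t := by
    by_contra h4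
    unfold pval at hv
    rw [if_neg (by omega), if_pos (by omega), decide_eq_true_eq] at hv
    omega
  unfold pval at hv
  rw [if_neg (by omega), if_neg (by omega), if_pos hj] at hv
  refine ⟨t - 4, by omega, hv, ?_⟩
  have hn : vleg c t (c + (t - 4) / 2) ∉ E := fun he =>
    lg_both h hf ht.1 hj (by omega) (by omega) ht.2 he
  obtain ⟨u, hu, h2, h3⟩ := lg_two (a := 2) (b := 3) (hw (c + (t - 4) / 2) (by omega))
  rw [Finset.mem_filter, Finset.mem_range] at hu
  have hv' := lg_val hS h (by omega) hu.2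
  have hu2 : 2 ≤ u := by
    by_contra h4
    unfold pval at hv'
    rw [if_pos (by omega), decide_eq_true_eq] at hv'
    omega
  unfold pval at hv'
  rw [if_neg (by omega), if_neg (by omega), if_neg (by omega), decide_eq_true_eq] at hv'
  have hne : u ≠ t := fun e => hn (e ▸ hu.2)
  rw [decide_eq_decide]
  constructor
  · intro he
    by_contra hp
    have e : 2 * ((t - 4) / 2) + 5 = t := by omega
    rw [e] at he
    exact hn he
  · intro hp
    have e : 2 * ((t - 4) / 2) + 5 = u := by omega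
    rw [e]
    exact hu.2

/-- The states of the chains. -/
def lg_st (ρ : ℕ → Bool) (t : ℕ) : Bool :=
  if t < 2 then true else if t < 4 then false else (ρ ((t - 4) / 2) == decide ((t - 4) % 2 = 0))

/-- The used chains. -/
def lg_ch (c : ℕ) (ρ : ℕ → Bool) (r : ℕ → ℕ) (j : ℕ) (k : Fin 3) : ℕ :=
  if j < c then (if k.val < 2 then k.val else 4 + r j)
  else if k.val < 2 then 2 + k.val else 4 + 2 * (j - c) + if ρ (j - c) = true then 1 else 0

theorem logic_complete {v c : ℕ} {o : ℕ → ℕ → Bool} {ρ : ℕ → Bool}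
    (h : ∀ j < c, ∃ r < 2 * v, o j r = true ∧ ρ (r / 2) = decide (r % 2 = 0)) :
    ∃ st ch, Opn (2 * v + 4) c (c + v) (pval c o) st ch := by
  choose! r h1 h2 h3 using h
  refine ⟨lg_st ρ, lg_ch c ρ r, fun j hj k => ?_, fun j _ k k' e => ?_, fun j _ k => ?_,
    fun j _ k => ?_⟩
  · unfold lg_ch
    by_cases hc : j < c
    · have := h1 j hc
      split_ifs <;> omega
    · split_ifs <;> omega
  · unfold lg_ch at e
    have := k.isLt
    have := k'.isLt
    apply Fin.ext
    split_ifs at e <;> omega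
  · unfold lg_ch pval
    by_cases hc : j < c
    · rw [if_pos hc]
      by_cases hk : k.val < 2
      · rw [if_pos hk, if_pos hk, decide_eq_true hc]
      · rw [if_neg hk, if_neg (by omega), if_neg (by omega), if_pos hc, Nat.add_sub_cancel_left]
        exact h2 j hc
    · rw [if_neg hc]
      by_cases hk : k.val < 2
      · rw [if_pos hk, if_neg (by omega), if_pos (by omega), decide_eq_true_eq]
        omega
      · rw [if_neg hk, if_neg (by omega), if_neg (by omega), if_neg hc, decide_eq_true_eq]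
        split_ifs <;> omega
  · unfold lg_ch lg_st
    by_cases hc : j < c
    · rw [if_pos hc, decide_eq_true hc]
      by_cases hk : k.val < 2
      · rw [if_pos hk, if_pos hk]
      · rw [if_neg hk, if_neg (by omega), if_neg (by omega), Nat.add_sub_cancel_left, h3 j hc]
        exact beq_self_eq_true _
    · rw [if_neg hc, decide_eq_false hc]
      by_cases hk : k.val < 2
      · rw [if_pos hk, if_neg (by omega), if_pos (by omega)]
      · rw [if_neg hk, if_neg (by omega), if_neg (by omega)]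
        cases hr : ρ (j - c)
        · have e1 : (4 + 2 * (j - c) + 0 - 4) / 2 = j - c := by omega
          have e2 : (4 + 2 * (j - c) + 0 - 4) % 2 = 0 := by omega
          rw [if_neg (by simp), e1, hr, decide_eq_true e2]
          rfl
        · have e1 : (4 + 2 * (j - c) + 1 - 4) / 2 = j - c := by omega
          have e2 : ¬ (4 + 2 * (j - c) + 1 - 4) % 2 = 0 := by omega
          rw [if_pos rfl, e1, hr, decide_eq_false e2]
          rfl

end Pool.Agent.Lib.MP_1a3fd7_lc.Pl
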