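import Pool.Agent.Lib.MP_1a3fd7_lc.Pl.Nom

namespace Pool.Agent.Lib.MP_1a3fd7_lc.Pl

theorem lw_near {T c W : ℕ} {val : ℕ → ℕ → Bool} {j : ℕ} (hj : j < W) {x y : ℤ}
    (hp : InS T c W val (x, y)) :
    0 ≤ y ∧ y < 4 * T ∧ (x + y) % 2 = 1 ∧ (y % 4 = 0 → x ≤ zx c j - 5 ∨ zx c j + 7 ≤ x) ∧
      (y % 4 = 1 → x ≤ zx c j - 2 ∨ zx c j + 4 ≤ x) ∧
      (y % 4 = 2 → x ≤ zx c j - 1 ∨ zx c j + 5 ≤ x) := by
  obtain ⟨h0, h1, -, -, h4, h5, h6, h7⟩ := hp
  simp only at h0 h1 h4 h5 h6 h7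
  have hz : zx c j = 16 * j + 16 ∨ zx c j = 16 * j + 14 := by
    unfold zx
    split_ifs <;> simp
  refine ⟨h0, h1, h4, fun h => ?_, fun h => ?_, fun h => ?_⟩
  · have := (h5 h).2
    omega
  · have := h6 h j hj
    omega
  · obtain ⟨a, b, -⟩ := h7 h j hj
    omega

theorem lw_chain {T c W : ℕ} {val : ℕ → ℕ → Bool} {j : ℕ} (hj : j < W) {x y : ℤ}
    (h0 : 0 ≤ y) (h1 : y < 4 * T) (h3 : y % 4 = 3) (hx : x % 2 = 0) (ha : zx c j - 2 ≤ x)
    (hb : x ≤ zx c j + 4) : InS T c W val (x, y) := by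
  have hz : zx c j = 16 * j + 16 ∨ zx c j = 16 * j + 14 := by
    unfold zx
    split_ifs <;> simp
  refine ⟨h0, h1, ?_, ?_, ?_, fun h => ?_, fun h => ?_, fun h => ?_⟩ <;> simp only at * <;> omega

theorem lw_far {T c W : ℕ} {val : ℕ → ℕ → Bool} (hT : 0 < T) {x y : ℤ}
    (h : (x = 1 ∧ y = 2) ∨ (x = 2 ∧ y = 1) ∨ (x = 16 * W + 13 ∧ y = 2) ∨
      (x = 16 * W + 12 ∧ y = 1)) : InS T c W val (x, y) := by
  have hz : ∀ j : ℕ, zx c j = 16 * j + 16 ∨ zx c j = 16 * j + 14 := fun j => by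
    unfold zx
    split_ifs <;> simp
  refine ⟨?_, ?_, ?_, ?_, ?_, fun h => ?_, fun h j hj => ?_, fun h j hj => ⟨?_, ?_, fun g => ?_⟩⟩
  all_goals simp only at *
  all_goals first | omega | (have := hz j; omega)

/-- The points that are cut out at a wall. -/
def LwZ (E : Finset (Sym2 Pt)) (z : ℤ) (p : Pt) : Prop :=
  p.2 % 4 = 3 ∧ (p.1 = z ∨ p.1 = z + 2 ∨ (p.1 = z - 2 ∧ sk (z - 2) p.2 ∈ E) ∨
    (p.1 = z + 4 ∧ sk (z + 4) p.2 ∈ E))

/-- The first edge charged to a point. -/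
def lwF (z : ℤ) (p : Pt) : Sym2 Pt :=
  if p.1 ≤ z then s((p.1 - 2, p.2), p) else s(p, (p.1 + 2, p.2))

/-- The second edge charged to a point. -/
def lwG (E : Finset (Sym2 Pt)) (z : ℤ) (p : Pt) : Sym2 Pt :=
  if p.1 = z then s(p, (z + 2, p.2))
  else if p.1 = z + 2 then (if sk z p.2 ∈ E then sk z p.2 else sk (z + 2) p.2) else sk p.1 p.2

theorem lw_meet {T c W : ℕ} {val : ℕ → ℕ → Bool} {S : Finset Pt} {E : Finset (Sym2 Pt)}
    (hS : ∀ p, p ∈ S ↔ InS T c W val p) (h : Pre S E) (hs : Short E) {j : ℕ}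
    (hj : j < W) {e : Sym2 Pt} (he : e ∈ E) {p : Pt} (hp : p ∈ e) (hZ : LwZ E (zx c j) p) :
    (∃ q ∈ S, LwZ E (zx c j) q ∧ (lwF (zx c j) q = e ∨ lwG E (zx c j) q = e)) ∨
      ∃ t < T, vleg c t j = e := by
  have hz : zx c j % 2 = 0 := by
    unfold zx
    split_ifs <;> omega
  have hn : ∀ x y, (x, y) ∈ e → _ := fun x y m => lw_near hj ((hS _).1 ((h.edges e he).2 _ m))
  have hc : ∀ x y : ℤ, 0 ≤ y → y < 4 * T → y % 4 = 3 → x % 2 = 0 → zx c j - 2 ≤ x →
      x ≤ zx c j + 4 → (x, y) ∈ S := fun x y a b d f g k => (hS _).2 (lw_chain hj a b d f g k)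
  have hv : ∀ y : ℤ, 0 ≤ y → y < 4 * T → y % 4 = 3 →
      ∃ t < T, vleg c t j = s((zx c j, y), (zx c j - 1, y - 1)) := fun y a b d => by
    refine ⟨(y / 4).toNat, by omega, ?_⟩
    have e1 : 4 * (((y / 4).toNat : ℕ) : ℤ) + 3 = y := by omega
    have e2 : 4 * (((y / 4).toNat : ℕ) : ℤ) + 2 = y - 1 := by omega
    rw [vleg, e1, e2]
  generalize zx c j = z at *
  rcases hs e he with ⟨x, y, rfl⟩ | ⟨x, y, hy, rfl⟩ | ⟨x, y, rfl | rfl⟩
  · obtain ⟨a0, a1, a2, -⟩ := hn x y (Sym2.mem_mk_left _ _)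
    have hy : y % 4 = 3 := by
      rcases Sym2.mem_iff.1 hp with rfl | rfl <;> exact hZ.1
    left
    by_cases k1 : x = z
    · subst k1
      exact ⟨(x, y), hc _ _ a0 a1 hy hz (by omega) (by omega), ⟨hy, Or.inl rfl⟩,
        Or.inr (by simp [lwG])⟩
    by_cases k2 : x < z
    · have hq : LwZ E z (x + 2, y) := by
        rcases Sym2.mem_iff.1 hp with rfl | rfl
        · obtain ⟨-, g⟩ := hZ
          exact ⟨hy, Or.inl (by simp only at g ⊢; omega)⟩
        · exact hZ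
      refine ⟨(x + 2, y), (h.edges _ he).2 _ (Sym2.mem_mk_right _ _), hq, Or.inl ?_⟩
      have g : x + 2 ≤ z := by omega
      simp [lwF, g]
    · have hq : LwZ E z (x, y) := by
        rcases Sym2.mem_iff.1 hp with rfl | rfl
        · exact hZ
        · obtain ⟨-, g⟩ := hZ
          exact ⟨hy, Or.inr (Or.inl (by simp only at g ⊢; omega))⟩
      refine ⟨(x, y), (h.edges _ he).2 _ (Sym2.mem_mk_left _ _), hq, Or.inl ?_⟩
      have g : ¬ x ≤ z := by omega
      simp [lwF, g]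
  · obtain ⟨a0, a1, a2, -⟩ := hn (x - 2) y (Sym2.mem_mk_left _ _)
    left
    have hx : x = z - 2 ∨ x = z ∨ x = z + 2 ∨ x = z + 4 := by
      obtain ⟨-, g⟩ := hZ
      rcases Sym2.mem_iff.1 hp with rfl | rfl
      · simp only at g
        rcases g with g | g | g | ⟨g, k⟩
        · omega
        · omega
        · omega
        · refine absurd he ?_
          have := h.cross1 _ _ k
          rwa [show z + 4 + 2 = x by omega] at this
      · simp only at g
        rcases g with g | g | ⟨g, k⟩ | g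
        · omega
        · omega
        · refine absurd k ?_
          have := h.cross1 _ _ he
          rwa [g] at this
        · omega
    rcases hx with rfl | rfl | rfl | rfl
    · refine ⟨(z - 2, y), hc _ _ a0 a1 hy (by omega) (by omega) (by omega),
        ⟨hy, Or.inr (Or.inr (Or.inl ⟨rfl, he⟩))⟩, Or.inr ?_⟩
      rw [lwG, if_neg (by simp only; omega), if_neg (by simp only; omega)]
    · refine ⟨(x + 2, y), hc _ _ a0 a1 hy (by omega) (by omega) (by omega),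
        ⟨hy, Or.inr (Or.inl rfl)⟩, Or.inr ?_⟩
      rw [lwG, if_neg (by simp only; omega), if_pos rfl, if_pos he]
    · refine ⟨(z + 2, y), hc _ _ a0 a1 hy (by omega) (by omega) (by omega),
        ⟨hy, Or.inr (Or.inl rfl)⟩, Or.inr ?_⟩
      rw [lwG, if_neg (by simp only; omega), if_pos rfl, if_neg fun k => h.cross1 _ _ k he]
    · refine ⟨(z + 4, y), hc _ _ a0 a1 hy (by omega) (by omega) (by omega),
        ⟨hy, Or.inr (Or.inr (Or.inr ⟨rfl, he⟩))⟩, Or.inr ?_⟩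
      rw [lwG, if_neg (by simp only; omega), if_neg (by simp only; omega)]
  · obtain ⟨a0, a1, a2, a3, -, -⟩ := hn x y (Sym2.mem_mk_left _ _)
    obtain ⟨-, -, -, -, -, b5⟩ := hn (x - 1) (y - 1) (Sym2.mem_mk_right _ _)
    obtain ⟨hy, g⟩ := hZ
    rcases Sym2.mem_iff.1 hp with rfl | rfl
    · simp only at hy g
      rcases g with rfl | g | ⟨rfl, k⟩ | ⟨rfl, k⟩
      · exact Or.inr (hv y a0 a1 hy)
      · omega
      · exact absurd he (h.cross2 _ _ k).1
      · exact absurd he (h.cross2 _ _ k).1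
    · simp only at hy g
      omega
  · obtain ⟨a0, a1, a2, a3, -, -⟩ := hn x y (Sym2.mem_mk_left _ _)
    obtain ⟨-, -, -, -, -, b5⟩ := hn (x + 1) (y - 1) (Sym2.mem_mk_right _ _)
    obtain ⟨hy, g⟩ := hZ
    rcases Sym2.mem_iff.1 hp with rfl | rfl
    · simp only at hy g
      rcases g with g | g | ⟨rfl, k⟩ | ⟨rfl, k⟩
      · omega
      · omega
      · exact absurd he (h.cross2 _ _ k).2
      · exact absurd he (h.cross2 _ _ k).2
    · simp only at hy g
      omega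

theorem lw_side {T c W : ℕ} {val : ℕ → ℕ → Bool} {S : Finset Pt} {E : Finset (Sym2 Pt)}
    (hS : ∀ p, p ∈ S ↔ InS T c W val p) (h : Pre S E) (hs : Short E) {j : ℕ}
    (hj : j < W) {e : Sym2 Pt} (he : e ∈ E) (hZ : ∀ p ∈ e, ¬ LwZ E (zx c j) p) :
    (∀ p ∈ e, p.1 ≤ zx c j + 1) ∨ ∀ p ∈ e, ¬ p.1 ≤ zx c j + 1 := by
  have hz : zx c j % 2 = 0 := by
    unfold zx
    split_ifs <;> omega
  have hn : ∀ p ∈ e, p.1 ≤ zx c j - 1 ∨ zx c j + 4 ≤ p.1 := fun p m => by
    obtain ⟨-, -, a2, a3, a4, a5⟩ := lw_near (x := p.1) (y := p.2) hj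
      ((hS _).1 ((h.edges e he).2 _ m))
    have g : ¬ (p.2 % 4 = 3 ∧ (p.1 = zx c j ∨ p.1 = zx c j + 2)) := fun k =>
      hZ p m ⟨k.1, k.2.elim Or.inl fun k => Or.inr (Or.inl k)⟩
    omega
  have hd : ∀ p ∈ e, ∀ q ∈ e, p.1 ≤ q.1 + 4 := by
    intro p hp q hq
    rcases hs e he with ⟨x, y, rfl⟩ | ⟨x, y, -, rfl⟩ | ⟨x, y, rfl | rfl⟩ <;>
      rcases Sym2.mem_iff.1 hp with rfl | rfl <;> rcases Sym2.mem_iff.1 hq with rfl | rfl <;>
      simp only <;> omega
  by_contra k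
  push Not at k
  obtain ⟨⟨p, hp, k1⟩, q, hq, k2⟩ := k
  have := hn p hp
  have := hn q hq
  have := hd p hp q hq
  omega

theorem wall {T c W : ℕ} {val : ℕ → ℕ → Bool} {S : Finset Pt} {E : Finset (Sym2 Pt)}
    (hS : ∀ p, p ∈ S ↔ InS T c W val p) (hT : 0 < T) (h : Pre S E) (hs : Short E) {j : ℕ}
    (hj : j < W) : 3 ≤ ((Finset.range T).filter fun t => vleg c t j ∈ E).card := by
  classical
  have hz : 14 ≤ zx c j ∧ zx c j ≤ 16 * W := by
    unfold zx
    split_ifs <;> omega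
  set V := (Finset.range T).filter fun t => vleg c t j ∈ E with hV
  set Z := S.filter (LwZ E (zx c j)) with hZ
  set N := S.filter fun p => ¬ LwZ E (zx c j) p with hN
  set L := N.filter fun p => p.1 ≤ zx c j + 1 with hL
  set R := N.filter fun p => ¬ p.1 ≤ zx c j + 1 with hR
  have c1 : Z.card + N.card = S.card := Finset.card_filter_add_card_filter_not _
  have c2 : L.card + R.card = N.card := Finset.card_filter_add_card_filter_not _
  have hm : ∀ x y : ℤ, (x = 1 ∧ y = 2) ∨ (x = 2 ∧ y = 1) ∨ (x = 16 * W + 13 ∧ y = 2) ∨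
      (x = 16 * W + 12 ∧ y = 1) → (x, y) ∈ N := fun x y k =>
    Finset.mem_filter.2 ⟨(hS _).2 (lw_far hT k), fun g => by
      have := g.1
      simp only at this
      omega⟩
  have l2 : 2 ≤ L.card := Finset.one_lt_card.2
    ⟨(1, 2), Finset.mem_filter.2 ⟨hm _ _ (by simp), by simp only; omega⟩,
      (2, 1), Finset.mem_filter.2 ⟨hm _ _ (by simp), by simp only; omega⟩, by simp⟩
  have r2 : 2 ≤ R.card := Finset.one_lt_card.2
    ⟨(16 * W + 13, 2), Finset.mem_filter.2 ⟨hm _ _ (by simp), by simp only; omega⟩,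
      (16 * W + 12, 1), Finset.mem_filter.2 ⟨hm _ _ (by simp), by simp only; omega⟩, by simp⟩
  have sp : ∀ X ⊆ S, 2 ≤ X.card → ∃ A : Finset (Sym2 Pt),
      (∀ e ∈ E, (∀ p ∈ e, p ∈ X) → e ∈ A) ∧ A.card + 3 ≤ 2 * X.card := fun X a b =>
    ⟨_, fun e he g => by simpa only [Finset.mem_filter] using And.intro he g, h.sparse X a b⟩
  obtain ⟨A, hA, sL⟩ := sp L ((Finset.filter_subset _ _).trans (Finset.filter_subset _ _)) l2
  obtain ⟨B, hB, sR⟩ := sp R ((Finset.filter_subset _ _).trans (Finset.filter_subset _ _)) r2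
  have hsub : ∀ A B : Finset (Sym2 Pt), (∀ e ∈ E, (∀ p ∈ e, p ∈ L) → e ∈ A) →
      (∀ e ∈ E, (∀ p ∈ e, p ∈ R) → e ∈ B) → E.card ≤ A.card + B.card + 2 * Z.card + V.card := by
    intro A B hA hB
    have : E ⊆ A ∪ B ∪ Z.image (lwF (zx c j)) ∪ Z.image (lwG E (zx c j)) ∪
        V.image fun t => vleg c t j := by
      intro e he
      simp only [Finset.mem_union, Finset.mem_image]
      by_cases k : ∀ p ∈ e, ¬ LwZ E (zx c j) p
      · have hN' : ∀ p ∈ e, p ∈ N := fun p m =>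
          Finset.mem_filter.2 ⟨(h.edges e he).2 p m, k p m⟩
        rcases lw_side hS h hs hj he k with g | g
        · exact Or.inl (Or.inl (Or.inl (Or.inl
            (hA e he fun p m => Finset.mem_filter.2 ⟨hN' p m, g p m⟩))))
        · exact Or.inl (Or.inl (Or.inl (Or.inr
            (hB e he fun p m => Finset.mem_filter.2 ⟨hN' p m, g p m⟩))))
      · push Not at k
        obtain ⟨p, hp, k⟩ := k
        rcases lw_meet hS h hs hj he hp k with ⟨q, hq, g, u | u⟩ | ⟨t, ht, u⟩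
        · exact Or.inl (Or.inl (Or.inr ⟨q, Finset.mem_filter.2 ⟨hq, g⟩, u⟩))
        · exact Or.inl (Or.inr ⟨q, Finset.mem_filter.2 ⟨hq, g⟩, u⟩)
        · exact Or.inr ⟨t, Finset.mem_filter.2 ⟨Finset.mem_range.2 ht, u ▸ he⟩, u⟩
    have u0 := Finset.card_le_card this
    have u1 := Finset.card_union_le (A ∪ B ∪ Z.image (lwF (zx c j)) ∪ Z.image (lwG E (zx c j)))
      (V.image fun t => vleg c t j)
    have u2 := Finset.card_union_le (A ∪ B ∪ Z.image (lwF (zx c j))) (Z.image (lwG E (zx c j)))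
    have u3 := Finset.card_union_le (A ∪ B) (Z.image (lwF (zx c j)))
    have u4 := Finset.card_union_le A B
    have u5 := Finset.card_image_le (s := Z) (f := lwF (zx c j))
    have u6 := Finset.card_image_le (s := Z) (f := lwG E (zx c j))
    have u7 := Finset.card_image_le (s := V) (f := fun t => vleg c t j)
    omega
  have := hsub A B hA hB
  have := h.count
  omega

end Pool.Agent.Lib.MP_1a3fd7_lc.Pl
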