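import Pool.Agent.Lib.MP_1a3fd7_lc.Pl.YA

namespace Pool.Agent.Lib.MP_1a3fd7_lc.Pl

/-- The state of the chain of a row, as an integer. -/
def yb_b (st : ℕ → Bool) (y : ℤ) : ℤ := if st (y / 4).toNat = true then 1 else 0

section

variable {T c W : ℕ} {val : ℕ → ℕ → Bool} {st : ℕ → Bool} {ch : ℕ → Fin 3 → ℕ} {x y : ℤ}

theorem yb_ear : Ear W st (x, y) ↔
    y % 4 = 3 ∧ 4 ≤ x ∧ x ≤ 16 * W + 10 ∧ (x % 4 = 2 ↔ yb_b st y = 1) := by
  unfold Ear yb_b
  by_cases hs : st (y / 4).toNat = true <;> simp [hs]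

theorem yb_zone : Zone c W (x, y) ↔ y % 4 = 3 ∧ ((x % 16 = 0 ∧ 16 ≤ x ∧ x ≤ 16 * W) ∨
    (x % 16 = 2 ∧ 18 ≤ x ∧ x ≤ 16 * W + 2 ∧ x ≤ 16 * c + 2) ∨
    (x % 16 = 14 ∧ x ≤ 16 * W - 2 ∧ 16 * c + 14 ≤ x)) := by
  unfold Zone zx
  refine and_congr_right fun _ => ⟨?_, fun h => ?_⟩
  · rintro ⟨j, hj, h⟩
    dsimp only at h
    split_ifs at h <;> omega
  · refine ⟨((x - 14) / 16).toNat, by omega, ?_⟩
    dsimp only
    split_ifs <;> omega

theorem yb_used (h : Opn T c W val st ch) (hu : Used c W ch (x, y)) :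
    (x % 16 = 0 ∧ x ≤ 16 * c ∧ yb_b st y = 1) ∨ (x % 16 = 14 ∧ yb_b st y = 0) := by
  obtain ⟨j, hj, k, e⟩ := hu
  obtain ⟨rfl, rfl⟩ := Prod.mk.inj e
  have e1 : ((4 * (ch j k : ℤ) + 3) / 4).toNat = ch j k := by omega
  have e2 := h.st j hj k
  unfold yb_b zx
  rw [e1, e2]
  by_cases hc : j < c
  · rw [if_pos hc, decide_eq_true hc, if_pos rfl]
    omega
  · rw [if_neg hc, decide_eq_false hc, if_neg Bool.false_ne_true]
    omega

theorem yb_zone0 (h : y % 4 = 3) (h0 : x % 16 = 0) (h1 : 16 ≤ x) (h2 : x ≤ 16 * W) :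
    Zone c W (x, y) := yb_zone.2 ⟨h, Or.inl ⟨h0, h1, h2⟩⟩

theorem yb_nl (h1 : ¬ Zone c W (x, y))
    (h2 : ¬ Ear W st (x, y) ∨ (¬ Zone c W (x - 2, y) ∧ ¬ Zone c W (x + 2, y))) :
    ¬ Late c W st ch (x, y) := by
  rintro (h | ⟨h, h'⟩)
  · exact h1 h.1
  · rcases h2 with h2 | h2
    · exact h2 h
    · exact h'.elim h2.1 h2.2

theorem yb_nl_row (h : y % 4 ≠ 3) : ¬ Late c W st ch (x, y) :=
  yb_nl (fun hz => h hz.1) (Or.inl fun he => h he.1)

theorem yb_nl_zone (h : Opn T c W val st ch) (hl : ¬ Late c W st ch (x, y))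
    (hz : Zone c W (x, y)) :
    (x % 16 = 0 ∧ x ≤ 16 * c ∧ yb_b st y = 1) ∨ (x % 16 = 14 ∧ yb_b st y = 0) :=
  yb_used h (by_contra fun hu => hl (Or.inl ⟨hz, hu⟩))

theorem yb_key0 (h : y % 4 = 0) :
    key T c W st ch (x, y) = 100 * (y / 4) + if (x - 1) % 16 = 6 then 0 else 1 := by
  rw [key, if_neg (yb_nl_row (by omega)), if_pos h, loc]
  dsimp only
  split_ifs <;> omega

theorem yb_key1 (h : y % 4 = 1 ∨ y % 4 = 2) :
    key T c W st ch (x, y) = 100 * (y / 4) + if (x - 1) % 16 = 7 then 2 else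
      if (x - 1) % 16 = 9 then 3 else if (x - 1) % 16 = 8 then 4 else
      if (x - 1) % 16 < 8 then 11 - (x - 1) % 16 else (x - 1) % 16 - 5 := by
  rw [key, if_neg (yb_nl_row (by omega)), if_neg (by dsimp only; omega),
    if_neg (by dsimp only; omega), loc, abs_eq_max_neg]
  dsimp only
  split_ifs <;> omega

theorem yb_key1' (h : y % 4 = 2) : key T c W st ch (x, y) ≤ 100 * (y / 4) + 11 := by
  rw [yb_key1 (Or.inr h)]
  split_ifs <;> omega

theorem yb_key3 (h : y % 4 = 3) (hl : ¬ Late c W st ch (x, y)) (he : ¬ Ear W st (x, y)) :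
    key T c W st ch (x, y) = 100 * (y / 4) +
      if (x - 1) % 16 < 6 then 26 - (x - 1) % 16 else (x - 1) % 16 + 14 := by
  rw [key, if_neg hl, if_neg (by dsimp only; omega), if_pos h, if_neg he, loc, abs_eq_max_neg]
  dsimp only
  split_ifs <;> omega

theorem yb_key3e (hl : ¬ Late c W st ch (x, y)) (he : Ear W st (x, y)) :
    key T c W st ch (x, y) = 100 * (y / 4) + 40 := by
  have h : y % 4 = 3 := he.1
  rw [key, if_neg hl, if_neg (by dsimp only; omega), if_pos h, if_pos he]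

theorem yb_key3' (h : y % 4 = 3) (hl : ¬ Late c W st ch (x, y)) :
    key T c W st ch (x, y) ≤ 100 * (y / 4) + 40 := by
  by_cases he : Ear W st (x, y)
  · exact (yb_key3e hl he).le
  · rw [yb_key3 h hl he]
    split_ifs <;> omega

theorem yb_sec {x' y' : ℤ} (h : (x' - 1) / 16 = (x - 1) / 16) : sec (x', y') = sec (x, y) := by
  unfold sec
  rw [h]

/-- The strong form of the parent condition. -/
def yb_G (T c W : ℕ) (st : ℕ → Bool) (ch : ℕ → Fin 3 → ℕ) (w u : Pt) : Prop :=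
  key T c W st ch u < key T c W st ch w ∧
    (¬ Late c W st ch w → ¬ Late c W st ch u ∧ sec u = sec w)

theorem yb_pair {P : Pt → Prop} {a b : Pt} (ha : P a) (hb : P b) :
    ∀ u ∈ ({a, b} : Finset Pt), P u := by
  intro u hu
  rcases Finset.mem_insert.1 hu with rfl | hu
  · exact ha
  · rw [Finset.mem_singleton.1 hu]
    exact hb

theorem yb_row0 (hw : InS T c W val (x, y)) (h : y % 4 = 0) :
    ∀ u ∈ par c W st ch (x, y), yb_G T c W st ch (x, y) u := by
  obtain ⟨-, -, h1, -, -, h0, -⟩ := hw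
  obtain ⟨h4, h79⟩ := h0 h
  dsimp only at h1 h4 h79
  have up : ∀ x' : ℤ, (x' % 16 = 6 ∨ x' % 16 = 8) → (x' - 1) / 16 = (x - 1) / 16 →
      yb_G T c W st ch (x, y) (x', y - 1) := by
    intro x' h68 hs
    have nl : ¬ Late c W st ch (x', y - 1) :=
      yb_nl (by rw [yb_zone]; omega) (Or.inr ⟨by rw [yb_zone]; omega, by rw [yb_zone]; omega⟩)
    refine ⟨?_, fun _ => ⟨nl, yb_sec hs⟩⟩
    have := yb_key3' (T := T) (by omega) nl
    rw [yb_key0 h]
    split_ifs <;> omega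
  rw [par, if_pos h, loc]
  dsimp only
  split_ifs with h7
  · exact yb_pair (up _ (by omega) (by omega)) (up _ (by omega) (by omega))
  · refine yb_pair (up _ (by omega) (by omega)) ⟨?_, fun _ => ⟨yb_nl_row (by omega),
      yb_sec (by omega)⟩⟩
    rw [yb_key0 h, yb_key0 h]
    split_ifs <;> omega

theorem yb_strip {x' y' : ℤ} (h : y % 4 = 1 ∨ y % 4 = 2) (h' : y' % 4 = 1 ∨ y' % 4 = 2)
    (hy : y' / 4 = y / 4) (hs : (x' - 1) / 16 = (x - 1) / 16)
    (hx : ((x - 1) % 16 < 7 ∧ x < x' ∧ x' ≤ x + 2 ∧ (x' - 1) % 16 ≠ 8) ∨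
      ((x - 1) % 16 = 6 ∧ x' = x + 2) ∨ (9 < (x - 1) % 16 ∧ x' < x ∧ x ≤ x' + 2) ∨
      ((x - 1) % 16 = 9 ∧ x' = x - 2) ∨ ((x - 1) % 16 = 8 ∧ (x' = x - 1 ∨ x' = x + 1))) :
    yb_G T c W st ch (x, y) (x', y') := by
  refine ⟨?_, fun _ => ⟨yb_nl_row (by omega), yb_sec hs⟩⟩
  rw [yb_key1 h, yb_key1 h', hy]
  split_ifs <;> omega

theorem yb_post {x' : ℤ} (h : y % 4 = 1) (hs : (x' - 1) / 16 = (x - 1) / 16) :
    yb_G T c W st ch (x, y) (x', y - 1) := by
  refine ⟨?_, fun _ => ⟨yb_nl_row (by omega), yb_sec hs⟩⟩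
  rw [yb_key1 (Or.inl h), yb_key0 (by omega)]
  split_ifs <;> omega

theorem yb_row12 (hw : InS T c W val (x, y)) (h : y % 4 = 1 ∨ y % 4 = 2) :
    ∀ u ∈ par c W st ch (x, y), yb_G T c W st ch (x, y) u := by
  obtain ⟨-, -, -, -, hp, -⟩ := hw
  dsimp only at hp
  rw [par, if_neg (by dsimp only; omega), if_neg (by dsimp only; omega), loc]
  dsimp only
  split_ifs with h8 h1 h10 h1 h9 h7 h4 h4
  · intro u hu
    exact absurd hu (Finset.notMem_empty u)
  · exact yb_pair (yb_post (by omega) (by omega)) (yb_post (by omega) (by omega))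
  · intro u hu
    rw [Finset.mem_singleton.1 hu]
    exact yb_strip h h rfl (by omega) (by omega)
  · exact yb_pair (yb_strip h h rfl (by omega) (by omega)) (yb_post (by omega) (by omega))
  · exact yb_pair (yb_strip h (by omega) (by omega) (by omega) (by omega))
      (yb_strip h (by omega) (by omega) (by omega) (by omega))
  · exact yb_pair (yb_strip h h rfl (by omega) (by omega))
      (yb_strip h (by omega) (by omega) (by omega) (by omega))
  · exact yb_pair (yb_strip h h rfl (by omega) (by omega))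
      (yb_strip h (by omega) (by omega) (by omega) (by omega))
  · exact yb_pair (yb_strip h h rfl (by omega) (by omega))
      (yb_strip h (by omega) (by omega) (by omega) (by omega))
  · exact yb_pair (yb_strip h h rfl (by omega) (by omega))
      (yb_strip h (by omega) (by omega) (by omega) (by omega))

theorem yb_ear_par (h : Opn T c W val st ch) (hy : y < 4 * T) (hp : (x + y) % 2 = 1)
    (he : Ear W st (x, y)) {x' : ℤ} (hx : x' = x - 2 ∨ x' = x + 2) :
    yb_G T c W st ch (x, y) (x', y) := by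
  have he0 := yb_ear.1 he
  have h3 := he0.1
  have ne : ¬ Ear W st (x', y) := by
    rw [yb_ear]
    omega
  by_cases hl : Late c W st ch (x, y)
  · refine ⟨?_, fun hn => absurd hl hn⟩
    have e : key T c W st ch (x, y) = 100 * T + 1 := by rw [key, if_pos hl, if_pos he]
    by_cases hl' : Late c W st ch (x', y)
    · rw [e, key, if_pos hl', if_neg ne]
      omega
    · have := yb_key3' (T := T) h3 hl'
      omega
  · have z1 : ¬ Zone c W (x - 2, y) := fun hz => hl (Or.inr ⟨he, Or.inl hz⟩)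
    have z2 : ¬ Zone c W (x + 2, y) := fun hz => hl (Or.inr ⟨he, Or.inr hz⟩)
    have z0 : ¬ Zone c W (x, y) := fun hz => by
      have := yb_nl_zone h hl hz
      omega
    have nl : ¬ Late c W st ch (x', y) :=
      yb_nl (by rcases hx with rfl | rfl <;> assumption) (Or.inl ne)
    refine ⟨?_, fun _ => ⟨nl, yb_sec ?_⟩⟩
    · rw [yb_key3e hl he, yb_key3 h3 nl ne]
      split_ifs <;> omega
    · obtain ⟨-, b1, b2, -⟩ := he0
      have a0 : x % 16 ≠ 0 := fun e => z0 (yb_zone0 h3 e (by omega) (by omega))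
      have a2 : x % 16 ≠ 2 := fun e => z1 (yb_zone0 h3 (by omega) (by omega) (by omega))
      omega

theorem yb_late_par (hy : y < 4 * T) (he : ¬ Ear W st (x, y)) (hl : Late c W st ch (x, y))
    {x' : ℤ} (hx : x' = x - 4 ∨ x' = x + 4) : yb_G T c W st ch (x, y) (x', y) := by
  have hz : Zone c W (x, y) := hl.elim (fun h => h.1) fun h => absurd h.1 he
  refine ⟨?_, fun hn => absurd hl hn⟩
  rw [yb_zone] at hz
  have he' := he
  rw [yb_ear] at he'
  have nl : ¬ Late c W st ch (x', y) :=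
    yb_nl (by rw [yb_zone]; omega) (Or.inl (by rw [yb_ear]; omega))
  have e : key T c W st ch (x, y) = 100 * T + 0 := by rw [key, if_pos hl, if_neg he]
  have := yb_key3' (T := T) hz.1 nl
  omega

theorem yb_down (h : y % 4 = 3) (he : ¬ Ear W st (x, y)) (hl : ¬ Late c W st ch (x, y)) {x' : ℤ}
    (hs : (x' - 1) / 16 = (x - 1) / 16) : yb_G T c W st ch (x, y) (x', y - 1) := by
  refine ⟨?_, fun _ => ⟨yb_nl_row (by omega), yb_sec hs⟩⟩
  have := yb_key1' (T := T) (c := c) (W := W) (st := st) (ch := ch) (x := x') (y := y - 1)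
    (by omega)
  rw [yb_key3 h hl he]
  split_ifs <;> omega

theorem yb_side (h : y % 4 = 3) (he : ¬ Ear W st (x, y)) (hl : ¬ Late c W st ch (x, y)) {x' : ℤ}
    (he' : ¬ Ear W st (x', y)) (hz : ¬ Zone c W (x', y))
    (hx : (((x - 1) % 16 = 1 ∨ (x - 1) % 16 = 3) ∧ (x' = x + 2 ∨ x' = x + 4)) ∨
      (9 ≤ (x - 1) % 16 ∧ (x' = x - 2 ∨ x' = x - 4))) : yb_G T c W st ch (x, y) (x', y) := by
  have nl : ¬ Late c W st ch (x', y) := yb_nl hz (Or.inl he')
  refine ⟨?_, fun _ => ⟨nl, yb_sec (by omega)⟩⟩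
  rw [yb_key3 h hl he, yb_key3 h nl he']
  split_ifs <;> omega

theorem yb_row3 (h : Opn T c W val st ch) (hw : InS T c W val (x, y)) (h3 : y % 4 = 3) :
    ∀ u ∈ par c W st ch (x, y), yb_G T c W st ch (x, y) u := by
  obtain ⟨-, hy, h1, h2, hp, -⟩ := hw
  dsimp only at hy h1 h2 hp
  rw [par, if_neg (by dsimp only; omega), if_pos h3, loc]
  dsimp only
  split_ifs with he hl h68 h6 e1 e1
  · exact yb_pair (yb_ear_par h hy hp he (Or.inl rfl)) (yb_ear_par h hy hp he (Or.inr rfl))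
  · exact yb_pair (yb_late_par hy he hl (Or.inl rfl)) (yb_late_par hy he hl (Or.inr rfl))
  · exact yb_pair (yb_down h3 he hl (by omega)) (yb_down h3 he hl (by omega))
  · refine yb_pair (yb_side h3 he hl ?_ (by rw [yb_zone]; omega) (by omega))
      (yb_down h3 he hl (by omega))
    rw [yb_ear] at e1 ⊢
    omega
  · exact yb_pair (yb_side h3 he hl e1 (by rw [yb_zone]; omega) (by omega))
      (yb_down h3 he hl (by omega))
  · refine yb_pair (yb_side h3 he hl ?_ (by rw [yb_zone]; omega) (by omega))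
      (yb_down h3 he hl (by omega))
    rw [yb_ear] at e1 ⊢
    omega
  · refine yb_pair (yb_side h3 he hl e1 (fun hz => ?_) (by omega)) (yb_down h3 he hl (by omega))
    rw [yb_zone] at hz
    have := yb_nl_zone h hl (by rw [yb_zone]; omega)
    omega

theorem yb_card {a b a' b' : ℤ} (h : a ≠ a' ∨ b ≠ b') :
    ({(a, b), (a', b')} : Finset Pt).card = 2 :=
  Finset.card_pair fun e => by
    obtain ⟨e1, e2⟩ := Prod.mk.inj e
    omega

theorem yb_two (hw : InS T c W val (x, y)) : (par c W st ch (x, y)).card = 2 ∨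
    ∃ j ≤ W, (x, y) = (16 * (j : ℤ) + 8, (1 : ℤ)) ∨ (x, y) = (16 * (j : ℤ) + 10, (1 : ℤ)) := by
  obtain ⟨-, -, h1, h2, -⟩ := hw
  dsimp only at h1 h2
  by_cases h : y = 1 ∧ (x % 16 = 8 ∨ x % 16 = 10)
  · refine Or.inr ⟨(x / 16).toNat, by omega, ?_⟩
    simp only [Prod.mk.injEq]
    omega
  · left
    rw [par, loc]
    dsimp only
    split_ifs <;> first | exact yb_card (by omega) | omega

theorem yb_start {j : ℕ} (hT : 0 < T) (hj : j ≤ W) {a : ℤ} (ha : a = 8 ∨ a = 10) :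
    InS T c W val (16 * (j : ℤ) + a, 1) := by
  refine ⟨?_, ?_, ?_, ?_, ?_, fun h => ?_, fun _ i _ => ?_, fun h => ?_⟩ <;> dsimp only at *
  any_goals omega
  unfold zx
  split_ifs <;> omega

theorem yb_bar (h : Opn T c W val st ch) {j : ℕ} (hj : j < W) (k : Fin 3) {a : ℤ}
    (ha : a = 0 ∨ a = 4) : InS T c W val (zx c j + a, 4 * (ch j k : ℤ) + 3) := by
  have := h.lt j hj k
  unfold zx
  refine ⟨?_, ?_, ?_, ?_, ?_, fun h => ?_, fun h => ?_, fun h => ?_⟩ <;> dsimp only at * <;>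
    omega

end

theorem yes_glue {T c W : ℕ} {val : ℕ → ℕ → Bool} {st : ℕ → Bool} {ch : ℕ → Fin 3 → ℕ}
    {S : Finset Pt} (hS : ∀ p, p ∈ S ↔ InS T c W val p) (hT : 0 < T) (h : Opn T c W val st ch) :
    Glue S W (par c W st ch) (key T c W st ch) sec (Late c W st ch) (ba c ch) (bb c ch)
      (fun j => (16 * j + 8, 1)) (fun j => (16 * j + 10, 1)) := by
  refine ⟨?_, ?_, fun j hj => ⟨(hS _).2 (yb_start hT hj (Or.inl rfl)), ?_, ?_⟩,
    fun j hj => ⟨(hS _).2 (yb_start hT hj (Or.inr rfl)), ?_, ?_⟩, fun j hj k => ?_,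
    fun j hj => ⟨fun k k' e => h.inj j hj ?_, fun k k' e => h.inj j hj ?_⟩⟩
  · rintro ⟨x, y⟩ hw u hu
    have hw' := (hS _).1 hw
    refine ⟨(hS _).2 (yes_mem h hw' u hu), ?_⟩
    rcases (by omega : y % 4 = 0 ∨ (y % 4 = 1 ∨ y % 4 = 2) ∨ y % 4 = 3) with h0 | h0 | h0
    · exact yb_row0 hw' h0 u hu
    · exact yb_row12 hw' h0 u hu
    · exact yb_row3 h hw' h0 u hu
  · rintro ⟨x, y⟩ hw
    exact yb_two ((hS _).1 hw)
  · rw [par, loc, if_neg (by norm_num), if_neg (by norm_num), if_pos (by dsimp only; omega),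
      if_pos rfl, Finset.card_empty]
  · unfold sec
    dsimp only
    omega
  · rw [par, loc, if_neg (by norm_num), if_neg (by norm_num), if_neg (by dsimp only; omega),
      if_pos (by dsimp only; omega), if_pos rfl, Finset.card_singleton]
  · unfold sec
    dsimp only
    omega
  · have hu : Used c W ch (zx c j, 4 * (ch j k : ℤ) + 3) := ⟨j, hj, k, rfl⟩
    have hb := yb_used h hu
    have hz : (j < c ∧ zx c j = 16 * j + 16) ∨ (c ≤ j ∧ zx c j = 16 * j + 14) := by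
      unfold zx
      split_ifs <;> omega
    have a0 := yb_bar h hj k (Or.inl rfl)
    rw [add_zero] at a0
    refine ⟨(hS _).2 a0, (hS _).2 (yb_bar h hj k (Or.inr rfl)), ?_, ?_, ?_, ?_⟩
    · rintro (hl | hl)
      · exact hl.2 hu
      · have := yb_ear.1 hl.1
        omega
    · exact yb_nl (by rw [yb_zone]; omega) (Or.inl (by rw [yb_ear]; omega))
    · unfold sec ba
      dsimp only
      omega
    · unfold sec bb
      dsimp only
      omega
  · have := (Prod.mk.inj e).2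
    omega
  · have := (Prod.mk.inj e).2
    omega

end Pool.Agent.Lib.MP_1a3fd7_lc.Pl
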