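import Pool.Agent.Lib.MP_1a3fd7_lc.Pl.YC

namespace Pool.Agent.Lib.MP_1a3fd7_lc.Pl

section

variable {T c W : ℕ} {val : ℕ → ℕ → Bool} {st : ℕ → Bool} {ch : ℕ → Fin 3 → ℕ} {S : Finset Pt}

theorem yd_par {u w : Pt} (hw : w ∈ S) (hu : u ∈ par c W st ch w) :
    s(u, w) ∈ yesE S c W st ch :=
  Finset.mem_union_left _ (Finset.mem_biUnion.2 ⟨w, hw, Finset.mem_image_of_mem _ hu⟩)

theorem yd_par' {u w : Pt} (hw : w ∈ S) (hu : u ∈ par c W st ch w) :
    s(w, u) ∈ yesE S c W st ch :=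
  Sym2.eq_swap ▸ yd_par hw hu

theorem yd_bar {j : ℕ} (hj : j < W) (k : Fin 3) :
    s(ba c ch j k, bb c ch j k) ∈ yesE S c W st ch :=
  Finset.mem_union_right _ (Finset.mem_image.2
    ⟨(j, k), Finset.mem_product.2 ⟨Finset.mem_range.2 hj, Finset.mem_univ _⟩, rfl⟩)

theorem yd_zx (c j : ℕ) : zx c j = 16 * j + 16 ∨ zx c j = 16 * j + 14 := by
  unfold zx
  split_ifs <;> simp

theorem yd_p0 {x y x' : ℤ} (hy : y % 4 = 0) (hx : x % 16 = 9) (e : x' = x - 2) :
    (x', y) ∈ par c W st ch (x, y) := by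
  rw [par, if_pos hy, if_neg (by simp only [loc]; omega), e]
  simp

theorem yd_lo {x y : ℤ} (hy : y % 4 = 1 ∨ y % 4 = 2) (hx : (x - 1) % 16 + 1 < 8) :
    par c W st ch (x, y) = {(x + 2, y), (x + 1, if y % 4 = 1 then y + 1 else y - 1)} := by
  rw [par, if_neg (by simp only; omega), if_neg (by simp only; omega),
    if_neg (by simp only [loc]; omega), if_neg (by simp only [loc]; omega),
    if_neg (by simp only [loc]; omega), if_pos (by simp only [loc]; omega)]

theorem yd_hi {x y : ℤ} (hy : y % 4 = 1 ∨ y % 4 = 2) (hx : 10 < (x - 1) % 16 + 1) :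
    par c W st ch (x, y) = {(x - 2, y), (x - 1, if y % 4 = 1 then y + 1 else y - 1)} := by
  rw [par, if_neg (by simp only; omega), if_neg (by simp only; omega),
    if_neg (by simp only [loc]; omega), if_neg (by simp only [loc]; omega),
    if_neg (by simp only [loc]; omega), if_neg (by simp only [loc]; omega)]

theorem yd_ten {x y : ℤ} (hy : y % 4 = 1 ∨ y % 4 = 2) (hx : (x - 1) % 16 + 1 = 10) :
    (x - 2, y) ∈ par c W st ch (x, y) := by
  rw [par, if_neg (by simp only; omega), if_neg (by simp only; omega),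
    if_neg (by simp only [loc]; omega), if_pos (by simp only [loc]; omega)]
  split_ifs <;> simp

theorem yd_nine {x y : ℤ} (hy : y % 4 = 1 ∨ y % 4 = 2) (hx : (x - 1) % 16 + 1 = 9) :
    par c W st ch (x, y) = {(x - 1, y - 1), (x + 1, y - 1)} := by
  rw [par, if_neg (by simp only; omega), if_neg (by simp only; omega),
    if_neg (by simp only [loc]; omega), if_neg (by simp only [loc]; omega),
    if_pos (by simp only [loc]; omega)]

theorem yd_ear {x y : ℤ} (h : Ear W st (x, y)) :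
    par c W st ch (x, y) = {(x - 2, y), (x + 2, y)} := by
  have hy : y % 4 = 3 := h.1
  rw [par, if_neg (by simp only; omega), if_pos hy, if_pos h]

theorem yd_late {x y : ℤ} (hy : y % 4 = 3) (h : ¬ Ear W st (x, y)) (h' : Late c W st ch (x, y)) :
    par c W st ch (x, y) = {(x - 4, y), (x + 4, y)} := by
  rw [par, if_neg (by simp only; omega), if_pos hy, if_neg h, if_pos h']

theorem yd_clo {x y : ℤ} (hy : y % 4 = 3) (h : ¬ Ear W st (x, y)) (h' : ¬ Late c W st ch (x, y))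
    (hx : (x - 1) % 16 + 1 < 6) :
    (if Ear W st (x + 2, y) then (x + 4, y) else (x + 2, y)) ∈ par c W st ch (x, y) := by
  rw [par, if_neg (by simp only; omega), if_pos hy, if_neg h, if_neg h',
    if_neg (by simp only [loc]; omega), if_pos (by simp only [loc]; omega)]
  exact Finset.mem_insert_self _ _

theorem yd_chi {x y : ℤ} (hy : y % 4 = 3) (h : ¬ Ear W st (x, y)) (h' : ¬ Late c W st ch (x, y))
    (hx : 8 < (x - 1) % 16 + 1) :
    (if Ear W st (x - 2, y) then (x - 4, y) else (x - 2, y)) ∈ par c W st ch (x, y) := by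
  rw [par, if_neg (by simp only; omega), if_pos hy, if_neg h, if_neg h',
    if_neg (by simp only [loc]; omega), if_neg (by simp only [loc]; omega)]
  exact Finset.mem_insert_self _ _

theorem yd_nlate {x y : ℤ} (h : ¬ Ear W st (x, y)) (hx : x < 14 ∨ 16 * W + 2 < x) :
    ¬ Late c W st ch (x, y) := by
  rintro (⟨⟨-, j, hj, e⟩, -⟩ | ⟨e, -⟩)
  · have := yd_zx c j
    simp only at e
    omega
  · exact h e

theorem yd_path (hS : ∀ p, p ∈ S ↔ InS T c W val p) {x y : ℤ} (h1 : (x, y) ∈ S)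
    (h2 : (x + 2, y) ∈ S) : s((x, y), (x + 2, y)) ∈ yesE S c W st ch := by
  obtain ⟨-, -, a3, -, a5, a6, a7, a8⟩ := (hS _).1 h1
  obtain ⟨-, -, -, b4, -, b6, -, b8⟩ := (hS _).1 h2
  simp only at a3 a5 a6 a7 a8 b4 b6 b8
  have e2 : x = x + 2 - 2 := by ring
  by_cases y0 : y % 4 = 0
  · have := a6 y0
    have := b6 y0
    exact yd_par h2 (yd_p0 y0 (by omega) e2)
  by_cases y3 : y % 4 = 3
  · by_cases c1 : Ear W st (x, y)
    · exact yd_par' h1 (by rw [yd_ear c1]; simp)
    by_cases c2 : Ear W st (x + 2, y)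
    · exact yd_par h2 (by rw [yd_ear c2]; simp)
    have c3 : x = 2 ∨ x = 16 * W + 10 := by
      by_contra hn
      apply c1
      refine ⟨y3, by simp only; omega, by simp only; omega, ?_⟩
      by_contra hm
      apply c2
      refine ⟨y3, by simp only; omega, by simp only; omega, ?_⟩
      simp only at hm ⊢
      have : (x + 2) % 4 = 2 ↔ ¬ x % 4 = 2 := by omega
      tauto
    rcases c3 with c3 | c3
    · have := yd_clo (c := c) (ch := ch) y3 c1 (yd_nlate c1 (by omega)) (by omega)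
      rw [if_neg c2] at this
      exact yd_par' h1 this
    · have := yd_chi (c := c) (ch := ch) y3 c2 (yd_nlate c2 (by omega)) (by omega)
      rw [← e2, if_neg c1] at this
      exact yd_par h2 this
  have hy : y % 4 = 1 ∨ y % 4 = 2 := by omega
  by_cases l1 : (x - 1) % 16 + 1 < 8
  · exact yd_par' h1 (by rw [yd_lo hy l1]; simp)
  by_cases l2 : (x - 1) % 16 + 1 = 8
  · have := yd_ten (c := c) (W := W) (st := st) (ch := ch) (x := x + 2) hy (by omega)
    rw [← e2] at this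
    exact yd_par h2 this
  by_cases l3 : (x - 1) % 16 + 1 < 15
  · exact yd_par h2 (by rw [yd_hi hy (by omega)]; simp)
  obtain ⟨j, hj⟩ : ∃ j : ℕ, (j : ℤ) = (x - 1) / 16 := ⟨((x - 1) / 16).toNat, by omega⟩
  have hz := yd_zx c j
  rcases hy with hy | hy
  · have := a7 hy j (by omega)
    omega
  · have := a8 hy j (by omega)
    have := b8 hy j (by omega)
    omega

theorem yd_leg (hS : ∀ p, p ∈ S ↔ InS T c W val p) {x y d : ℤ} (hy : y % 4 = 2)
    (hd : d = 1 ∨ d = -1) (h1 : (x, y) ∈ S) (h2 : (x + d, y - 1) ∈ S) :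
    s((x, y), (x + d, y - 1)) ∈ yesE S c W st ch := by
  obtain ⟨-, -, -, a4, a5, -, -, -⟩ := (hS _).1 h1
  obtain ⟨-, -, b3, -, -, -, b7, -⟩ := (hS _).1 h2
  simp only at a4 a5 b3 b7
  have y1 : (y - 1) % 4 = 1 := by omega
  have y2 : ¬ y % 4 = 1 := by omega
  by_cases l1 : (x - 1) % 16 + 1 = 9
  · refine yd_par' h1 ?_
    rw [yd_nine (Or.inr hy) l1]
    rcases hd with rfl | rfl <;> simp [sub_eq_add_neg]
  rcases hd with rfl | rfl
  · by_cases l2 : (x - 1) % 16 + 1 < 8
    · exact yd_par' h1 (by rw [yd_lo (Or.inr hy) l2, if_neg y2]; simp)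
    · exact yd_par h2 (by rw [yd_hi (Or.inl y1) (by omega), if_pos y1]; simp)
  · by_cases l2 : 10 < (x - 1) % 16 + 1
    · exact yd_par' h1 (by rw [yd_hi (Or.inr hy) l2, if_neg y2]; simp [sub_eq_add_neg])
    by_cases l3 : 1 < (x - 1) % 16 + 1
    · exact yd_par h2 (by rw [yd_lo (Or.inl y1) (by omega), if_pos y1]; simp)
    obtain ⟨j, hj⟩ : ∃ j : ℕ, (j : ℤ) = (x - 1) / 16 - 1 := ⟨((x - 1) / 16 - 1).toNat, by omega⟩
    have hz := yd_zx c j
    have := b7 y1 j (by omega)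
    omega

theorem yd_chain (hS : ∀ p, p ∈ S ↔ InS T c W val p) {x y : ℤ} (y0 : 0 ≤ y) (y1 : y < 4 * T)
    (hy : y % 4 = 3) (x0 : 1 ≤ x) (x1 : x ≤ 16 * W + 13) (hx : x % 2 = 0) : (x, y) ∈ S :=
  (hS _).2 ⟨y0, y1, x0, x1, by simp only; omega, fun h => by simp only at h; omega,
    fun h => by simp only at h; omega, fun h => by simp only at h; omega⟩

theorem yd_sk (hS : ∀ p, p ∈ S ↔ InS T c W val p) {x y : ℤ} (h1 : (x, y) ∈ S)
    (he : Ear W st (x, y)) : sk x y ∈ yesE S c W st ch := by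
  obtain ⟨a1, a2, -, -, a5, -, -, -⟩ := (hS _).1 h1
  obtain ⟨hy, e2, e3, e4⟩ := id he
  simp only at a1 a2 a5 hy e2 e3 e4
  have hp := yd_chain hS a1 a2 hy (x := x - 2) (by omega) (by omega) (by omega)
  have hq := yd_chain hS a1 a2 hy (x := x + 2) (by omega) (by omega) (by omega)
  have np : ¬ Ear W st (x - 2, y) := fun h => by
    have := h.2.2.2.trans e4.symm
    simp only at this
    omega
  have nq : ¬ Ear W st (x + 2, y) := fun h => by
    have := h.2.2.2.trans e4.symm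
    simp only at this
    omega
  have f1 : x - 2 + 4 = x + 2 := by ring
  have f2 : x + 2 - 4 = x - 2 := by ring
  unfold sk
  by_cases lp : Late c W st ch (x - 2, y)
  · exact yd_par' hp (by rw [yd_late hy np lp, f1]; simp)
  by_cases lq : Late c W st ch (x + 2, y)
  · exact yd_par hq (by rw [yd_late hy nq lq, f2]; simp)
  by_cases up : Used c W ch (x - 2, y)
  · obtain ⟨j, hj, k, e⟩ := up
    have := yd_bar (S := S) (c := c) (st := st) (ch := ch) hj k
    obtain ⟨g1, g2⟩ := Prod.mk.inj e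
    rwa [ba, bb, ← g1, ← g2, f1] at this
  by_cases l1 : (x - 2 - 1) % 16 + 1 < 6
  · have := yd_clo hy np lp l1
    rw [sub_add_cancel, if_pos he, f1] at this
    exact yd_par' hp this
  by_cases l2 : (x - 2 - 1) % 16 + 1 < 14
  · have := yd_chi hy nq lq (by omega)
    rw [add_sub_cancel_right, if_pos he, f2] at this
    exact yd_par hq this
  obtain ⟨j, hj⟩ : ∃ j : ℕ, (j : ℤ) = (x - 2 - 1) / 16 := ⟨((x - 2 - 1) / 16).toNat, by omega⟩
  have hz := yd_zx c j
  have jW : j < W := by omega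
  have z1 : ¬ (x - 2 = zx c j ∨ x - 2 = zx c j + 2) := fun h => lp (Or.inl ⟨⟨hy, j, jW, h⟩, up⟩)
  refine absurd (Or.inl ⟨⟨hy, j, jW, Or.inr (by simp only; omega)⟩, ?_⟩) lq
  rintro ⟨j', -, k, e⟩
  have := yd_zx c j'
  have := (Prod.mk.inj e).1
  omega

theorem yd_d1 {e : Sym2 Pt} (h : IsPath e) : ¬ IsCSk e ∧ ¬ IsSLeg e := by
  obtain ⟨x, y, rfl⟩ := h
  constructor
  · rintro ⟨x', y', -, e⟩
    simp only [sk, Sym2.eq_iff, Prod.mk.injEq] at e
    omega
  · rintro ⟨x', y', -, e⟩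
    simp only [Sym2.eq_iff, Prod.mk.injEq] at e
    omega

theorem yd_d2 {e : Sym2 Pt} (h : IsSk e) : ¬ IsSLeg e := by
  obtain ⟨x, y, rfl⟩ := h
  rintro ⟨x', y', -, e⟩
  simp only [sk, Sym2.eq_iff, Prod.mk.injEq] at e
  omega

open Classical in
theorem yd_pt {e : Sym2 Pt} (h : IsPath e ∨ IsCSk e ∨ IsLeg e) :
    nlen e + 26 * (if IsSLeg e then 1 else 0) + 23 * (if IsPath e then 1 else 0) +
      5 * (if IsCSk e then 1 else 0) ≤ 41 := by
  unfold nlen
  by_cases h1 : IsPath e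
  · simp [h1, yd_d1 h1]
  by_cases h2 : IsSk e
  · simp only [h1, h2, yd_d2 h2, if_true, if_false]
    split_ifs <;> omega
  have h3 : ¬ IsCSk e := fun ⟨x, y, _, e⟩ => h2 ⟨x, y, e⟩
  by_cases h4 : IsSLeg e
  · simp [h1, h2, h3, h4]
  · have h5 : IsLeg e := (h.resolve_left h1).resolve_left h3
    simp [h1, h2, h3, h4, h5]

end

theorem yes_has {T c W : ℕ} {val : ℕ → ℕ → Bool} {st : ℕ → Bool} {ch : ℕ → Fin 3 → ℕ}
    {S : Finset Pt} (hS : ∀ p, p ∈ S ↔ InS T c W val p) (h : Opn T c W val st ch) :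
    (∀ x y, (x, y) ∈ S → (x + 2, y) ∈ S → s((x, y), (x + 2, y)) ∈ yesE S c W st ch) ∧
      (∀ x y d, y % 4 = 2 → d = 1 ∨ d = -1 → (x, y) ∈ S → (x + d, y - 1) ∈ S →
        s((x, y), (x + d, y - 1)) ∈ yesE S c W st ch) ∧
      ∀ x y, (x, y) ∈ S → Ear W st (x, y) → sk x y ∈ yesE S c W st ch :=
  ⟨fun _ _ => yd_path hS, fun _ _ _ => yd_leg hS, fun _ _ => yd_sk hS⟩

theorem yes_light {T c W : ℕ} {val : ℕ → ℕ → Bool} {st : ℕ → Bool} {ch : ℕ → Fin 3 → ℕ}
    {S : Finset Pt} (hS : ∀ p, p ∈ S ↔ InS T c W val p) (h : Opn T c W val st ch) :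
    Light T W S (yesE S c W st ch) := by
  classical
  have h0 := Finset.sum_le_card_nsmul (yesE S c W st ch) _ 41
    fun e he => yd_pt ((yes_short hS h).1 e he)
  simp only [Finset.sum_add_distrib, ← Finset.mul_sum, ← Finset.card_filter, smul_eq_mul] at h0
  have h1 : pathN S ≤ ((yesE S c W st ch).filter fun e => IsPath e).card := by
    refine Finset.card_le_card_of_injOn (fun p => s(p, (p.1 + 2, p.2))) ?_ ?_
    · rintro ⟨x, y⟩ hp
      obtain ⟨a, b⟩ := Finset.mem_filter.1 (Finset.mem_coe.1 hp)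
      exact Finset.mem_coe.2 (Finset.mem_filter.2 ⟨yd_path hS a b, x, y, rfl⟩)
    · rintro ⟨x, y⟩ - ⟨x', y'⟩ - e
      simp only [Sym2.eq_iff, Prod.mk.injEq] at e ⊢
      omega
  have h2 : legN S ≤ ((yesE S c W st ch).filter fun e => IsSLeg e).card := by
    refine Finset.card_le_card_of_injOn
      (fun p => s(p, (p.1 + 1, if p.2 % 4 = 1 then p.2 + 1 else p.2 - 1))) ?_ ?_
    · rintro ⟨x, y⟩ hp
      obtain ⟨a, ⟨b, b'⟩ | ⟨b, b'⟩⟩ := Finset.mem_filter.1 (Finset.mem_coe.1 hp)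
      · have e : s((x, y), (x + 1, y + 1)) = s((x + 1, y + 1), (x + 1 + -1, y + 1 - 1)) := by
          simp
        simp only at b b'
        simp only [if_pos b, e]
        refine Finset.mem_coe.2 (Finset.mem_filter.2 ⟨yd_leg hS (by omega) (Or.inr rfl) b' ?_,
          x + 1, y + 1, by omega, Or.inl rfl⟩)
        simpa using a
      · simp only at b b'
        simp only [if_neg (show ¬ y % 4 = 1 by omega)]
        exact Finset.mem_coe.2 (Finset.mem_filter.2 ⟨yd_leg hS b (Or.inl rfl) a b',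
          x, y, b, Or.inr rfl⟩)
    · rintro ⟨x, y⟩ - ⟨x', y'⟩ - e
      simp only [Sym2.eq_iff, Prod.mk.injEq] at e ⊢
      omega
  have h3 : T * (4 * W + 2) ≤ ((yesE S c W st ch).filter fun e => IsCSk e).card := by
    have e0 : T * (4 * W + 2) = (Finset.range T ×ˢ Finset.range (4 * W + 2)).card := by simp
    rw [e0]
    refine Finset.card_le_card_of_injOn (fun p => sk
      (if st p.1 = true then 4 * (p.2 : ℤ) + 6 else 4 * (p.2 : ℤ) + 4) (4 * (p.1 : ℤ) + 3)) ?_ ?_
    · rintro ⟨t, m⟩ hp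
      obtain ⟨a, b⟩ := Finset.mem_product.1 (Finset.mem_coe.1 hp)
      simp only [Finset.mem_range] at a b
      have e : ((4 * (t : ℤ) + 3) / 4).toNat = t := by omega
      refine Finset.mem_coe.2 (Finset.mem_filter.2 ⟨yd_sk hS (yd_chain hS (by omega) (by omega)
        (by omega) ?_ ?_ ?_) ⟨by simp only; omega, ?_, ?_, ?_⟩, _, _, by omega, rfl⟩)
      · split_ifs <;> omega
      · split_ifs <;> omega
      · split_ifs <;> omega
      · simp only
        split_ifs <;> omega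
      · simp only
        split_ifs <;> omega
      · simp only [e]
        split_ifs with g
        · exact iff_of_true (by omega) g
        · exact iff_of_false (by omega) g
    · rintro ⟨t, m⟩ - ⟨t', m'⟩ - e
      simp only [sk, Sym2.eq_iff, Prod.mk.injEq] at e ⊢
      split_ifs at e <;> omega
  unfold Light
  omega

end Pool.Agent.Lib.MP_1a3fd7_lc.Pl
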