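import Pool.Agent.Lib.MP_1a3fd7_lc.Pl.Nom

namespace Pool.Agent.Lib.MP_1a3fd7_lc.Pl

open Finset

/-- The number of parent edges inside `X`. -/
def ygP (par : Pt → Finset Pt) (X : Finset Pt) : ℕ := ∑ w ∈ X, (par w ∩ X).card

/-- The bars inside `X`. -/
def ygB (W : ℕ) (ba bb : ℕ → Fin 3 → Pt) (X : Finset Pt) : Finset (ℕ × Fin 3) :=
  (range W ×ˢ univ).filter fun x => ba x.1 x.2 ∈ X ∧ bb x.1 x.2 ∈ X

theorem yg_memB {W : ℕ} {ba bb : ℕ → Fin 3 → Pt} {X : Finset Pt} {x : ℕ × Fin 3} :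
    x ∈ ygB W ba bb X ↔ x.1 < W ∧ ba x.1 x.2 ∈ X ∧ bb x.1 x.2 ∈ X := by
  simp [ygB]

theorem yg_ins {par : Pt → Finset Pt} {X : Finset Pt} {a : Pt} (ha : a ∉ X)
    (h2 : (par a).card ≤ 2) (h0 : a ∉ par a) (h : ∀ w ∈ X, a ∉ par w) :
    ∃ d ≤ 2, d ≤ X.card ∧ ygP par (insert a X) = ygP par X + d := by
  refine ⟨(par a ∩ X).card, (card_le_card inter_subset_left).trans h2,
    card_le_card inter_subset_right, ?_⟩
  rw [ygP, sum_insert ha, inter_insert_of_notMem h0, add_comm]
  exact congrArg (· + _) (sum_congr rfl fun w hw => by rw [inter_insert_of_notMem (h w hw)])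

section
variable {S : Finset Pt} {W : ℕ} {par : Pt → Finset Pt} {key : Pt → ℤ} {sec : Pt → ℕ}
  {late : Pt → Prop} {ba bb : ℕ → Fin 3 → Pt} {s1 s2 : ℕ → Pt}

theorem Glue.yg_two (h : Glue S W par key sec late ba bb s1 s2) {w : Pt} (hw : w ∈ S) :
    (par w).card ≤ 2 := by
  rcases h.two w hw with e | ⟨j, hj, rfl | rfl⟩
  · exact e.le
  · exact (h.st1 j hj).2.1.trans_le (by omega)
  · exact (h.st2 j hj).2.1.trans_le (by omega)

theorem Glue.yg_self (h : Glue S W par key sec late ba bb s1 s2) {w : Pt} (hw : w ∈ S) :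
    w ∉ par w := fun c => lt_irrefl _ (h.mem w hw w c).2.1

theorem Glue.yg_par (h : Glue S W par key sec late ba bb s1 s2) (X : Finset Pt) :
    X ⊆ S → ygP par X ≤ 2 * X.card - 3 := by
  induction X using Finset.induction_on_max_value key with
  | empty => exact fun _ => Nat.zero_le _
  | insert a s ha hm ih =>
    intro hs
    obtain ⟨h1, h2⟩ := insert_subset_iff.1 hs
    obtain ⟨d, d1, d2, e⟩ := yg_ins ha (h.yg_two h1) (h.yg_self h1) fun w hw c =>
      (h.mem w (h2 hw) a c).2.1.not_ge (hm w hw)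
    have := ih h2
    rw [e, card_insert_of_notMem ha]
    omega

theorem Glue.yg_early (h : Glue S W par key sec late ba bb s1 s2) (J : ℕ) :
    ∀ X ⊆ S, (∀ p ∈ X, ¬ late p ∧ sec p < J) →
      ygP par X + (ygB W ba bb X).card ≤ 2 * X.card - 3 := by
  induction J with
  | zero =>
    intro X _ hX
    obtain rfl : X = ∅ := eq_empty_of_forall_notMem fun p hp => Nat.not_lt_zero _ (hX p hp).2
    simp [ygP, ygB]
  | succ J ih =>
    intro X hS hX
    have i1 := ih (X.filter fun p => sec p < J) ((filter_subset _ _).trans hS)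
      fun p hp => ⟨(hX p (mem_filter.1 hp).1).1, (mem_filter.1 hp).2⟩
    have i2 := h.yg_par (X.filter fun p => ¬ sec p < J) ((filter_subset _ _).trans hS)
    have c := card_filter_add_card_filter_not (s := X) fun p => sec p < J
    have e : ∀ q : ℕ → Prop, ∀ [DecidablePred q], ∑ w ∈ X.filter fun p => q (sec p),
        (par w ∩ X).card = ygP par (X.filter fun p => q (sec p)) := fun q _ =>
      sum_congr rfl fun w hw => congrArg card (Finset.ext fun u => by
        obtain ⟨w1, w2⟩ := mem_filter.1 hw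
        simp only [mem_inter, mem_filter, and_congr_right_iff, iff_self_and]
        exact fun hu _ => ((h.mem w (hS w1) u hu).2.2 (hX w w1).1).2 ▸ w2)
    have e1 := sum_filter_add_sum_filter_not X (fun p => sec p < J) fun w => (par w ∩ X).card
    rw [e fun n => n < J, e fun n => ¬ n < J] at e1
    have e2 := card_filter_add_card_filter_not (s := ygB W ba bb X) fun x => x.1 + 1 < J
    have b1 : ((ygB W ba bb X).filter fun x => x.1 + 1 < J).card ≤
        (ygB W ba bb (X.filter fun p => sec p < J)).card := card_le_card fun x hx => by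
      obtain ⟨x1, x2⟩ := mem_filter.1 hx
      obtain ⟨y1, y2, y3⟩ := yg_memB.1 x1
      obtain ⟨-, -, -, -, z1, z2⟩ := h.bar x.1 y1 x.2
      exact yg_memB.2 ⟨y1, mem_filter.2 ⟨y2, by omega⟩, mem_filter.2 ⟨y3, by omega⟩⟩
    have k : ∀ x ∈ (ygB W ba bb X).filter fun x => ¬ x.1 + 1 < J, x.1 + 1 = J ∧ x.1 < W ∧
        ba x.1 x.2 ∈ X.filter (fun p => sec p < J) ∧
          bb x.1 x.2 ∈ X.filter fun p => ¬ sec p < J := fun x hx => by
      obtain ⟨x1, x2⟩ := mem_filter.1 hx
      obtain ⟨y1, y2, y3⟩ := yg_memB.1 x1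
      obtain ⟨-, -, -, -, z1, z2⟩ := h.bar x.1 y1 x.2
      have := (hX _ y3).2
      exact ⟨by omega, y1, mem_filter.2 ⟨y2, by omega⟩, mem_filter.2 ⟨y3, by omega⟩⟩
    have f : ∀ x ∈ (ygB W ba bb X).filter fun x => ¬ x.1 + 1 < J,
        ∀ y ∈ (ygB W ba bb X).filter fun x => ¬ x.1 + 1 < J, x.1 = y.1 := fun x hx y hy => by
      have := (k x hx).1
      have := (k y hy).1
      omega
    have b2 := card_le_card_of_injOn (t := univ) Prod.snd (fun x _ => mem_coe.2 (mem_univ _))
      fun x hx y hy e => Prod.ext (f x hx y hy) e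
    have b3 := card_le_card_of_injOn (fun x => ba x.1 x.2) (fun x hx => (k x hx).2.2.1)
      fun x hx y hy e => Prod.ext (f x hx y hy)
        ((h.inj x.1 (k x hx).2.1).1 (e.trans (by rw [f x hx y hy])))
    have b4 := card_le_card_of_injOn (fun x => bb x.1 x.2) (fun x hx => (k x hx).2.2.2)
      fun x hx y hy e => Prod.ext (f x hx y hy)
        ((h.inj x.1 (k x hx).2.1).2 (e.trans (by rw [f x hx y hy])))
    rw [card_univ, Fintype.card_fin] at b2
    unfold ygP at i1 i2 e1 ⊢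
    omega

theorem Glue.yg_late (h : Glue S W par key sec late ba bb s1 s2) {N : Finset Pt} (hN : N ⊆ S)
    (hl : ∀ p ∈ N, ¬ late p) (Y : Finset Pt) : Y ⊆ S → (∀ p ∈ Y, late p) →
      ygP par (Y ∪ N) + (ygB W ba bb (Y ∪ N)).card ≤ 2 * (Y ∪ N).card - 3 := by
  induction Y using Finset.induction_on_max_value key with
  | empty =>
    intro _ _
    rw [empty_union]
    exact h.yg_early (N.sup sec + 1) N hN fun p hp => ⟨hl p hp, Nat.lt_succ_of_le (le_sup hp)⟩
  | insert a s ha hm ih =>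
    intro hs hY
    obtain ⟨h1, h2⟩ := insert_subset_iff.1 hs
    have la := hY a (mem_insert_self _ _)
    have ha' : a ∉ s ∪ N := fun c => (mem_union.1 c).elim ha fun c => hl a c la
    obtain ⟨d, d1, d2, e⟩ := yg_ins ha' (h.yg_two h1) (h.yg_self h1) fun w hw c =>
      (mem_union.1 hw).elim (fun hw => (h.mem w (h2 hw) a c).2.1.not_ge (hm w hw))
        fun hw => ((h.mem w (hN hw) a c).2.2 (hl w hw)).1 la
    have i := ih h2 fun p hp => hY p (mem_insert_of_mem hp)
    have b : (ygB W ba bb (insert a (s ∪ N))).card ≤ (ygB W ba bb (s ∪ N)).card :=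
      card_le_card fun x hx => by
        obtain ⟨y1, y2, y3⟩ := yg_memB.1 hx
        obtain ⟨-, -, z1, z2, -⟩ := h.bar x.1 y1 x.2
        exact yg_memB.2 ⟨y1, (mem_insert.1 y2).resolve_left fun c => z1 (c ▸ la),
          (mem_insert.1 y3).resolve_left fun c => z2 (c ▸ la)⟩
    rw [insert_union, e, card_insert_of_notMem ha']
    omega

theorem Glue.yg_sum (h : Glue S W par key sec late ba bb s1 s2) :
    ∑ w ∈ S, (par w).card + 3 * (W + 1) = 2 * S.card := by
  have i1 : Set.InjOn s1 (range (W + 1) : Finset ℕ) := fun i hi j hj e => by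
    rw [← (h.st1 i (mem_range_succ_iff.1 hi)).2.2, e, (h.st1 j (mem_range_succ_iff.1 hj)).2.2]
  have i2 : Set.InjOn s2 (range (W + 1) : Finset ℕ) := fun i hi j hj e => by
    rw [← (h.st2 i (mem_range_succ_iff.1 hi)).2.2, e, (h.st2 j (mem_range_succ_iff.1 hj)).2.2]
  have d : Disjoint ((range (W + 1)).image s1) ((range (W + 1)).image s2) :=
    disjoint_left.2 fun p hp hq => by
      obtain ⟨i, hi, rfl⟩ := mem_image.1 hp
      obtain ⟨j, hj, e⟩ := mem_image.1 hq
      have := (h.st2 j (mem_range_succ_iff.1 hj)).2.1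
      rw [e, (h.st1 i (mem_range_succ_iff.1 hi)).2.1] at this
      omega
  have s : (range (W + 1)).image s1 ∪ (range (W + 1)).image s2 ⊆ S :=
    union_subset (image_subset_iff.2 fun j hj => (h.st1 j (mem_range_succ_iff.1 hj)).1)
      (image_subset_iff.2 fun j hj => (h.st2 j (mem_range_succ_iff.1 hj)).1)
  have c := card_sdiff_add_card_eq_card s
  rw [← sum_sdiff s, sum_union d, sum_image i1, sum_image i2,
    sum_const_nat (m := 2) fun w hw => ?_,
    sum_const_nat fun j hj => (h.st1 j (mem_range_succ_iff.1 hj)).2.1,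
    sum_const_nat fun j hj => (h.st2 j (mem_range_succ_iff.1 hj)).2.1]
  · rw [card_union_of_disjoint d, card_image_of_injOn i1, card_image_of_injOn i2] at c
    rw [card_range] at c ⊢
    omega
  · obtain ⟨w1, w2⟩ := mem_sdiff.1 hw
    refine (h.two w w1).resolve_right fun ⟨j, hj, e⟩ => w2 (mem_union.2 ?_)
    exact e.imp (fun e => mem_image.2 ⟨j, mem_range_succ_iff.2 hj, e.symm⟩)
      fun e => mem_image.2 ⟨j, mem_range_succ_iff.2 hj, e.symm⟩

theorem Glue.yg_card (h : Glue S W par key sec late ba bb s1 s2) :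
    (glueE S W par ba bb).card = ∑ w ∈ S, (par w).card + W * 3 := by
  rw [glueE, card_union_of_disjoint, card_biUnion, card_image_of_injOn, card_product, card_range,
    card_univ, Fintype.card_fin]
  · exact congrArg (· + _) (sum_congr rfl fun w _ =>
      card_image_of_injective _ fun u v e => Sym2.congr_left.1 e)
  · intro x hx y hy e
    have x1 := mem_range.1 (mem_product.1 hx).1
    obtain ⟨-, -, -, -, a1, a2⟩ := h.bar x.1 x1 x.2
    obtain ⟨-, -, -, -, b1, b2⟩ := h.bar y.1 (mem_range.1 (mem_product.1 hy).1) y.2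
    rcases Sym2.eq_iff.1 e with ⟨e1, e2⟩ | ⟨e1, e2⟩ <;> rw [e1] at a1 <;> rw [e2] at a2
    · have f : x.1 = y.1 := by omega
      exact Prod.ext f ((h.inj x.1 x1).1 (e1.trans (by rw [f])))
    · omega
  · intro w hw w' hw' ne
    refine disjoint_left.2 fun e he he' => ?_
    obtain ⟨u, hu, rfl⟩ := mem_image.1 he
    obtain ⟨v, hv, e⟩ := mem_image.1 he'
    rcases Sym2.eq_iff.1 e with ⟨-, e2⟩ | ⟨rfl, rfl⟩
    · exact ne e2.symm
    · exact (h.mem _ hw _ hu).2.1.asymm (h.mem _ hw' _ hv).2.1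
  · refine disjoint_left.2 fun e he he' => ?_
    obtain ⟨w, hw, he⟩ := mem_biUnion.1 he
    obtain ⟨u, hu, rfl⟩ := mem_image.1 he
    obtain ⟨x, hx, e⟩ := mem_image.1 he'
    obtain ⟨-, -, a1, a2, a3, a4⟩ := h.bar x.1 (mem_range.1 (mem_product.1 hx).1) x.2
    have m := (h.mem w hw u hu).2.2
    rcases Sym2.eq_iff.1 e with ⟨rfl, rfl⟩ | ⟨rfl, rfl⟩
    · have := (m a2).2
      omega
    · have := (m a1).2
      omega

end

open Classical in
theorem Glue.laman {S : Finset Pt} {W : ℕ} {par : Pt → Finset Pt} {key : Pt → ℤ} {sec : Pt → ℕ}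
    {late : Pt → Prop} {ba bb : ℕ → Fin 3 → Pt} {s1 s2 : ℕ → Pt}
    (h : Glue S W par key sec late ba bb s1 s2) :
    (∀ e ∈ glueE S W par ba bb, ¬ e.IsDiag ∧ ∀ p ∈ e, p ∈ S) ∧
      (glueE S W par ba bb).card + 3 = 2 * S.card ∧ ∀ X ⊆ S, 2 ≤ X.card →
        ((glueE S W par ba bb).filter fun e => ∀ p ∈ e, p ∈ X).card + 3 ≤ 2 * X.card := by
  refine ⟨fun e he => ?_, ?_, fun X hX h2 => ?_⟩
  · rcases mem_union.1 he with he | he
    · obtain ⟨w, hw, he⟩ := mem_biUnion.1 he
      obtain ⟨u, hu, rfl⟩ := mem_image.1 he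
      exact ⟨fun c => h.yg_self hw (Sym2.mk_isDiag_iff.1 c ▸ hu),
        Sym2.ball.2 ⟨(h.mem w hw u hu).1, hw⟩⟩
    · obtain ⟨x, hx, rfl⟩ := mem_image.1 he
      obtain ⟨a1, a2, -, -, a3, a4⟩ := h.bar x.1 (mem_range.1 (mem_product.1 hx).1) x.2
      refine ⟨fun c => ?_, Sym2.ball.2 ⟨a1, a2⟩⟩
      rw [Sym2.mk_isDiag_iff.1 c] at a3
      omega
  · have := h.yg_sum
    rw [h.yg_card]
    omega
  · have l := h.yg_late (N := X.filter fun p => ¬ late p) ((filter_subset _ _).trans hX)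
      (fun p hp => (mem_filter.1 hp).2) (X.filter late) ((filter_subset _ _).trans hX)
      fun p hp => (mem_filter.1 hp).2
    rw [filter_union_filter_not_eq] at l
    have s : ((glueE S W par ba bb).filter fun e => ∀ p ∈ e, p ∈ X) ⊆
        (X.biUnion fun w => (par w ∩ X).image fun u => s(u, w)) ∪
          (ygB W ba bb X).image fun x => s(ba x.1 x.2, bb x.1 x.2) := fun e he => by
      obtain ⟨e1, e2⟩ := mem_filter.1 he
      refine mem_union.2 ((mem_union.1 e1).imp (fun he => ?_) fun he => ?_)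
      · obtain ⟨w, -, he⟩ := mem_biUnion.1 he
        obtain ⟨u, hu, rfl⟩ := mem_image.1 he
        obtain ⟨a1, a2⟩ := Sym2.ball.1 e2
        exact mem_biUnion.2 ⟨w, a2, mem_image_of_mem _ (mem_inter.2 ⟨hu, a1⟩)⟩
      · obtain ⟨x, hx, rfl⟩ := mem_image.1 he
        exact mem_image_of_mem _ (mem_filter.2 ⟨hx, Sym2.ball.1 e2⟩)
    have c := (card_le_card s).trans ((card_union_le _ _).trans (add_le_add
      (card_biUnion_le.trans (sum_le_sum fun w _ => card_image_le)) card_image_le))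
    unfold ygP at l
    omega

end Pool.Agent.Lib.MP_1a3fd7_lc.Pl
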