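import Pool.Agent.Lib.MP_1a3fd7_lc.Pl.GT
import Pool.Agent.Lib.MP_1a3fd7_lc.Pl.LB
import Pool.Agent.Lib.MP_1a3fd7_lc.Pl.LW
import Pool.Agent.Lib.MP_1a3fd7_lc.Pl.LG
import Pool.Agent.Lib.MP_1a3fd7_lc.Pl.YG
import Pool.Agent.Lib.MP_1a3fd7_lc.Pl.YB
import Pool.Agent.Lib.MP_1a3fd7_lc.Pl.YD

/-! The gap between satisfiable and unsatisfiable instances. -/

namespace Pool.Agent.Lib.MP_1a3fd7_lc.Pl

/-- The nominal threshold. -/
def thr0 (T W : ℕ) (S : Finset Pt) : ℕ :=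
  82 * S.card - (123 + 26 * legN S + 23 * pathN S + 5 * (T * (4 * W + 2)))

theorem core {v c B N : ℕ} {o : ℕ → ℕ → Bool} {S : Finset Pt} {H : ℤ}
    (hS : ∀ p, p ∈ S ↔ InS (2 * v + 4) c (c + v) (pval c o) p)
    (hB : InBox B (S.image (nomi H))) (hN : 20 * B ^ 4 ≤ N) :
    ((∃ ρ : ℕ → Bool, ∀ j < c, ∃ r < 2 * v, o j r = true ∧ ρ (r / 2) = decide (r % 2 = 0)) →
      ∃ E, PlaneLaman (S.image (emb N H)) E ∧
        weight E ≤ ((N : ℝ) + 4 * B) * thr0 (2 * v + 4) (c + v) S) ∧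
    (¬ (∃ ρ : ℕ → Bool, ∀ j < c, ∃ r < 2 * v, o j r = true ∧ ρ (r / 2) = decide (r % 2 = 0)) →
      ∀ E, PlaneLaman (S.image (emb N H)) E →
        ((N : ℝ) - 4 * B) * (thr0 (2 * v + 4) (c + v) S + 1) ≤ weight E) := by
  have hp : Par S := fun p h => ((hS p).1 h).2.2.2.2.1
  refine ⟨fun ⟨ρ, h⟩ => ?_, fun h E' hE => ?_⟩
  · obtain ⟨st, ch, h⟩ := logic_complete h
    obtain ⟨a1, a2, a3⟩ := (yes_glue hS (by omega) h).laman
    obtain ⟨b1, b2, b3⟩ := yes_short hS h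
    have b4 := yes_light hS h
    have k : Pre S (yesE S c (c + v) st ch) := ⟨a1, a2, a3, fun x y h1 h2 => by
      have c1 := (b2 _ _ h1).2.2.2
      have c2 := (b2 _ _ h2).2.2.2
      have := hp _ ((a1 _ h1).2 _ (Sym2.mem_mk_left _ _))
      have := (b2 _ _ h1).1
      rw [← c1] at c2
      simp only at *
      omega, fun x y h1 => b3 x y (b2 x y h1)⟩
    obtain ⟨E, e1, e2⟩ := push (H := H) hB hN hp k b1
    refine ⟨E, e1, e2.trans (mul_le_mul_of_nonneg_left (Nat.cast_le.2 ?_) (by positivity))⟩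
    have := k.count
    unfold Light at b4
    unfold thr0
    omega
  · obtain ⟨E, k, e⟩ := pull hB hN hp hE
    have c0 := k.count
    obtain ⟨x, hx⟩ : E.Nonempty := Finset.card_pos.1 (by omega)
    have b0 : 0 < B := by
      induction x using Sym2.ind with
      | h a b =>
        exact gc_pos (hB _ (Finset.mem_image_of_mem _ ((k.edges _ hx).2 a (Sym2.mem_mk_left _ _))))
    have b1 : (8 * B : ℝ) ≤ N := by exact_mod_cast (gc_num b0 hN).2
    have b2 : (0 : ℝ) ≤ B := Nat.cast_nonneg _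
    refine le_trans (mul_le_mul_of_nonneg_left ?_ (by linarith)) e
    have b3 : 1 ≤ nlen x := by
      unfold nlen
      split_ifs <;> omega
    have b4 := Finset.single_le_sum (f := nlen) (fun _ _ => Nat.zero_le _) hx
    by_contra n
    have n : ¬ thr0 (2 * v + 4) (c + v) S + 1 ≤ ∑ e ∈ E, nlen e := fun q =>
      n (by exact_mod_cast q)
    obtain ⟨d1, d2⟩ := lower hS k (by unfold Light; unfold thr0 at n; omega)
    exact h (logic_sound hS k d2 fun j hj => wall hS (by omega) k d1 hj)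

end Pool.Agent.Lib.MP_1a3fd7_lc.Pl
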