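import Pool.Agent.Lib.MP_1a3fd7_lc.Pl.MC
import Pool.Agent.Lib.MP_1a3fd7_lc.NpGrid

/-! The reduction runs in polynomial time. -/

namespace Pool.Agent.Lib.MP_1a3fd7_lc.Pl

open Pool.Agent.Lib.MP_acf5a6_lc Pool.Agent.Lib.Common.CookLevin N487b59b3

/-- A pair of naturals as a point. -/
def cst (p : ℕ × ℕ) : Pt := (p.1, p.2)

/-- The function `zx` on naturals. -/
def zn (c j : ℕ) : ℕ := if j < c then 16 * j + 16 else 16 * j + 14

/-- The function `hgt` on naturals. -/
def hn (y : ℕ) : ℕ :=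
  132 * (y / 4) + if y % 4 = 0 then 0 else if y % 4 = 1 then 40 else if y % 4 = 2 then 52 else 92

theorem hn_eq (y : ℕ) : (hn y : ℤ) = hgt y := by
  unfold hn hgt
  split_ifs <;> omega

/-- The test for `InS`. -/
def inB (T c : ℕ) (W : Un) (val : ℕ → ℕ → Bool) (x y : ℕ) : Bool :=
  decide (y < 4 * T) && decide (1 ≤ x) && decide (x ≤ 16 * W.n + 13) && decide ((x + y) % 2 = 1) &&
    (!decide (y % 4 = 0) || (decide (4 ≤ y) && (decide (x % 16 = 7) || decide (x % 16 = 9)))) &&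
    (urange W).all fun j =>
      (!decide (y % 4 = 1) || (!decide (x = zn c j) && !decide (x = zn c j + 2))) &&
      (!decide (y % 4 = 2) || (!decide (x = zn c j + 1) && !decide (x = zn c j + 3) &&
        (!decide (x + 1 = zn c j) || val (y / 4) j)))

theorem inB_iff (T c : ℕ) (W : Un) (val : ℕ → ℕ → Bool) (x y : ℕ) :
    inB T c W val x y = true ↔ InS T c W.n val (x, y) := by
  have e : ∀ j, zx c j = zn c j := fun j => by
    unfold zx zn
    split_ifs <;> simp
  have e2 : ((y : ℤ) / 4).toNat = y / 4 := by omega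
  simp only [inB, InS, e, e2, Bool.and_eq_true, Bool.or_eq_true, decide_eq_true_iff,
    Bool.not_eq_true', decide_eq_false_iff_not, List.all_eq_true, urange, List.mem_range]
  constructor
  · rintro ⟨⟨⟨⟨⟨a1, a2⟩, a3⟩, a4⟩, a5⟩, a6⟩
    refine ⟨by omega, by omega, by omega, by omega, by omega, by omega, fun h j hj => ?_,
      fun h j hj => ?_⟩
    · have := (a6 j hj).1
      omega
    · obtain ⟨b1, b2⟩ := (a6 j hj).2.resolve_left (by omega)
      exact ⟨by omega, by omega, fun k => b2.resolve_left (by omega)⟩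
  · rintro ⟨-, a1, a2, a3, a4, a5, a6, a7⟩
    refine ⟨by omega, fun j hj => ⟨?_, ?_⟩⟩
    · by_cases h : y % 4 = 1
      · have := a6 (by omega) j hj
        omega
      · exact Or.inl h
    · by_cases h : y % 4 = 2
      · obtain ⟨b1, b2, b3⟩ := a7 (by omega) j hj
        refine Or.inr ⟨by omega, ?_⟩
        by_cases k : x + 1 = zn c j
        · exact Or.inr (b3 (by omega))
        · exact Or.inl k
      · exact Or.inl h

/-- The list of the nominal points. -/
def lst (T : Un) (c : ℕ) (W : Un) (val : ℕ → ℕ → Bool) : List (ℕ × ℕ) :=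
  ((urange (((Un.mk 16).mul W).add ⟨14⟩)).flatMap fun x =>
    (urange ((Un.mk 4).mul T)).map fun y => (x, y)).filter fun p => inB T.n c W val p.1 p.2

/-- The nominal threshold, computed on the list. -/
def thrL (T : Un) (c : ℕ) (W : Un) (val : ℕ → ℕ → Bool) : ℕ :=
  82 * (lst T c W val).length - (123 + 26 * ((lst T c W val).filter fun p =>
    (decide (p.2 % 4 = 1) && inB T.n c W val (p.1 + 1) (p.2 + 1)) ||
    (decide (p.2 % 4 = 2) && inB T.n c W val (p.1 + 1) (p.2 - 1))).length +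
    23 * ((lst T c W val).filter fun p => inB T.n c W val (p.1 + 2) p.2).length +
    5 * (T.n * (4 * W.n + 2)))

theorem mem_lst (T : Un) (c : ℕ) (W : Un) (val : ℕ → ℕ → Bool) (p : Pt) :
    p ∈ ((lst T c W val).map cst).toFinset ↔ InS T.n c W.n val p := by
  simp only [List.mem_toFinset, List.mem_map, lst, List.mem_filter, inB_iff]
  refine ⟨fun ⟨q, h, e⟩ => e ▸ h.2, fun h => ?_⟩
  obtain ⟨x, y⟩ := p
  have ⟨a1, a2, a3, a4, _⟩ := h
  simp only at a1 a2 a3 a4
  lift x to ℕ using by omega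
  lift y to ℕ using a1
  refine ⟨(x, y), ⟨?_, h⟩, rfl⟩
  simp only [List.mem_flatMap, List.mem_map, urange, List.mem_range, Un.add, Un.mul]
  exact ⟨x, by omega, y, by omega, rfl⟩

theorem card_lst {L : List (ℕ × ℕ)} (h : L.Nodup) (q : ℕ × ℕ → Bool) (P : Pt → Prop)
    [DecidablePred P] (e : ∀ p, q p = true ↔ P (cst p)) :
    ((L.map cst).toFinset.filter P).card = (L.filter q).length := by
  have i : Function.Injective cst := fun a b k => by
    simp only [cst, Prod.mk.injEq] at k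
    exact Prod.ext (by omega) (by omega)
  rw [← List.length_map cst, ← List.toFinset_card_of_nodup ((h.filter _).map i)]
  refine congrArg _ (Finset.ext fun p => ?_)
  simp only [Finset.mem_filter, List.mem_toFinset, List.mem_map, List.mem_filter, e]
  exact ⟨fun ⟨⟨a, b, c⟩, d⟩ => ⟨a, ⟨b, c ▸ d⟩, c⟩, fun ⟨a, ⟨b, d⟩, c⟩ => ⟨⟨a, b, c⟩, c ▸ d⟩⟩

theorem thrL_eq (T : Un) (c : ℕ) (W : Un) (val : ℕ → ℕ → Bool) :
    thr0 T.n W.n ((lst T c W val).map cst).toFinset = thrL T c W val := by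
  have n : (lst T c W val).Nodup :=
    (List.Nodup.product List.nodup_range List.nodup_range).filter _
  have a1 := card_lst n (fun _ => true) (fun _ => True) (by simp)
  rw [Finset.filter_true, List.filter_true] at a1
  rw [thr0, thrL, a1, legN, pathN, card_lst n, card_lst n]
  · intro p
    rw [mem_lst, inB_iff]
    rfl
  · intro p
    simp only [mem_lst, Bool.and_eq_true, Bool.or_eq_true, decide_eq_true_iff, inB_iff, cst]
    refine or_congr (and_congr (by omega) Iff.rfl) ⟨fun ⟨a, b⟩ => ⟨by omega, ?_⟩,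
      fun ⟨a, b⟩ => ⟨by omega, ?_⟩⟩
    · rwa [Nat.cast_sub (by omega)] at b
    · rwa [Nat.cast_sub (by omega)]

theorem np_gap {L : N68a2faeb.DecisionProblem} (hL : L ∈ N68a2faeb.NP) :
    ∃ f : List Bool → List Pt × ℕ, N68a2faeb.IsPolyTime f ∧ ∀ x,
      (∀ p ∈ (f x).1, ∀ q ∈ (f x).1, ∀ r ∈ (f x).1, p ≠ q → p ≠ r → q ≠ r →
        ¬ Collinear ℝ {toR p, toR q, toR r}) ∧
      (L x = true → ∃ E, PlaneLaman (f x).1.toFinset E ∧ weight E ≤ (f x).2) ∧
      (L x = false → ∀ E, PlaneLaman (f x).1.toFinset E → (f x).2 + 1 ≤ weight E) := by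
  obtain ⟨v, c, o, hv, hc, ho, H⟩ := np_grid hL
  obtain ⟨T, hT⟩ : ∃ T : List Bool → Un, T = fun x => ((Un.mk 2).mul (v x)).add ⟨4⟩ := ⟨_, rfl⟩
  obtain ⟨W, hW⟩ : ∃ W : List Bool → Un, W = fun x => (c x).add (v x) := ⟨_, rfl⟩
  have pT : PT T := hT ▸ by fun_prop
  have pW : PT W := hW ▸ by fun_prop
  have pI : ∀ {α : Type} [N487b59b3 α] {x : α → List Bool} {a b : α → ℕ}, PT x → PT a → PT b →
      PT fun z => inB (T (x z)).n (c (x z)).n (W (x z)) (pval (c (x z)).n (o (x z))) (a z) (b z) := by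
    intro α _ x a b h1 h2 h3
    have k : PT fun z : α × ℕ => o (x z.1) z.2 (b z.1 / 4 - 4) :=
      PT.comp ho (g := fun z : α × ℕ => (x z.1, z.2, b z.1 / 4 - 4)) (by fun_prop)
    unfold inB pval zn
    fun_prop
  have pL : PT fun x => lst (T x) (c x).n (W x) (pval (c x).n (o x)) :=
    PT.filter (pI (by fun_prop) (by fun_prop) (by fun_prop)) (by fun_prop)
  have pW0 : PT fun x => thrL (T x) (c x).n (W x) (pval (c x).n (o x)) :=
    PT.natSub (by fun_prop) (PT.natAdd (PT.natAdd (PT.natAdd (by fun_prop) (PT.natMul (by fun_prop)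
      (PT.length (PT.filter (PT.or'
        (PT.and' (by fun_prop) (pI (by fun_prop) (by fun_prop) (by fun_prop)))
        (PT.and' (by fun_prop) (pI (by fun_prop) (by fun_prop) (by fun_prop)))) pL))))
      (PT.natMul (by fun_prop) (PT.length (PT.filter
        (pI (by fun_prop) (by fun_prop) (by fun_prop)) pL)))) (by fun_prop))
  obtain ⟨w, hw⟩ : ∃ w : List Bool → ℕ,
    w = fun x => thrL (T x) (c x).n (W x) (pval (c x).n (o x)) := ⟨_, rfl⟩
  obtain ⟨l, hl⟩ : ∃ l : List Bool → List (ℕ × ℕ),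
    l = fun x => lst (T x) (c x).n (W x) (pval (c x).n (o x)) := ⟨_, rfl⟩
  obtain ⟨B, hB⟩ : ∃ B : List Bool → ℕ, B = fun x => 144 * (W x).n + 132 * (T x).n + 126 := ⟨_, rfl⟩
  obtain ⟨N, hN⟩ : ∃ N : List Bool → ℕ, N = fun x =>
    20 * (B x * B x * (B x * B x)) + (8 * (B x * w x) + 4 * B x + 1) := ⟨_, rfl⟩
  rw [← hw] at pW0
  rw [← hl] at pL
  have pB : PT B := hB ▸ by fun_prop
  have pN : PT N := hN ▸ by fun_prop
  refine ⟨fun x => ((l x).map fun p => pert (N x) (9 * (p.1 : ℤ), ((132 * (T x).n : ℕ) : ℤ) - hn p.2),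
    (N x + 4 * B x) * w x), PT.isPolyTime ?_, fun x => ?_⟩
  · unfold pert hn
    simp only [sq]
    fun_prop
  have hS : ∀ p, p ∈ ((l x).map cst).toFinset ↔
      InS (2 * (v x).n + 4) (c x).n ((c x).n + (v x).n) (pval (c x).n (o x)) p := fun p => by
    rw [hl, mem_lst, hT, hW]
    rfl
  have e0 : thr0 (2 * (v x).n + 4) ((c x).n + (v x).n) ((l x).map cst).toFinset = w x := by
    simp only [hw, hl]
    rw [← thrL_eq, hT, hW]
    rfl
  have e1 : ((l x).map fun p => pert (N x) (9 * (p.1 : ℤ), ((132 * (T x).n : ℕ) : ℤ) - hn p.2)) =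
      ((l x).map cst).map (emb (N x) ((132 * (T x).n : ℕ) : ℤ)) := by
    rw [List.map_map]
    refine List.map_congr_left fun p _ => ?_
    rw [hn_eq]
    rfl
  have b1 : InBox (B x) (((l x).map cst).toFinset.image (nomi ((132 * (T x).n : ℕ) : ℤ))) := by
    intro q hq
    obtain ⟨p, hp, rfl⟩ := Finset.mem_image.1 hq
    obtain ⟨a1, a2, a3, a4, -⟩ := (hS p).1 hp
    simp only [hB, hT, hW, Bx, nomi, hgt, Un.add, Un.mul]
    split_ifs <;> omega
  have b2 : 20 * B x ^ 4 ≤ N x := by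
    rw [hN]
    exact le_trans (le_of_eq (by ring)) (Nat.le_add_right _ _)
  have b3 : (8 * (B x * w x) + 4 * B x + 1 : ℝ) ≤ N x := by
    rw [hN]
    exact_mod_cast Nat.le_add_left _ _
  obtain ⟨c1, c2⟩ := core hS b1 b2
  have e2 : ∀ (M : List Pt) (g : Pt → Pt), (M.map g).toFinset = M.toFinset.image g := fun M g => by
    ext p
    simp
  simp only [e1, ← List.mem_toFinset]
  rw [e2, e0] at *
  push_cast
  refine ⟨?_, fun h => c1 ((H x).2.1 h), fun h E hE => le_trans (by linarith) (c2 (fun k => ?_) E hE)⟩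
  · have := pert_gen b1 b2
    rwa [Finset.image_image] at this
  · simp [(H x).2.2 k] at h

end Pool.Agent.Lib.MP_1a3fd7_lc.Pl
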