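import Pool.Agent.Lib.MP_1a3fd7_lc.Pl.Defs
import Pool.Agent.Lib.MP_1a3fd7_lc.GC

/-!
Nominal points (X, r). Rows r = 4 t + (0 posts, 1 and 2 strip, 3 chain t). There are `T` chains and
`W` walls, the first `c` of them positive; `val t j` says that chain `t` has a valve at wall `j`.
-/

namespace Pool.Agent.Lib.MP_1a3fd7_lc.Pl

/-- The height of a row. -/
def hgt (y : ℤ) : ℤ :=
  132 * (y / 4) + if y % 4 = 0 then 0 else if y % 4 = 1 then 40 else if y % 4 = 2 then 52 else 92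

/-- The unperturbed drawing (upside down). -/
def nomi (H : ℤ) (p : Pt) : Pt := (9 * p.1, H - hgt p.2)

/-- The drawing of a nominal point; all rows are strictly bent. -/
def emb (N H : ℤ) (p : Pt) : Pt := pert N (nomi H p)

/-- The parity condition. -/
def Par (S : Finset Pt) : Prop := ∀ p ∈ S, (p.1 + p.2) % 2 = 1

/-- The edge that skips the point (x, y). -/
def sk (x y : ℤ) : Sym2 Pt := s((x - 2, y), (x + 2, y))

/-- An edge between neighbours in a row. -/
def IsPath (e : Sym2 Pt) : Prop := ∃ x y : ℤ, e = s((x, y), (x + 2, y))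

/-- An edge between second neighbours in a row. -/
def IsSk (e : Sym2 Pt) : Prop := ∃ x y : ℤ, e = sk x y

/-- An edge between neighbours in adjacent rows. -/
def IsLeg (e : Sym2 Pt) : Prop :=
  ∃ x y : ℤ, e = s((x, y), (x - 1, y - 1)) ∨ e = s((x, y), (x + 1, y - 1))

/-- A short leg inside a strip. -/
def IsSLeg (e : Sym2 Pt) : Prop :=
  ∃ x y : ℤ, y % 4 = 2 ∧ (e = s((x, y), (x - 1, y - 1)) ∨ e = s((x, y), (x + 1, y - 1)))

/-- A long leg inside a strip. -/
def IsLong (e : Sym2 Pt) : Prop :=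
  ∃ x y : ℤ, y % 4 = 2 ∧ (e = s((x, y), (x - 3, y - 1)) ∨ e = s((x, y), (x + 3, y - 1)))

/-- A skip edge of a chain. -/
def IsCSk (e : Sym2 Pt) : Prop := ∃ x y : ℤ, y % 4 = 3 ∧ e = sk x y

open Classical in
/-- The nominal length (a lower bound for long legs and other edges). -/
noncomputable def nlen (e : Sym2 Pt) : ℕ :=
  if IsPath e then 18 else if IsSk e then 36 else if IsSLeg e then 15 else if IsLeg e then 41
  else if IsLong e then 29 else 46

open Classical in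
/-- The combinatorial shadow of a plane Laman graph. -/
structure Pre (S : Finset Pt) (E : Finset (Sym2 Pt)) : Prop where
  edges : ∀ e ∈ E, ¬ e.IsDiag ∧ ∀ p ∈ e, p ∈ S
  count : E.card + 3 = 2 * S.card
  sparse : ∀ X ⊆ S, 2 ≤ X.card → (E.filter fun e => ∀ p ∈ e, p ∈ X).card + 3 ≤ 2 * X.card
  cross1 : ∀ x y, sk x y ∈ E → sk (x + 2) y ∉ E
  cross2 : ∀ x y, sk x y ∈ E → s((x, y), (x - 1, y - 1)) ∉ E ∧ s((x, y), (x + 1, y - 1)) ∉ E

/-- All edges are short. -/
def Short (E : Finset (Sym2 Pt)) : Prop := ∀ e ∈ E, IsPath e ∨ IsCSk e ∨ IsLeg e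

/-- The first point of the zone of wall `j`. -/
def zx (c j : ℕ) : ℤ := if j < c then 16 * j + 16 else 16 * j + 14

/-- The nominal points of the instance. -/
def InS (T c W : ℕ) (val : ℕ → ℕ → Bool) (p : Pt) : Prop :=
  0 ≤ p.2 ∧ p.2 < 4 * T ∧ 1 ≤ p.1 ∧ p.1 ≤ 16 * W + 13 ∧ (p.1 + p.2) % 2 = 1 ∧
    (p.2 % 4 = 0 → 4 ≤ p.2 ∧ (p.1 % 16 = 7 ∨ p.1 % 16 = 9)) ∧
    (p.2 % 4 = 1 → ∀ j < W, p.1 ≠ zx c j ∧ p.1 ≠ zx c j + 2) ∧
    (p.2 % 4 = 2 → ∀ j < W, p.1 ≠ zx c j + 1 ∧ p.1 ≠ zx c j + 3 ∧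
      (p.1 = zx c j - 1 → val (p.2 / 4).toNat j = true))

/-- The number of pairs of neighbours in a row. -/
def pathN (S : Finset Pt) : ℕ := (S.filter fun p => (p.1 + 2, p.2) ∈ S).card

/-- The number of short legs. -/
def legN (S : Finset Pt) : ℕ := (S.filter fun p => (p.2 % 4 = 1 ∧ (p.1 + 1, p.2 + 1) ∈ S) ∨
  (p.2 % 4 = 2 ∧ (p.1 + 1, p.2 - 1) ∈ S)).card

/-- The nominal weight is as small as it can be. -/
def Light (T W : ℕ) (S : Finset Pt) (E : Finset (Sym2 Pt)) : Prop :=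
  ∑ e ∈ E, nlen e + 26 * legN S + 23 * pathN S + 5 * (T * (4 * W + 2)) ≤ 41 * E.card

/-- The valve leg of chain `t` at wall `j`. -/
def vleg (c t j : ℕ) : Sym2 Pt := s((zx c j, 4 * (t : ℤ) + 3), (zx c j - 1, 4 * (t : ℤ) + 2))

/-- Every pair of chain points has an ear. -/
def Full (T W : ℕ) (E : Finset (Sym2 Pt)) : Prop :=
  ∀ t < T, ∀ m < 4 * W + 2, sk (4 * (m : ℤ) + 4) (4 * (t : ℤ) + 3) ∈ E ∨
    sk (4 * (m : ℤ) + 6) (4 * (t : ℤ) + 3) ∈ E

/-- The valves attached to a formula with `c` clauses; `o j r`: literal `r` occurs in clause `j`. -/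
def pval (c : ℕ) (o : ℕ → ℕ → Bool) (t j : ℕ) : Bool :=
  if t < 2 then decide (j < c) else if t < 4 then decide (c ≤ j)
  else if j < c then o j (t - 4) else decide ((t - 4) / 2 = j - c)

/-- `st` are the states of the chains, `ch j` the three chains whose valves at wall `j` are used. -/
structure Opn (T c W : ℕ) (val : ℕ → ℕ → Bool) (st : ℕ → Bool) (ch : ℕ → Fin 3 → ℕ) : Prop where
  lt : ∀ j < W, ∀ k, ch j k < T
  inj : ∀ j < W, Function.Injective (ch j)
  val : ∀ j < W, ∀ k, val (ch j k) j = true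
  st : ∀ j < W, ∀ k, st (ch j k) = decide (j < c)

section

variable (T c W : ℕ) (st : ℕ → Bool) (ch : ℕ → Fin 3 → ℕ)

/-- The point is an ear. -/
def Ear (p : Pt) : Prop :=
  p.2 % 4 = 3 ∧ 4 ≤ p.1 ∧ p.1 ≤ 16 * W + 10 ∧ (p.1 % 4 = 2 ↔ st (p.2 / 4).toNat = true)

/-- The point is a zone point. -/
def Zone (p : Pt) : Prop := p.2 % 4 = 3 ∧ ∃ j < W, p.1 = zx c j ∨ p.1 = zx c j + 2

/-- The point is the hinge of a used valve. -/
def Used (p : Pt) : Prop := ∃ j < W, ∃ k, p = (zx c j, 4 * (ch j k : ℤ) + 3)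

/-- The point is attached after the sections are glued. -/
def Late (p : Pt) : Prop := (Zone c W p ∧ ¬ Used c W ch p) ∨
  (Ear W st p ∧ (Zone c W (p.1 - 2, p.2) ∨ Zone c W (p.1 + 2, p.2)))

instance (p : Pt) : Decidable (Ear W st p) := by unfold Ear; infer_instance

instance (p : Pt) : Decidable (Zone c W p) := by unfold Zone; infer_instance

instance (p : Pt) : Decidable (Used c W ch p) := by unfold Used; infer_instance

instance (p : Pt) : Decidable (Late c W st ch p) := by unfold Late; infer_instance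

/-- The section of a point. -/
def sec (p : Pt) : ℕ := ((p.1 - 1) / 16).toNat

/-- The position inside the section, between 1 and 16. -/
def loc (p : Pt) : ℤ := (p.1 - 1) % 16 + 1

/-- The parents of a point. -/
def par (p : Pt) : Finset Pt :=
  if p.2 % 4 = 0 then
    if loc p = 7 then {(p.1 - 1, p.2 - 1), (p.1 + 1, p.2 - 1)} else {(p.1 - 1, p.2 - 1), (p.1 - 2, p.2)}
  else if p.2 % 4 = 3 then
    if Ear W st p then {(p.1 - 2, p.2), (p.1 + 2, p.2)}
    else if Late c W st ch p then {(p.1 - 4, p.2), (p.1 + 4, p.2)}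
    else if loc p = 6 ∨ loc p = 8 then {(p.1 - 1, p.2 - 1), (p.1 + 1, p.2 - 1)}
    else if loc p < 6 then
      {if Ear W st (p.1 + 2, p.2) then (p.1 + 4, p.2) else (p.1 + 2, p.2), (p.1 + 1, p.2 - 1)}
    else {if Ear W st (p.1 - 2, p.2) then (p.1 - 4, p.2) else (p.1 - 2, p.2), (p.1 - 1, p.2 - 1)}
  else if loc p = 8 then if p.2 = 1 then ∅ else {(p.1 - 1, p.2 - 1), (p.1 + 1, p.2 - 1)}
  else if loc p = 10 then if p.2 = 1 then {(p.1 - 2, p.2)} else {(p.1 - 2, p.2), (p.1 - 1, p.2 - 1)}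
  else if loc p = 9 then {(p.1 - 1, p.2 - 1), (p.1 + 1, p.2 - 1)}
  else if loc p < 8 then {(p.1 + 2, p.2), (p.1 + 1, if p.2 % 4 = 1 then p.2 + 1 else p.2 - 1)}
  else {(p.1 - 2, p.2), (p.1 - 1, if p.2 % 4 = 1 then p.2 + 1 else p.2 - 1)}

/-- The time at which a point is attached. -/
def key (p : Pt) : ℤ :=
  if Late c W st ch p then 100 * T + if Ear W st p then 1 else 0
  else 100 * (p.2 / 4) +
    if p.2 % 4 = 0 then (if loc p = 7 then 0 else 1)
    else if p.2 % 4 = 3 then (if Ear W st p then 40 else 20 + |loc p - 7|)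
    else if loc p = 8 then 2 else if loc p = 10 then 3 else if loc p = 9 then 4 else 3 + |loc p - 9|

/-- The left end of a bar. -/
def ba (j : ℕ) (k : Fin 3) : Pt := (zx c j, 4 * (ch j k : ℤ) + 3)

/-- The right end of a bar. -/
def bb (j : ℕ) (k : Fin 3) : Pt := (zx c j + 4, 4 * (ch j k : ℤ) + 3)

end

/-- The graph given by parents and three bars between consecutive sections. -/
def glueE (S : Finset Pt) (W : ℕ) (par : Pt → Finset Pt) (ba bb : ℕ → Fin 3 → Pt) :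
    Finset (Sym2 Pt) :=
  (S.biUnion fun w => (par w).image fun u => s(u, w)) ∪
    ((Finset.range W) ×ˢ (Finset.univ : Finset (Fin 3))).image fun x => s(ba x.1 x.2, bb x.1 x.2)

/-- The data of a construction by vertices of degree two and gluing along three bars. -/
structure Glue (S : Finset Pt) (W : ℕ) (par : Pt → Finset Pt) (key : Pt → ℤ) (sec : Pt → ℕ)
    (late : Pt → Prop) (ba bb : ℕ → Fin 3 → Pt) (s1 s2 : ℕ → Pt) : Prop where
  mem : ∀ w ∈ S, ∀ u ∈ par w, u ∈ S ∧ key u < key w ∧ (¬ late w → ¬ late u ∧ sec u = sec w)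
  two : ∀ w ∈ S, (par w).card = 2 ∨ ∃ j ≤ W, w = s1 j ∨ w = s2 j
  st1 : ∀ j ≤ W, s1 j ∈ S ∧ (par (s1 j)).card = 0 ∧ sec (s1 j) = j
  st2 : ∀ j ≤ W, s2 j ∈ S ∧ (par (s2 j)).card = 1 ∧ sec (s2 j) = j
  bar : ∀ j < W, ∀ k, ba j k ∈ S ∧ bb j k ∈ S ∧ ¬ late (ba j k) ∧ ¬ late (bb j k) ∧
    sec (ba j k) = j ∧ sec (bb j k) = j + 1
  inj : ∀ j < W, Function.Injective (ba j) ∧ Function.Injective (bb j)

/-- The graph of a satisfying assignment. -/
def yesE (S : Finset Pt) (c W : ℕ) (st : ℕ → Bool) (ch : ℕ → Fin 3 → ℕ) : Finset (Sym2 Pt) :=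
  glueE S W (par c W st ch) (ba c ch) (bb c ch)

theorem hgt_lt {y y' : ℤ} (h : y < y') : hgt y + 12 ≤ hgt y' := by
  unfold hgt
  split_ifs <;> omega

theorem nomi_inj (H : ℤ) : Function.Injective (nomi H) := fun p q e => by
  simp only [nomi, Prod.mk.injEq] at e
  refine Prod.ext (by omega) ?_
  rcases lt_trichotomy p.2 q.2 with h | h | h
  · have := hgt_lt h
    omega
  · exact h
  · have := hgt_lt h
    omega

theorem emb_injOn {B N : ℕ} {H : ℤ} {S : Finset Pt} (hB : InBox B (S.image (nomi H)))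
    (hN : 20 * B ^ 4 ≤ N) : Set.InjOn (emb N H) S := fun p hp q hq e =>
  nomi_inj H (pert_injOn hB hN (Finset.mem_coe.2 (Finset.mem_image_of_mem _ hp))
    (Finset.mem_coe.2 (Finset.mem_image_of_mem _ hq)) e)

end Pool.Agent.Lib.MP_1a3fd7_lc.Pl
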