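import Pool.Agent.Lib.MP_1a3fd7_lc.Pl.Nom

namespace Pool.Agent.Lib.MP_1a3fd7_lc.Pl

theorem ya_zx (c j : ℕ) : (j < c ∧ zx c j = 16 * j + 16) ∨ (c ≤ j ∧ zx c j = 16 * j + 14) := by
  unfold zx
  split_ifs <;> omega

variable {T c W : ℕ} {val : ℕ → ℕ → Bool} {st : ℕ → Bool} {ch : ℕ → Fin 3 → ℕ}

/-- Membership without a valve. -/
theorem ya_in {x y : ℤ} (h : 0 ≤ y ∧ y < 4 * T ∧ 1 ≤ x ∧ x ≤ 16 * W + 13 ∧ (x + y) % 2 = 1 ∧
      (y % 4 = 0 → 4 ≤ y ∧ (x % 16 = 7 ∨ x % 16 = 9)))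
    (h1 : ∀ j < W, (y % 4 = 1 → x ≠ zx c j ∧ x ≠ zx c j + 2) ∧
      (y % 4 = 2 → x ≠ zx c j + 1 ∧ x ≠ zx c j + 3 ∧ x ≠ zx c j - 1)) : InS T c W val (x, y) :=
  ⟨h.1, h.2.1, h.2.2.1, h.2.2.2.1, h.2.2.2.2.1, h.2.2.2.2.2, fun e j hj => (h1 j hj).1 e,
    fun e j hj => ⟨((h1 j hj).2 e).1, ((h1 j hj).2 e).2.1, fun e' => absurd e' ((h1 j hj).2 e).2.2⟩⟩

theorem ya_pair {P : Pt → Prop} {a b : Pt} (ha : P a) (hb : P b) :
    ∀ u ∈ ({a, b} : Finset Pt), P u := fun u hu => by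
  rcases Finset.mem_insert.1 hu with rfl | hu
  exacts [ha, Finset.mem_singleton.1 hu ▸ hb]

theorem ya_chain (h : Opn T c W val st ch) {x y : ℤ} (a1 : 0 ≤ y) (a2 : y < 4 * T) (a3 : 1 ≤ x)
    (a4 : x ≤ 16 * W + 13) (a5 : (x + y) % 2 = 1) (e : y % 4 = 3) :
    ∀ u ∈ par c W st ch (x, y), InS T c W val u := by
  have r : ∀ z : ℤ, 1 ≤ z → z ≤ 16 * W + 13 → (z + y) % 2 = 1 → InS T c W val (z, y) :=
    fun z _ _ _ => ya_in (by omega) fun _ _ => by omega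
  unfold par
  dsimp only [loc]
  rw [if_neg (by omega), if_pos e]
  by_cases b1 : Ear W st (x, y)
  · rw [if_pos b1]
    obtain ⟨-, b2, b3, -⟩ := b1
    dsimp only at b2 b3
    exact ya_pair (r _ (by omega) (by omega) (by omega)) (r _ (by omega) (by omega) (by omega))
  rw [if_neg b1]
  by_cases b2 : Late c W st ch (x, y)
  · rw [if_pos b2]
    obtain ⟨⟨-, j, hj, b3⟩, -⟩ := b2.resolve_right fun b => b1 b.1
    have := ya_zx c j
    dsimp only at b3
    exact ya_pair (r _ (by omega) (by omega) (by omega)) (r _ (by omega) (by omega) (by omega))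
  rw [if_neg b2]
  have u : ∀ j < W, x = zx c j ∨ x = zx c j + 2 →
      ∃ i < W, ∃ k, x = zx c i ∧ y = 4 * (ch i k : ℤ) + 3 := fun j hj b => by
    by_contra n
    exact b2 (Or.inl ⟨⟨e, j, hj, b⟩, fun ⟨i, hi, k, q⟩ =>
      n ⟨i, hi, k, congrArg Prod.fst q, congrArg Prod.snd q⟩⟩)
  have u2 : ∀ j < W, x ≠ zx c j + 2 := fun j hj b => by
    obtain ⟨i, -, k, q, -⟩ := u j hj (Or.inr b)
    have := ya_zx c j
    have := ya_zx c i
    omega
  by_cases b3 : (x - 1) % 16 + 1 = 6 ∨ (x - 1) % 16 + 1 = 8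
  · rw [if_pos b3]
    exact ya_pair (ya_in (by omega) fun j _ => by have := ya_zx c j; omega)
      (ya_in (by omega) fun j _ => by have := ya_zx c j; omega)
  rw [if_neg b3]
  by_cases b4 : (x - 1) % 16 + 1 < 6
  · rw [if_pos b4]
    refine ya_pair ?_ (ya_in (by omega) fun j hj => by
      have := ya_zx c j
      have := u2 j hj
      omega)
    split_ifs <;> exact r _ (by omega) (by omega) (by omega)
  rw [if_neg b4]
  refine ya_pair ?_ ?_
  · split_ifs <;> exact r _ (by omega) (by omega) (by omega)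
  · unfold InS
    dsimp only
    refine ⟨by omega, by omega, by omega, by omega, by omega, by omega, by omega, fun _ j hj => ?_⟩
    have := ya_zx c j
    have := u2 j hj
    refine ⟨by omega, by omega, fun b => ?_⟩
    obtain ⟨i, hi, k, q1, q2⟩ := u j hj (Or.inl (by omega))
    have := ya_zx c i
    obtain rfl : i = j := by omega
    rw [show ((y - 1) / 4).toNat = ch i k by omega]
    exact h.val i hi k

theorem yes_mem {T c W : ℕ} {val : ℕ → ℕ → Bool} {st : ℕ → Bool} {ch : ℕ → Fin 3 → ℕ}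
    (h : Opn T c W val st ch) {w : Pt} (hw : InS T c W val w) :
    ∀ u ∈ par c W st ch w, InS T c W val u := by
  obtain ⟨x, y⟩ := w
  obtain ⟨a1, a2, a3, a4, a5, a6, a7, a8⟩ := hw
  dsimp only at a1 a2 a3 a4 a5 a6 a7 a8
  by_cases e3 : y % 4 = 3
  · exact ya_chain h a1 a2 a3 a4 a5 e3
  have k : ∀ j < W, ((j < c ∧ zx c j = 16 * j + 16) ∨ (c ≤ j ∧ zx c j = 16 * j + 14)) ∧
      (y % 4 = 1 → x ≠ zx c j ∧ x ≠ zx c j + 2) ∧ (y % 4 = 2 → x ≠ zx c j + 1 ∧ x ≠ zx c j + 3) :=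
    fun j hj => ⟨ya_zx c j, fun e => a7 e j hj, fun e => ⟨(a8 e j hj).1, (a8 e j hj).2.1⟩⟩
  clear a7 a8
  unfold par
  dsimp only [loc]
  rw [if_neg e3]
  split_ifs
  any_goals
    exact ya_pair (ya_in (by omega) fun j hj => by have := k j hj; omega)
      (ya_in (by omega) fun j hj => by have := k j hj; omega)
  · exact fun u hu => absurd hu (Finset.notMem_empty u)
  · intro u hu
    rw [Finset.mem_singleton.1 hu]
    exact ya_in (by omega) fun j hj => by have := k j hj; omega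

end Pool.Agent.Lib.MP_1a3fd7_lc.Pl
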