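import Pool.Agent.Lib.MP_1a3fd7_lc.Pl.Nom

namespace Pool.Agent.Lib.MP_1a3fd7_lc.Pl

/-- A zone point that is not an ear has ears on both sides. -/
theorem yc_zone {c W : ℕ} {st : ℕ → Bool} {x y : ℤ} (h : Zone c W (x, y))
    (h' : ¬ Ear W st (x, y)) : Ear W st (x - 2, y) ∧ Ear W st (x + 2, y) := by
  obtain ⟨h1, j, hj, h2⟩ := h
  simp only [Ear, zx] at h1 h2 h' ⊢
  generalize st (y / 4).toNat = b at h' ⊢
  cases b <;> simp only [Bool.false_eq_true, iff_false, iff_true] at h' ⊢ <;>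
    split_ifs at h2 <;> omega

/-- The three kinds of edges of the graph. -/
def ycKind (W : ℕ) (st : ℕ → Bool) (e : Sym2 Pt) : Prop :=
  IsPath e ∨ (∃ x y, Ear W st (x, y) ∧ e = sk x y) ∨
    ∃ x y, ¬ Ear W st (x, y) ∧ (e = s((x, y), (x - 1, y - 1)) ∨ e = s((x, y), (x + 1, y - 1)))

theorem yc_par {c W : ℕ} {st : ℕ → Bool} {ch : ℕ → Fin 3 → ℕ} {x y : ℤ} {u : Pt}
    (h : u ∈ par c W st ch (x, y)) : ycKind W st s(u, (x, y)) := by
  have p1 : ycKind W st s((x - 2, y), (x, y)) := Or.inl ⟨x - 2, y, by simp⟩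
  have p2 : ycKind W st s((x + 2, y), (x, y)) := Or.inl ⟨x, y, Sym2.eq_swap⟩
  have s1 : Ear W st (x - 2, y) → ycKind W st s((x - 4, y), (x, y)) := fun e =>
    Or.inr (Or.inl ⟨_, _, e, by simp only [sk, Sym2.eq_iff, Prod.mk.injEq, and_true]; omega⟩)
  have s2 : Ear W st (x + 2, y) → ycKind W st s((x + 4, y), (x, y)) := fun e =>
    Or.inr (Or.inl ⟨_, _, e, by simp only [sk, Sym2.eq_iff, Prod.mk.injEq, and_true]; omega⟩)
  have l1 : ¬ Ear W st (x, y) → ycKind W st s((x - 1, y - 1), (x, y)) := fun e =>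
    Or.inr (Or.inr ⟨_, _, e, Or.inl Sym2.eq_swap⟩)
  have l2 : ¬ Ear W st (x, y) → ycKind W st s((x + 1, y - 1), (x, y)) := fun e =>
    Or.inr (Or.inr ⟨_, _, e, Or.inr Sym2.eq_swap⟩)
  have u1 : y % 4 = 1 → ycKind W st s((x - 1, y + 1), (x, y)) := fun e =>
    Or.inr (Or.inr ⟨x - 1, y + 1, fun a => by have := a.1; simp only at this; omega, by simp⟩)
  have u2 : y % 4 = 1 → ycKind W st s((x + 1, y + 1), (x, y)) := fun e =>
    Or.inr (Or.inr ⟨x + 1, y + 1, fun a => by have := a.1; simp only at this; omega, by simp⟩)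
  have n : ¬ y % 4 = 3 → ¬ Ear W st (x, y) := fun a b => a b.1
  have z : Late c W st ch (x, y) → ¬ Ear W st (x, y) →
      Ear W st (x - 2, y) ∧ Ear W st (x + 2, y) := fun a b =>
    yc_zone (a.resolve_right fun d => b d.1).1 b
  unfold par at h
  simp only at h
  by_cases h0 : y % 4 = 0
  · have q := n (by omega)
    rw [if_pos h0] at h
    split_ifs at h <;> simp only [Finset.mem_insert, Finset.mem_singleton] at h <;>
      rcases h with rfl | rfl <;> first | exact p1 | exact l1 q | exact l2 q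
  rw [if_neg h0] at h
  by_cases h3 : y % 4 = 3
  · rw [if_pos h3] at h
    by_cases q : Ear W st (x, y)
    · simp only [if_pos q, Finset.mem_insert, Finset.mem_singleton] at h
      rcases h with rfl | rfl
      exacts [p1, p2]
    rw [if_neg q] at h
    by_cases r : Late c W st ch (x, y)
    · simp only [if_pos r, Finset.mem_insert, Finset.mem_singleton] at h
      rcases h with rfl | rfl
      exacts [s1 (z r q).1, s2 (z r q).2]
    rw [if_neg r] at h
    split_ifs at h <;> simp only [Finset.mem_insert, Finset.mem_singleton] at h <;>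
      rcases h with rfl | rfl <;>
      first | exact p1 | exact p2 | exact l1 q | exact l2 q | exact s1 ‹_› | exact s2 ‹_›
  have q := n h3
  rw [if_neg h3] at h
  split_ifs at h <;>
    simp only [Finset.mem_insert, Finset.mem_singleton, Finset.notMem_empty] at h <;>
    rcases h with rfl | rfl <;>
    first | exact p1 | exact p2 | exact l1 q | exact l2 q | exact u1 ‹_› | exact u2 ‹_›

theorem yc_kind {T c W : ℕ} {val : ℕ → ℕ → Bool} {st : ℕ → Bool} {ch : ℕ → Fin 3 → ℕ}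
    {S : Finset Pt} (h : Opn T c W val st ch) {e : Sym2 Pt} (he : e ∈ yesE S c W st ch) :
    ycKind W st e := by
  simp only [yesE, glueE, Finset.mem_union, Finset.mem_biUnion, Finset.mem_image] at he
  rcases he with ⟨⟨x, y⟩, -, u, hu, rfl⟩ | ⟨⟨j, k⟩, hj, rfl⟩
  · exact yc_par hu
  have hj' : j < W := by simpa using hj
  refine Or.inr (Or.inl ⟨zx c j + 2, 4 * (ch j k : ℤ) + 3, ?_, ?_⟩)
  · have e : ((4 * (ch j k : ℤ) + 3) / 4).toNat = ch j k := by omega
    simp only [Ear, e, h.st j hj' k, zx, decide_eq_true_eq]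
    split_ifs <;> omega
  · simp only [ba, bb, sk, Sym2.eq_iff, Prod.mk.injEq, and_true]
    omega

theorem yes_short {T c W : ℕ} {val : ℕ → ℕ → Bool} {st : ℕ → Bool} {ch : ℕ → Fin 3 → ℕ}
    {S : Finset Pt} (hS : ∀ p, p ∈ S ↔ InS T c W val p) (h : Opn T c W val st ch) :
    Short (yesE S c W st ch) ∧ (∀ x y, sk x y ∈ yesE S c W st ch → Ear W st (x, y)) ∧
      ∀ x y, Ear W st (x, y) → s((x, y), (x - 1, y - 1)) ∉ yesE S c W st ch ∧
        s((x, y), (x + 1, y - 1)) ∉ yesE S c W st ch := by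
  refine ⟨fun e he => ?_, fun x y he => ?_, fun x y hx => ⟨fun he => ?_, fun he => ?_⟩⟩
  · rcases yc_kind h he with a | ⟨x, y, a, b⟩ | ⟨x, y, -, b⟩
    · exact Or.inl a
    · exact Or.inr (Or.inl ⟨x, y, a.1, b⟩)
    · exact Or.inr (Or.inr ⟨x, y, b⟩)
  all_goals
    rcases yc_kind h he with ⟨a, b, e⟩ | ⟨a, b, q, e⟩ | ⟨a, b, q, e⟩ <;>
      simp only [sk, Sym2.eq_iff, Prod.mk.injEq] at e <;>
      first
      | omega
      | (obtain ⟨rfl, rfl⟩ : x = a ∧ y = b := by omega
         tauto)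

end Pool.Agent.Lib.MP_1a3fd7_lc.Pl
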